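import Pool.Agent.H516R2.EQP3.Props
import Pool.Agent.H516R2.EQP.AS

/-!
# Task ASq: asymptotics
-/

set_option autoImplicit false

namespace Pool.Agent.H516R2.EQP3

open Pool.Agent.NPC Pool.Agent.H620R2.Gauge Finset H568R2 Pool.Agent.H676 Pool.Agent.H516R2.EQP
  Pool.Agent.H516R2.EQP2
open Filter

theorem ASq_exp (m : ℕ) {y : ℝ} (hy : 23 * (m : ℝ) + 12 ≤ y) :
    2 * 2 ^ (22 * m) * Real.exp (-y) ≤ 1 / 6 * (1 / 2) ^ m := by
  have h1 : Real.exp (-y) ≤ Real.exp (-(23 * (m : ℝ) + 12)) := Real.exp_le_exp.2 (by linarith)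
  have h2 : Real.exp (-(23 * (m : ℝ) + 12)) = (Real.exp (-1)) ^ (23 * m) * (Real.exp (-1)) ^ 12 := by
    rw [← Real.exp_nat_mul, ← Real.exp_nat_mul, ← Real.exp_add]
    congr 1
    push_cast
    ring
  have he : Real.exp (-1) ≤ 1 / 2 := by
    rw [Real.exp_neg, one_div]
    apply inv_anti₀ (by norm_num)
    have := Real.exp_one_gt_d9
    linarith
  have h0 := (Real.exp_pos (-1 : ℝ)).le
  have h3 : (Real.exp (-1)) ^ (23 * m) ≤ (1 / 2) ^ (23 * m) := pow_le_pow_left₀ h0 he _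
  have h4 : (Real.exp (-1)) ^ 12 ≤ (1 / 2) ^ 12 := pow_le_pow_left₀ h0 he 12
  calc 2 * 2 ^ (22 * m) * Real.exp (-y) ≤
      2 * 2 ^ (22 * m) * ((Real.exp (-1)) ^ (23 * m) * (Real.exp (-1)) ^ 12) := by
        rw [← h2]; gcongr
    _ ≤ 2 * 2 ^ (22 * m) * ((1 / 2) ^ (23 * m) * (1 / 2) ^ 12) := by gcongr
    _ = (2 * (1 / 2) ^ 12) * (1 / 2) ^ m := by
        have e1 : (23 * m : ℕ) = 22 * m + m := by ring
        rw [e1, pow_add]
        have e2 : (2 : ℝ) ^ (22 * m) * (1 / 2) ^ (22 * m) = 1 := by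
          rw [← mul_pow]
          norm_num
        calc 2 * (2 : ℝ) ^ (22 * m) * ((1 / 2) ^ (22 * m) * (1 / 2) ^ m * (1 / 2) ^ 12) =
            (2 * (1 / 2) ^ 12) * (1 / 2) ^ m * ((2 : ℝ) ^ (22 * m) * (1 / 2) ^ (22 * m)) := by ring
          _ = _ := by rw [e2, mul_one]
    _ ≤ 1 / 6 * (1 / 2) ^ m := by
        gcongr
        norm_num

theorem ASq : St_ASq := by
  intro J p
  set d := p.natDegree with hd
  set C : ℝ := (p.eval 1 : ℕ) + 1 with hC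
  have hC1 : 1 ≤ C := by
    rw [hC]
    have : (0 : ℝ) ≤ ((p.eval 1 : ℕ) : ℝ) := Nat.cast_nonneg _
    linarith
  set D : ℝ := C * 8 ^ d with hD
  have hD1 : 1 ≤ D := by
    have : (1 : ℝ) ≤ 8 ^ d := one_le_pow₀ (by norm_num)
    rw [hD]
    nlinarith
  obtain ⟨m₀, h⟩ := eventually_atTop.1 ((eventually_ge_atTop 3).and
    ((AS_ev (60 + 30 * ((24 * D) ^ (2 * J) * (2 * D ^ 2))) (2 * J * d + 2 * d)).and
      ((AS_ev (36 * D) d).and (AS_ev ((24 * D) ^ J * 35) (d * J + 1)))))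
  refine ⟨m₀, (h m₀ le_rfl).1, fun m hm => ?_⟩
  obtain ⟨h3, e1, e2, e3⟩ := h m hm
  intro t' ht' ht1'
  set t : ℝ := (t' : ℝ) with ht
  have hm1 : 1 ≤ m := by omega
  have hmr : (3 : ℝ) ≤ m := by exact_mod_cast h3
  have hmp : ∀ e : ℕ, (1 : ℝ) ≤ (m : ℝ) ^ e := fun e => one_le_pow₀ (by linarith)
  have ht1 : 1 ≤ t := by
    rw [ht]
    exact_mod_cast ht1'
  have htle : t ≤ D * (m : ℝ) ^ d := by
    have h1 := AS_poly_le p (8 * m) (by omega)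
    have h2 : t ≤ ((p.eval 1 : ℕ) : ℝ) * ((8 * m : ℕ) : ℝ) ^ d := by
      rw [ht, ht']
      exact_mod_cast h1
    push_cast at h2
    rw [mul_pow] at h2
    have h4 := hmp d
    have h5 : (1 : ℝ) ≤ 8 ^ d := one_le_pow₀ (by norm_num)
    rw [hD, hC]
    have h6 : 0 ≤ (8 : ℝ) ^ d * (m : ℝ) ^ d := by positivity
    nlinarith
  have h2m : (0 : ℝ) < 2 ^ m := by positivity
  have h8m : (8 : ℝ) ≤ 2 ^ m := by
    have : (2 : ℝ) ^ 3 ≤ 2 ^ m := pow_le_pow_right₀ (by norm_num) h3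
    linarith
  have i2 : ((1 : ℝ) / 2) ^ m = 1 / 2 ^ m := by rw [one_div_pow]
  have i4 : (4 : ℝ) ^ m = 2 ^ m * 2 ^ m := by rw [← mul_pow]; norm_num
  have i16 : (16 : ℝ) ^ m = 2 ^ m * (2 ^ m * 2 ^ m * 2 ^ m) := by
    rw [← mul_pow, ← mul_pow, ← mul_pow]
    norm_num
  -- first term
  have T1 : (10 + 5 * (((24 * t) ^ J) ^ 2 * (t ^ 2 + 1))) / 4 ^ m ≤ 1 / 6 * (1 / 2) ^ m := by
    have hA : ((24 * t) ^ J) ^ 2 * (t ^ 2 + 1) ≤
        (24 * D) ^ (2 * J) * (2 * D ^ 2) * (m : ℝ) ^ (2 * J * d + 2 * d) := by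
      have hB : 1 ≤ D * (m : ℝ) ^ d := by
        have := hmp d
        nlinarith
      have h1 : ((24 * t) ^ J) ^ 2 ≤ ((24 * (D * (m : ℝ) ^ d)) ^ J) ^ 2 := by gcongr
      have h2 : t ^ 2 + 1 ≤ 2 * (D * (m : ℝ) ^ d) ^ 2 := by
        have : t ^ 2 ≤ (D * (m : ℝ) ^ d) ^ 2 := by gcongr
        have : 1 ≤ (D * (m : ℝ) ^ d) ^ 2 := one_le_pow₀ hB
        linarith
      calc ((24 * t) ^ J) ^ 2 * (t ^ 2 + 1) ≤
          ((24 * (D * (m : ℝ) ^ d)) ^ J) ^ 2 * (2 * (D * (m : ℝ) ^ d) ^ 2) := by gcongr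
        _ = (24 * D) ^ (2 * J) * (2 * D ^ 2) * (m : ℝ) ^ (2 * J * d + 2 * d) := by
          rw [pow_add, pow_mul' (m : ℝ) (2 * J) d, pow_mul' (m : ℝ) 2 d]
          rw [mul_comm 2 J, pow_mul (24 * D) J 2, pow_mul ((m : ℝ) ^ d) J 2]
          rw [show 24 * (D * (m : ℝ) ^ d) = 24 * D * (m : ℝ) ^ d by ring, mul_pow (24 * D)]
          ring
    have h5 := hmp (2 * J * d + 2 * d)
    have h6 : 6 * (10 + 5 * (((24 * t) ^ J) ^ 2 * (t ^ 2 + 1))) ≤ 2 ^ m := by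
      refine le_trans ?_ e1
      nlinarith
    rw [i2, i4, div_le_iff₀ (by positivity)]
    have h7 : 1 / 6 * (1 / 2 ^ m) * (2 ^ m * 2 ^ m) = 1 / 6 * (2 : ℝ) ^ m := by
      field_simp
    rw [h7]
    linarith
  have T2 : (1 : ℝ) / 16 ^ m ≤ 1 / 12 * (1 / 2) ^ m := by
    rw [i2, i16, div_le_iff₀ (by positivity)]
    have h7 : 1 / 12 * (1 / 2 ^ m) * (2 ^ m * (2 ^ m * 2 ^ m * 2 ^ m)) =
        1 / 12 * ((2 : ℝ) ^ m * 2 ^ m * 2 ^ m) := by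
      field_simp
    rw [h7]
    have : (64 : ℝ) ≤ 2 ^ m * 2 ^ m := by nlinarith
    nlinarith
  have T3 : (4 : ℝ) / 8 ^ (8 * m) ≤ 4 * (1 / 16 ^ m) := by
    rw [div_eq_mul_one_div]
    have : (16 : ℝ) ^ m ≤ 8 ^ (8 * m) := by
      rw [pow_mul]
      exact pow_le_pow_left₀ (by norm_num) (by norm_num) m
    have h16 : (0 : ℝ) < 16 ^ m := by positivity
    gcongr
  have T3' : (1 : ℝ) / 16 ^ m ≤ 1 / 64 * (1 / 6 * (1 / 2) ^ m * 6) := by
    rw [i2, i16, div_le_iff₀ (by positivity)]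
    have h7 : 1 / 64 * (1 / 6 * (1 / 2 ^ m) * 6) * (2 ^ m * (2 ^ m * 2 ^ m * 2 ^ m)) =
        1 / 64 * ((2 : ℝ) ^ m * 2 ^ m * 2 ^ m) := by
      field_simp
    rw [h7]
    have : (64 : ℝ) ≤ 2 ^ m * 2 ^ m := by nlinarith
    nlinarith
  have T5 : ((1 : ℝ) / 16) ^ (8 * m) ≤ 1 / 16 ^ m := by
    rw [one_div_pow]
    have : (16 : ℝ) ^ m ≤ 16 ^ (8 * m) := pow_le_pow_right₀ (by norm_num) (by omega)
    have h16 : (0 : ℝ) < 16 ^ m := by positivity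
    gcongr
  have T6 : 6 * t / 16 ^ m ≤ 1 / 6 * (1 / 2) ^ m := by
    rw [i2, i16, div_le_iff₀ (by positivity)]
    have h7 : 1 / 6 * (1 / 2 ^ m) * (2 ^ m * (2 ^ m * 2 ^ m * 2 ^ m)) =
        1 / 6 * ((2 : ℝ) ^ m * 2 ^ m * 2 ^ m) := by
      field_simp
    rw [h7]
    have h8 : 36 * t ≤ 2 ^ m := by
      refine le_trans ?_ e2
      nlinarith
    have : (1 : ℝ) ≤ 2 ^ m * 2 ^ m := by nlinarith
    nlinarith
  have T4 : 2 * 2 ^ (22 * m) * (1 - (1 / (24 * t)) ^ J) ^ (4 ^ m / 4) ≤ 1 / 6 * (1 / 2) ^ m := by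
    set x : ℝ := (1 / (24 * t)) ^ J with hx
    set s : ℕ := 4 ^ m / 4 with hs
    have hx0 : 0 < x := by positivity
    have hx1 : x ≤ 1 := by
      rw [hx]
      apply pow_le_one₀ (by positivity)
      rw [div_le_one (by positivity)]
      linarith
    have hsr : (2 : ℝ) ^ m ≤ s := by
      have h1 : s = 4 ^ (m - 1) := by
        rw [hs]
        obtain ⟨m', rfl⟩ : ∃ m', m = m' + 1 := ⟨m - 1, by omega⟩
        rw [pow_succ, Nat.mul_div_cancel _ (by norm_num), Nat.add_sub_cancel]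
      have h2 : 2 ^ m ≤ 4 ^ (m - 1) := by
        have : (4 : ℕ) = 2 ^ 2 := by norm_num
        rw [this, ← pow_mul]
        exact Nat.pow_le_pow_right (by norm_num) (by omega)
      rw [h1]
      exact_mod_cast h2
    have hxs : 23 * (m : ℝ) + 12 ≤ x * s := by
      have hy : x * ((24 * D) ^ J * (m : ℝ) ^ (d * J)) ≥ 1 := by
        rw [hx, pow_mul, ← mul_pow, ← mul_pow]
        apply one_le_pow₀
        rw [one_div, inv_mul_eq_div, le_div_iff₀ (by positivity), one_mul]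
        nlinarith
      have h3 : (24 * D) ^ J * 35 * (m : ℝ) ^ (d * J + 1) ≤ s := by linarith
      rw [pow_succ] at h3
      have h4 : 35 * (m : ℝ) * ((24 * D) ^ J * (m : ℝ) ^ (d * J)) ≤ s := by nlinarith
      have h5 : x * (35 * (m : ℝ) * ((24 * D) ^ J * (m : ℝ) ^ (d * J))) ≤ x * s := by gcongr
      have h6 : 35 * (m : ℝ) * 1 ≤ 35 * (m : ℝ) * (x * ((24 * D) ^ J * (m : ℝ) ^ (d * J))) := by
        gcongr
      nlinarith
    have hexp : (1 - x) ^ s ≤ Real.exp (-(x * s)) := by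
      calc (1 - x) ^ s ≤ (Real.exp (-x)) ^ s := by
            apply pow_le_pow_left₀ (by linarith)
            have := Real.add_one_le_exp (-x)
            linarith
        _ = Real.exp (-(x * s)) := by rw [← Real.exp_nat_mul]; congr 1; ring
    calc 2 * 2 ^ (22 * m) * (1 - x) ^ s ≤ 2 * 2 ^ (22 * m) * Real.exp (-(x * s)) := by gcongr
      _ ≤ 1 / 6 * (1 / 2) ^ m := ASq_exp m hxs
  have hpos : (0 : ℝ) < (1 / 2) ^ m := by positivity
  linarith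

end Pool.Agent.H516R2.EQP3
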