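import Pool.Agent.H516R2.EQP3.Props

/-! Task BL: the list of the blocks with hidden answers. -/

set_option autoImplicit false

namespace Pool.Agent.H516R2.EQP3

/-- all strings of length `l` -/
def BL_strs : ℕ → List (List Bool)
  | 0 => [[]]
  | l + 1 => (BL_strs l).map (fun u => true :: u) ++ (BL_strs l).map (fun u => false :: u)

theorem BL_mem (l : ℕ) (u : List Bool) : u ∈ BL_strs l ↔ u.length = l := by
  induction l generalizing u with
  | zero => simp [BL_strs]
  | succ l ih =>
    rw [BL_strs, List.mem_append, List.mem_map, List.mem_map]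
    constructor
    · rintro (⟨v, hv, rfl⟩ | ⟨v, hv, rfl⟩)
      · rw [List.length_cons, (ih v).1 hv]
      · rw [List.length_cons, (ih v).1 hv]
    · intro h
      rcases u with _ | ⟨b, v⟩
      · simp at h
      · rw [List.length_cons] at h
        have hv : v ∈ BL_strs l := (ih v).2 (by omega)
        cases b with
        | true => exact Or.inl ⟨v, hv, rfl⟩
        | false => exact Or.inr ⟨v, hv, rfl⟩

theorem BL_nodup (l : ℕ) : (BL_strs l).Nodup := by
  induction l with
  | zero => simp [BL_strs]
  | succ l ih =>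
    rw [BL_strs, List.nodup_append]
    refine ⟨?_, ?_, ?_⟩
    · exact ih.map (fun a b h => by simpa using h)
    · exact ih.map (fun a b h => by simpa using h)
    · intro a ha b hb hab
      obtain ⟨v, _, rfl⟩ := List.mem_map.1 ha
      obtain ⟨w, _, rfl⟩ := List.mem_map.1 hb
      simp at hab

theorem BL_length (l : ℕ) : (BL_strs l).length = 2 ^ l := by
  induction l with
  | zero => simp [BL_strs]
  | succ l ih =>
    rw [BL_strs, List.length_append, List.length_map, List.length_map, ih, pow_succ]
    ring

theorem BL_aux (C : List Bool → Bool) (n N m : ℕ) (hm : n + 1 ≤ m) : ∃ us : List (List Bool),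
    us.Nodup ∧ us.Pairwise (fun u v => u.length ≤ v.length) ∧
    (∀ u, u ∈ us ↔ (n < u.length ∧ u.length < m ∧ blen u ≤ N ∧ C u = true)) ∧
    (us.map (fun u => (1 / 2 : ℝ) ^ mu u)).sum ≤ (1 / 2) ^ (n + 2) - (1 / 2) ^ (m + 1) := by
  induction m, hm using Nat.le_induction with
  | base =>
    refine ⟨[], List.nodup_nil, List.Pairwise.nil, ?_, ?_⟩
    · intro u
      constructor
      · intro h; simp at h
      · rintro ⟨h1, h2, _⟩; omega
    · simp
  | succ m hm ih =>
    obtain ⟨us, h1, h2, h3, h4⟩ := ih
    set ws : List (List Bool) :=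
      (BL_strs m).filter (fun u => decide (blen u ≤ N) && C u) with hws
    have hmw : ∀ u, u ∈ ws ↔ (u.length = m ∧ blen u ≤ N ∧ C u = true) := by
      intro u
      rw [hws, List.mem_filter, BL_mem]
      simp [Bool.and_eq_true]
    refine ⟨us ++ ws, ?_, ?_, ?_, ?_⟩
    · rw [List.nodup_append]
      refine ⟨h1, (BL_nodup m).filter _, ?_⟩
      intro a ha b hb hab
      have e1 := ((h3 a).1 ha).2.1
      have e2 := ((hmw b).1 hb).1
      rw [hab] at e1
      omega
    · rw [List.pairwise_append]
      refine ⟨h2, ?_, ?_⟩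
      · refine List.Pairwise.imp_of_mem (R := fun _ _ => True) ?_ (List.pairwise_of_forall (fun _ _ => trivial))
        intro a b ha hb _
        rw [((hmw a).1 ha).1, ((hmw b).1 hb).1]
      · intro a ha b hb
        have e1 := ((h3 a).1 ha).2.1
        have e2 := ((hmw b).1 hb).1
        omega
    · intro u
      rw [List.mem_append, h3, hmw]
      constructor
      · rintro (⟨a, b, c, d⟩ | ⟨a, b, c⟩)
        · exact ⟨a, by omega, c, d⟩
        · exact ⟨by omega, by omega, b, c⟩
      · rintro ⟨a, b, c, d⟩
        rcases Nat.lt_or_ge u.length m with h | h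
        · exact Or.inl ⟨a, h, c, d⟩
        · exact Or.inr ⟨by omega, c, d⟩
    · rw [List.map_append, List.sum_append]
      have hc : (ws.map (fun u => (1 / 2 : ℝ) ^ mu u)).sum ≤ (1 / 2) ^ (m + 2) := by
        have e1 : ws.map (fun u => (1 / 2 : ℝ) ^ mu u) =
            ws.map (fun _ => (1 / 2 : ℝ) ^ (2 * m + 2)) := by
          refine List.map_congr_left fun u hu => ?_
          rw [mu, ((hmw u).1 hu).1]
        rw [e1, List.map_const', List.sum_replicate, nsmul_eq_mul]
        have e2 : (ws.length : ℝ) ≤ 2 ^ m := by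
          have := List.length_filter_le (fun u => decide (blen u ≤ N) && C u) (BL_strs m)
          rw [BL_length] at this
          exact_mod_cast this
        calc (ws.length : ℝ) * (1 / 2) ^ (2 * m + 2) ≤ 2 ^ m * (1 / 2) ^ (2 * m + 2) :=
              mul_le_mul_of_nonneg_right e2 (by positivity)
          _ = (1 / 2) ^ (m + 2) := by
              rw [show 2 * m + 2 = m + (m + 2) by ring, pow_add, ← mul_assoc, ← mul_pow]
              norm_num
      have e3 : (1 / 2 : ℝ) ^ (m + 1) = (1 / 2) ^ (m + 2) + (1 / 2) ^ (m + 1 + 1) := by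
        rw [show m + 2 = m + 1 + 1 by ring, pow_succ (1 / 2 : ℝ) (m + 1)]
        ring
      linarith

theorem BL : St_BL := by
  intro C n N
  obtain ⟨us, h1, h2, h3, h4⟩ := BL_aux C n N (n + 1 + N + 1) (by omega)
  refine ⟨us, h1, h2, ?_, ?_⟩
  · intro u
    rw [h3]
    constructor
    · rintro ⟨a, _, c, d⟩; exact ⟨a, c, d⟩
    · rintro ⟨a, c, d⟩
      refine ⟨a, ?_, c, d⟩
      have : u.length ≤ blen u := by unfold blen; omega
      omega
  · refine h4.trans ?_
    have e1 : (1 / 2 : ℝ) ^ (n + 2) ≤ (1 / 2) ^ n :=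
      pow_le_pow_of_le_one (by norm_num) (by norm_num) (by omega)
    have e2 : (0 : ℝ) < (1 / 2) ^ (n + 1 + N + 1 + 1) := by positivity
    linarith

end Pool.Agent.H516R2.EQP3
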