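import Pool.Agent.H516R2.EQP3.Props
import Pool.Agent.H620R2.Gauge.T

/-!
# Task C1 (helper872): the coupling gives the uniform distribution on the slice
-/

set_option autoImplicit false

namespace Pool.Agent.H516R2.EQP3

open Pool.Agent.NPC Pool.Agent.H620R2.Gauge Finset H568R2 Pool.Agent.H676 Pool.Agent.H516R2.EQP
  Pool.Agent.H516R2.EQP2

section

variable {J : Type} [Fintype J] [DecidableEq J]

theorem C1_Ex_perm {A : Type*} [Fintype A] (w : A → ℝ) (F : (J → A) → ℝ) (σ : Equiv.Perm J) :
    Ex w (fun ρ => F (fun i => ρ (σ i))) = Ex w F := by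
  unfold Ex
  refine Fintype.sum_equiv (Equiv.arrowCongr σ.symm (Equiv.refl A)) _ _ fun ρ => ?_
  have e : (Equiv.arrowCongr σ.symm (Equiv.refl A)) ρ = fun i => ρ (σ i) := by
    funext i
    simp [Equiv.arrowCongr]
  rw [e]
  congr 1
  exact (Equiv.prod_comp σ (fun i => w (ρ i))).symm

theorem C1_SS_perm (o : J → Bool) (σ : Equiv.Perm J) : SS (fun i => o (σ i)) = SS o := by
  unfold SS
  exact Equiv.sum_comp σ (fun i => EQP.sz (o i))

theorem C1_SS_eq (o : J → Bool) :
    SS o = (Fintype.card J : ℤ) - 2 * ((univ.filter (fun i => o i = true)).card : ℤ) := by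
  unfold SS
  have h1 : ∀ i : J, EQP.sz (o i) = 1 - 2 * (if o i = true then (1 : ℤ) else 0) := by
    intro i
    unfold EQP.sz
    cases o i <;> simp
  rw [Finset.sum_congr rfl fun i _ => h1 i, Finset.sum_sub_distrib, ← Finset.mul_sum]
  simp

theorem C1_exists_perm (z z' : J → Bool) (h : SS z = SS z') :
    ∃ σ : Equiv.Perm J, z' = fun i => z (σ i) := by
  classical
  rw [C1_SS_eq, C1_SS_eq] at h
  have h1 : (univ.filter (fun i => z i = true)).card = (univ.filter (fun i => z' i = true)).card := by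
    omega
  have hc : ∀ (y : J → Bool), (univ.filter (fun i => y i = false)).card +
      (univ.filter (fun i => y i = true)).card = Fintype.card J := by
    intro w
    rw [add_comm]
    have h := Finset.card_filter_add_card_filter_not (s := (Finset.univ : Finset J))
      (fun i => w i = true)
    rw [Finset.card_univ] at h
    rw [← h]
    congr 2
    ext i
    simp
  have h2 := hc z
  have h3 := hc z'
  have hb : ∀ b : Bool, Fintype.card {i // z' i = b} = Fintype.card {i // z i = b} := by
    intro b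
    rw [Fintype.card_subtype, Fintype.card_subtype]
    cases b
    · omega
    · omega
  have e : ∀ b : Bool, {i // z' i = b} ≃ {i // z i = b} := fun b =>
    Fintype.equivOfCardEq (hb b)
  refine ⟨(Equiv.sigmaFiberEquiv z').symm.trans
    ((Equiv.sigmaCongrRight e).trans (Equiv.sigmaFiberEquiv z)), ?_⟩
  funext i
  have := (e (z' i) ⟨i, rfl⟩).2
  exact this.symm

theorem C1_TS_perm (s : ℤ) (ρ : Restr J) (w : J → Bool) (σ : Equiv.Perm J) :
    TS s (fun i => ρ (σ i)) (fun i => w (σ i)) = (TS s ρ w).map σ.symm.toEmbedding := by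
  have hov : ov (fun i => ρ (σ i)) (fun i => w (σ i)) = fun i => ov ρ w (σ i) := rfl
  ext i
  unfold TS fb
  rw [hov, C1_SS_perm, mem_filter, mem_map]
  constructor
  · rintro ⟨-, h1, h2⟩
    refine ⟨σ i, ?_, by simp⟩
    rw [mem_filter]
    exact ⟨mem_univ _, h1, h2⟩
  · rintro ⟨j, hj, hji⟩
    rw [mem_filter] at hj
    have : σ i = j := by
      rw [← hji]
      simp
    refine ⟨mem_univ _, ?_, ?_⟩
    · show ρ (σ i) = none
      rw [this]
      exact hj.2.1
    · show w (σ i) = _
      rw [this]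
      exact hj.2.2

theorem C1_fa_perm (s : ℤ) (φ : (J → Bool) → ℝ) (ρ : Restr J) (w : J → Bool) (σ : Equiv.Perm J) :
    fa s φ (fun i => ρ (σ i)) (fun i => w (σ i)) = fa s (fun z => φ (fun i => z (σ i))) ρ w := by
  have hov : ov (fun i => ρ (σ i)) (fun i => w (σ i)) = fun i => ov ρ w (σ i) := rfl
  unfold fa
  rw [C1_TS_perm, hov]
  have hDS : DS s (fun i => ov ρ w (σ i)) = DS s (ov ρ w) := by
    unfold DS
    rw [C1_SS_perm]
  rw [hDS, Finset.powersetCard_map, Finset.card_map, Finset.sum_map]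
  congr 1
  refine Finset.sum_congr rfl fun F _ => ?_
  congr 1
  funext i
  unfold fl
  have : (i ∈ (Finset.mapEmbedding σ.symm.toEmbedding).toEmbedding F) ↔ σ i ∈ F := by
    show i ∈ F.map σ.symm.toEmbedding ↔ σ i ∈ F
    rw [mem_map]
    constructor
    · rintro ⟨j, hj, hji⟩
      have : σ i = j := by
        rw [← hji]
        simp
      rw [this]
      exact hj
    · intro h
      exact ⟨σ i, h, by simp⟩
  by_cases h : σ i ∈ F
  · rw [if_pos h, if_pos (this.2 h)]
  · rw [if_neg h, if_neg (fun h' => h (this.1 h'))]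

theorem C1_Room_perm (s : ℤ) (d r : ℕ) (ρ : Restr J) (w : J → Bool) (σ : Equiv.Perm J) :
    Room s d r (fun i => ρ (σ i)) (fun i => w (σ i)) ↔ Room s d r ρ w := by
  have hov : ov (fun i => ρ (σ i)) (fun i => w (σ i)) = fun i => ov ρ w (σ i) := rfl
  unfold Room
  rw [C1_TS_perm, Finset.card_map, hov]
  have hDS : DS s (fun i => ov ρ w (σ i)) = DS s (ov ρ w) := by
    unfold DS
    rw [C1_SS_perm]
  rw [hDS]

theorem C1_SS_fl {s : ℤ} (hev : Even (s + Fintype.card J)) (ρ : Restr J) (w : J → Bool)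
    (F : Finset J) (hF : F ∈ (TS s ρ w).powersetCard (DS s (ov ρ w))) :
    SS (fl F (ov ρ w)) = s := by
  obtain ⟨hsub, hcard⟩ := Finset.mem_powersetCard.1 hF
  obtain ⟨o, ho⟩ : ∃ o, o = ov ρ w := ⟨_, rfl⟩
  rw [← ho] at hcard ⊢
  have hval : ∀ i ∈ F, o i = fb s o := by
    intro i hi
    have := hsub hi
    unfold TS at this
    rw [mem_filter] at this
    obtain ⟨-, h1, h2⟩ := this
    rw [ho]
    show ov ρ w i = fb s (ov ρ w)
    rw [← h2]
    show (ρ i).getD (w i) = w i
    rw [h1]
    rfl
  have hs : SS (fl F o) = SS o + (F.card : ℤ) * (if fb s o then 2 else -2) := by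
    unfold SS
    have h1 : ∀ i : J, EQP.sz (fl F o i) = EQP.sz (o i) + if i ∈ F then (if fb s o then (2 : ℤ) else -2) else 0 := by
      intro i
      unfold fl
      by_cases hi : i ∈ F
      · rw [if_pos hi, if_pos hi, hval i hi]
        unfold EQP.sz
        cases fb s o <;> simp
      · rw [if_neg hi, if_neg hi, add_zero]
    rw [Finset.sum_congr rfl fun i _ => h1 i, Finset.sum_add_distrib]
    congr 1
    rw [Finset.sum_ite_mem, Finset.univ_inter, Finset.sum_const, nsmul_eq_mul]
  have hpar : Even (SS o - s) := by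
    rw [C1_SS_eq]
    obtain ⟨k, hk⟩ := hev
    exact ⟨Fintype.card J - k - ((univ.filter (fun i => o i = true)).card : ℤ), by omega⟩
  obtain ⟨k, hk⟩ := hpar
  have hDS : (DS s o : ℤ) = |k| := by
    unfold DS
    have : |SS o - s| / 2 = |k| := by
      rw [hk, ← two_mul, abs_mul, abs_two]
      exact Int.mul_ediv_cancel_left _ two_ne_zero
    rw [this, Int.toNat_of_nonneg (abs_nonneg k)]
  rw [hs, hcard, hDS]
  unfold fb
  by_cases hlt : SS o < s
  · have hk0 : k < 0 := by omega
    rw [decide_eq_true hlt, abs_of_neg hk0]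
    simp only [if_true]
    omega
  · have hk0 : 0 ≤ k := by omega
    rw [decide_eq_false hlt, abs_of_nonneg hk0]
    simp only [Bool.false_eq_true, if_false]
    omega

/-- the functional -/
noncomputable def C1_L (Q : ℝ) (d r : ℕ) (s : ℤ) (φ : (J → Bool) → ℝ) : ℝ := by
  classical
  exact Ex (wq Q) (fun ρ : Restr J => Ex unif (fun w : J → Bool =>
    if Room s d r ρ w then fa s φ ρ w else 0))

theorem C1_L_perm (Q : ℝ) (d r : ℕ) (s : ℤ) (φ : (J → Bool) → ℝ) (σ : Equiv.Perm J) :
    C1_L Q d r s (fun z => φ (fun i => z (σ i))) = C1_L Q d r s φ := by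
  classical
  unfold C1_L
  have h1 := C1_Ex_perm (wq Q) (fun ρ : Restr J => Ex unif (fun w : J → Bool =>
    if Room s d r ρ w then fa s φ ρ w else 0)) σ
  rw [← h1]
  congr 1
  funext ρ
  have h2 := C1_Ex_perm unif (fun w : J → Bool =>
    if Room s d r (fun i => ρ (σ i)) w then fa s φ (fun i => ρ (σ i)) w else 0) σ
  rw [← h2]
  congr 1
  funext w
  rw [C1_fa_perm]
  by_cases h : Room s d r ρ w
  · rw [if_pos h, if_pos ((C1_Room_perm s d r ρ w σ).2 h)]
  · rw [if_neg h, if_neg (fun h' => h ((C1_Room_perm s d r ρ w σ).1 h'))]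

/-- indicator of a point -/
noncomputable def C1_d (z : J → Bool) : (J → Bool) → ℝ := fun y => if y = z then 1 else 0

theorem C1_fa_lin (s : ℤ) (φ : (J → Bool) → ℝ) (ρ : Restr J) (w : J → Bool) :
    fa s φ ρ w = ∑ z : J → Bool, φ z * fa s (C1_d z) ρ w := by
  unfold fa
  have h1 : ∀ z : J → Bool, φ z * ((∑ F ∈ (TS s ρ w).powersetCard (DS s (ov ρ w)),
      C1_d z (fl F (ov ρ w))) / (((TS s ρ w).powersetCard (DS s (ov ρ w))).card : ℝ)) =
      (∑ F ∈ (TS s ρ w).powersetCard (DS s (ov ρ w)), φ z * C1_d z (fl F (ov ρ w))) /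
        (((TS s ρ w).powersetCard (DS s (ov ρ w))).card : ℝ) := by
    intro z
    rw [← Finset.mul_sum, mul_div_assoc]
  rw [Finset.sum_congr rfl fun z _ => h1 z, ← Finset.sum_div, Finset.sum_comm]
  congr 1
  refine Finset.sum_congr rfl fun F _ => ?_
  unfold C1_d
  simp

theorem C1_L_lin (Q : ℝ) (d r : ℕ) (s : ℤ) (φ : (J → Bool) → ℝ) :
    C1_L Q d r s φ = ∑ z : J → Bool, φ z * C1_L Q d r s (C1_d z) := by
  classical
  unfold C1_L
  have h1 : ∀ (ρ : Restr J) (w : J → Bool), (if Room s d r ρ w then fa s φ ρ w else 0) =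
      ∑ z : J → Bool, φ z * (if Room s d r ρ w then fa s (C1_d z) ρ w else 0) := by
    intro ρ w
    by_cases h : Room s d r ρ w
    · simp only [if_pos h]
      exact C1_fa_lin s φ ρ w
    · simp [if_neg h]
  simp only [h1, Ex_sum, Ex_smul]

theorem C1_L_zero (Q : ℝ) (d r : ℕ) (s : ℤ) (hev : Even (s + Fintype.card J)) (z : J → Bool)
    (hz : SS z ≠ s) : C1_L Q d r s (C1_d z) = 0 := by
  classical
  unfold C1_L
  have h1 : ∀ (ρ : Restr J) (w : J → Bool),
      (if Room s d r ρ w then fa s (C1_d z) ρ w else 0) = 0 := by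
    intro ρ w
    split_ifs
    · unfold fa
      rw [Finset.sum_eq_zero, zero_div]
      intro F hF
      unfold C1_d
      rw [if_neg]
      intro h
      apply hz
      rw [← h]
      exact C1_SS_fl hev ρ w F hF
    · rfl
  simp only [h1]
  unfold Ex
  simp

theorem C1_L_one (Q : ℝ) (d r : ℕ) (s : ℤ) (hdr : d ≤ r) :
    C1_L (J := J) Q d r s (fun _ => 1) = by
      classical
      exact Ex (wq Q) (fun ρ : Restr J => Ex unif (fun w : J → Bool =>
        if Room s d r ρ w then (1 : ℝ) else 0)) := by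
  classical
  unfold C1_L
  congr 1
  funext ρ
  congr 1
  funext w
  by_cases h : Room s d r ρ w
  · rw [if_pos h, if_pos h]
    unfold fa
    rw [Finset.sum_const, nsmul_eq_mul, mul_one, div_self]
    have : (TS s ρ w).powersetCard (DS s (ov ρ w)) |>.Nonempty := by
      rw [Finset.powersetCard_nonempty]
      exact h.1.trans (hdr.trans h.2)
    exact_mod_cast this.card_pos.ne'
  · rw [if_neg h, if_neg h]

end

theorem C1 : St_C1 := by
  classical
  intro J _ _ Q d r s φ hQ0 hQ1 hdr hev
  have e1 : Ex (wq Q) (fun ρ : Restr J => Ex unif (fun w : J → Bool =>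
      if Room s d r ρ w then fa s φ ρ w else 0)) = C1_L Q d r s φ := by
    unfold C1_L
    rfl
  have e2 : Ex (wq Q) (fun ρ : Restr J => Ex unif (fun w : J → Bool =>
      if Room s d r ρ w then (1 : ℝ) else 0)) = C1_L (J := J) Q d r s (fun _ => 1) := by
    rw [C1_L_one Q d r s hdr]
  rw [e1, e2]
  -- the slice
  by_cases hne : ∃ z0 : J → Bool, SS z0 = s
  · obtain ⟨z0, hz0⟩ := hne
    obtain ⟨c, hc⟩ : ∃ c, c = C1_L Q d r s (C1_d z0) := ⟨_, rfl⟩
    have hconst : ∀ z : J → Bool, C1_L Q d r s (C1_d z) = if SS z = s then c else 0 := by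
      intro z
      by_cases hz : SS z = s
      · rw [if_pos hz, hc]
        obtain ⟨σ, hσ⟩ := C1_exists_perm z z0 (by rw [hz, hz0])
        rw [← C1_L_perm Q d r s (C1_d z0) σ]
        congr 1
        funext y
        unfold C1_d
        have : y = z ↔ (fun i => y (σ i)) = z0 := by
          constructor
          · intro h
            rw [h, hσ]
          · intro h
            rw [hσ] at h
            funext i
            have := congrFun h (σ.symm i)
            simpa using this
        by_cases hy : y = z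
        · rw [if_pos hy, if_pos (this.1 hy)]
        · rw [if_neg hy, if_neg (fun h => hy (this.2 h))]
      · rw [if_neg hz]
        exact C1_L_zero Q d r s hev z hz
    have hφ : ∀ ψ : (J → Bool) → ℝ, C1_L Q d r s ψ = c * ∑ z : J → Bool, if SS z = s then ψ z else 0 := by
      intro ψ
      rw [C1_L_lin, Finset.mul_sum]
      refine Finset.sum_congr rfl fun z _ => ?_
      rw [hconst]
      split_ifs <;> ring
    rw [hφ φ, hφ (fun _ => 1)]
    unfold sl
    have hcard : (∑ z : J → Bool, if SS z = s then (1 : ℝ) else 0) =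
        ((univ.filter (fun z : J → Bool => SS z = s)).card : ℝ) := by
      rw [Finset.sum_boole]
    rw [hcard]
    have hpos : ((univ.filter (fun z : J → Bool => SS z = s)).card : ℝ) ≠ 0 := by
      have : (univ.filter (fun z : J → Bool => SS z = s)).Nonempty :=
        ⟨z0, by rw [mem_filter]; exact ⟨mem_univ _, hz0⟩⟩
      exact_mod_cast this.card_pos.ne'
    field_simp
  · push Not at hne
    have h0 : C1_L Q d r s φ = 0 := by
      rw [C1_L_lin]
      refine Finset.sum_eq_zero fun z _ => ?_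
      rw [C1_L_zero Q d r s hev z (hne z), mul_zero]
    have h1 : sl s φ = 0 := by
      unfold sl
      rw [Finset.sum_eq_zero fun z _ => if_neg (hne z), zero_div]
    rw [h0, h1, zero_mul]

end Pool.Agent.H516R2.EQP3
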