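import Pool.Agent.H516R2.EQP3.Props

set_option autoImplicit false

namespace Pool.Agent.H516R2.EQP3

open Pool.Agent.NPC Pool.Agent.H620R2.Gauge Finset H568R2 Pool.Agent.H676 Pool.Agent.H516R2.EQP
  Pool.Agent.H516R2.EQP2

lemma C2_count {J : Type} [DecidableEq J] (T A : Finset J) (D : ℕ) (hT : 1 ≤ T.card) :
    ((((T.powersetCard D).filter (fun F => ¬ Disjoint F A)).card : ℝ)) * (T.card : ℝ) ≤
      (A.card : ℝ) * D * ((T.powersetCard D).card : ℝ) := by
  have h1 : (T.powersetCard D).filter (fun F => ¬ Disjoint F A) ⊆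
      A.biUnion (fun a => (T.powersetCard D).filter (fun F => a ∈ F)) := by
    intro F hF
    rw [Finset.mem_filter] at hF
    obtain ⟨hF1, hF2⟩ := hF
    rw [Finset.not_disjoint_iff] at hF2
    obtain ⟨a, ha1, ha2⟩ := hF2
    rw [Finset.mem_biUnion]
    exact ⟨a, ha2, Finset.mem_filter.mpr ⟨hF1, ha1⟩⟩
  have h2 : ∀ a ∈ A, ((T.powersetCard D).filter (fun F => a ∈ F)).card * T.card ≤
      D * (T.powersetCard D).card := by
    intro a _
    rcases Nat.eq_zero_or_pos D with hD | hD
    · subst hD
      have : (T.powersetCard 0).filter (fun F => a ∈ F) = ∅ := by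
        rw [Finset.powersetCard_zero, Finset.filter_singleton]
        simp
      rw [this]; simp
    · by_cases haT : a ∈ T
      · have h3 : ((T.powersetCard D).filter (fun F => a ∈ F)).card ≤
            ((T.erase a).powersetCard (D - 1)).card := by
          apply Finset.card_le_card_of_injOn (fun F => F.erase a)
          · intro F hF
            rw [Finset.mem_coe, Finset.mem_filter, Finset.mem_powersetCard] at hF
            obtain ⟨⟨h4, h5⟩, h6⟩ := hF
            rw [Finset.mem_coe, Finset.mem_powersetCard]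
            exact ⟨Finset.erase_subset_erase a h4, by rw [Finset.card_erase_of_mem h6, h5]⟩
          · intro F hF G hG hFG
            rw [Finset.mem_coe, Finset.mem_filter] at hF hG
            have hFG' : F.erase a = G.erase a := hFG
            rw [← Finset.insert_erase hF.2, ← Finset.insert_erase hG.2, hFG']
        rw [Finset.card_powersetCard, Finset.card_erase_of_mem haT] at h3
        rw [Finset.card_powersetCard]
        obtain ⟨n, hn⟩ : ∃ n, T.card = n + 1 := ⟨T.card - 1, by omega⟩
        obtain ⟨k, hk⟩ : ∃ k, D = k + 1 := ⟨D - 1, by omega⟩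
        rw [hn, hk] at h3 ⊢
        simp only [Nat.add_sub_cancel] at h3
        have h4 : (n + 1) * n.choose k = (n + 1).choose (k + 1) * (k + 1) :=
          Nat.add_one_mul_choose_eq n k
        calc _ ≤ n.choose k * (n + 1) := Nat.mul_le_mul_right _ h3
          _ = (k + 1) * (n + 1).choose (k + 1) := by rw [mul_comm, h4, mul_comm]
      · have : (T.powersetCard D).filter (fun F => a ∈ F) = ∅ := by
          rw [Finset.filter_eq_empty_iff]
          intro F hF ha
          exact haT ((Finset.mem_powersetCard.mp hF).1 ha)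
        rw [this]; simp
  have h5 : ((T.powersetCard D).filter (fun F => ¬ Disjoint F A)).card * T.card ≤
      A.card * (D * (T.powersetCard D).card) := by
    calc _ ≤ (A.biUnion (fun a => (T.powersetCard D).filter (fun F => a ∈ F))).card * T.card :=
          Nat.mul_le_mul_right _ (Finset.card_le_card h1)
      _ ≤ (∑ a ∈ A, ((T.powersetCard D).filter (fun F => a ∈ F)).card) * T.card :=
          Nat.mul_le_mul_right _ Finset.card_biUnion_le
      _ = ∑ a ∈ A, ((T.powersetCard D).filter (fun F => a ∈ F)).card * T.card := by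
          rw [Finset.sum_mul]
      _ ≤ ∑ a ∈ A, D * (T.powersetCard D).card := Finset.sum_le_sum h2
      _ = A.card * (D * (T.powersetCard D).card) := by rw [Finset.sum_const, smul_eq_mul]
  have h6 : ((((T.powersetCard D).filter (fun F => ¬ Disjoint F A)).card : ℝ)) * (T.card : ℝ) ≤
      (A.card : ℝ) * ((D : ℝ) * ((T.powersetCard D).card : ℝ)) := by exact_mod_cast h5
  calc _ ≤ _ := h6
    _ = _ := by ring

lemma C2_fl {J : Type} [Fintype J] [DecidableEq J] (s : ℤ) (ρ : Restr J) (w : J → Bool)
    (F : Finset J) (hF : F ⊆ TS s ρ w) : fl F (ov ρ w) = ov ρ (fl F w) := by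
  funext i
  by_cases hi : i ∈ F
  · have h1 := hF hi
    unfold TS at h1
    rw [Finset.mem_filter] at h1
    simp only [fl, ov, hi, if_true, h1.2.1, Option.getD_none]
  · simp only [fl, ov, hi, if_false]

theorem C2 : St_C2 := by
  intro J _ _ t d r s h ρ w hdr hr hD hR
  obtain ⟨hR1, hR2⟩ := hR
  have hrpos : (0 : ℝ) < r := by exact_mod_cast hr
  have hbr : ∀ x, 0 ≤ br h x ∧ br h x ≤ 1 := by
    intro x; unfold br; split_ifs <;> norm_num
  have htd : (0 : ℝ) ≤ (t : ℝ) * d / r := by positivity
  unfold fa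
  set P := (TS s ρ w).powersetCard (DS s (ov ρ w)) with hP
  cases ho : h (ov ρ w) with
  | true =>
    have h1 : br h (ov ρ w) = 1 := by unfold br; rw [ho]; simp
    rw [h1]
    have h2 : (∑ F ∈ P, br h (fl F (ov ρ w))) / (P.card : ℝ) ≤ 1 := by
      apply div_le_one_of_le₀ _ (Nat.cast_nonneg _)
      calc _ ≤ ∑ F ∈ P, (1 : ℝ) := Finset.sum_le_sum (fun F _ => (hbr _).2)
        _ = _ := by simp
    linarith
  | false =>
    have h1 : br h (ov ρ w) = 0 := by unfold br; rw [ho]; simp
    rw [h1, zero_add]
    obtain ⟨A, hA, hy⟩ := DTr.cert hD false w ho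
    have hT1 : 1 ≤ (TS s ρ w).card := hr.trans hR2
    have hTpos : (0 : ℝ) < (TS s ρ w).card := by exact_mod_cast hT1
    have h3 : (∑ F ∈ P, br h (fl F (ov ρ w))) ≤
        ((P.filter (fun F => ¬ Disjoint F A)).card : ℝ) := by
      rw [Finset.card_filter]
      push_cast
      apply Finset.sum_le_sum
      intro F hF
      by_cases hFA : Disjoint F A
      · have h4 : h (fl F (ov ρ w)) = false := by
          rw [C2_fl s ρ w F (Finset.mem_powersetCard.mp hF).1]
          refine hy (fl F w) (fun i hi => ?_)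
          have : i ∉ F := fun hiF => (Finset.disjoint_left.mp hFA hiF) hi
          simp only [fl, this, if_false]
        unfold br
        rw [h4]
        simp [hFA]
      · simp only [hFA, not_false_eq_true, if_true]
        exact (hbr _).2
    have h5 := C2_count (TS s ρ w) A (DS s (ov ρ w)) hT1
    rw [← hP] at h5
    have hAt : (A.card : ℝ) ≤ t := by exact_mod_cast hA
    have hDd : ((DS s (ov ρ w) : ℕ) : ℝ) ≤ d := by exact_mod_cast hR1
    have hrT : (r : ℝ) ≤ (TS s ρ w).card := by exact_mod_cast hR2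
    have hPne : (0 : ℝ) < (P.card : ℝ) := by
      have : 0 < P.card := by
        rw [hP, Finset.card_powersetCard]
        exact Nat.choose_pos (by omega)
      exact_mod_cast this
    rw [div_le_div_iff₀ hPne hrpos]
    have h6 : (A.card : ℝ) * (DS s (ov ρ w) : ℕ) ≤ (t : ℝ) * d := by
      apply mul_le_mul hAt hDd (Nat.cast_nonneg _) (Nat.cast_nonneg _)
    calc (∑ F ∈ P, br h (fl F (ov ρ w))) * (r : ℝ)
        ≤ ((P.filter (fun F => ¬ Disjoint F A)).card : ℝ) * ((TS s ρ w).card : ℝ) := by
          apply mul_le_mul h3 hrT (le_of_lt hrpos) (Nat.cast_nonneg _)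
      _ ≤ (A.card : ℝ) * (DS s (ov ρ w) : ℕ) * (P.card : ℝ) := h5
      _ ≤ (t : ℝ) * d * (P.card : ℝ) := mul_le_mul_of_nonneg_right h6 (le_of_lt hPne)

end Pool.Agent.H516R2.EQP3
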