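import Pool.Agent.H516R2.EQP3.Props

/-!
# CL: completion
-/

set_option autoImplicit false

namespace Pool.Agent.H516R2.EQP3

open Pool.Agent.NPC Pool.Agent.H620R2.Gauge Finset H568R2 Pool.Agent.H676 Pool.Agent.H516R2.EQP
  Pool.Agent.H516R2.EQP2

open Classical in
/-- the oracles of the recursion -/
noncomputable def CL_seq (inst : (u : List Bool) → Bool → (Cube (kap u) → Bool))
    (Φ : Oracle → Oracle) (hid : List Bool → Oracle → Bool) (B : Oracle) (N : ℕ) : ℕ → Oracle
  | 0 => B
  | l + 1 => fun z => if h : ∃ u : List Bool, u.length = l ∧ N < blen u ∧ InB u z then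
      put h.choose (inst h.choose (hid h.choose (Φ (CL_seq inst Φ hid B N l)))) B z
      else CL_seq inst Φ hid B N l z

theorem CL_blen (u : List Bool) : u.length < blen u := by
  unfold blen kap mu
  omega

theorem CL (hp : St_PU) (he : St_EX) : St_CL := by
  obtain ⟨hp1, hp2, -, -, hp5, hp6, -⟩ := hp
  have hinst : ∀ (u : List Bool) (b : Bool), ∃ a : Cube (kap u) → Bool, Inst b a := by
    intro u b
    refine he (kap u) ?_ b
    unfold kap mu
    omega
  choose inst hinst using hinst
  intro Φ hid C hΦ hhid B N hB
  obtain ⟨S, hS⟩ : ∃ S, S = CL_seq inst Φ hid B N := ⟨_, rfl⟩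
  have S0 : S 0 = B := by rw [hS]; rfl
  have Spos : ∀ (u z : List Bool), N < blen u → InB u z →
      S (u.length + 1) z = put u (inst u (hid u (Φ (S u.length)))) B z := by
    intro u z hN hz
    rw [hS]
    simp only [CL_seq]
    have h : ∃ v : List Bool, v.length = u.length ∧ N < blen v ∧ InB v z := ⟨u, rfl, hN, hz⟩
    rw [dif_pos h]
    have h1 : h.choose = u := hp1 _ _ z h.choose_spec.2.2 hz
    rw [h1]
  have Sneg : ∀ (l : ℕ) (z : List Bool), (¬ ∃ u : List Bool, u.length = l ∧ N < blen u ∧ InB u z) →
      S (l + 1) z = S l z := by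
    intro l z h
    rw [hS]
    simp only [CL_seq]
    rw [dif_neg h]
  -- stability
  have stab : ∀ (z : List Bool) (k : ℕ), z.length ≤ k → S k z = S z.length z := by
    intro z k hk
    induction k, hk using Nat.le_induction with
    | base => rfl
    | succ k hk ih =>
      rw [Sneg, ih]
      rintro ⟨u, hu, -, hz⟩
      have h1 := CL_blen u
      have h2 := hz.2
      omega
  obtain ⟨B', hB'⟩ : ∃ B' : Oracle, B' = fun z => S z.length z := ⟨_, rfl⟩
  have hb : ∀ (l : ℕ) (z : List Bool), z.length ≤ l → B' z = S l z := by
    intro l z hz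
    rw [hB', stab z l hz]
  have hc : ∀ (u z : List Bool), N < blen u → InB u z →
      B' z = put u (inst u (hid u (Φ (S u.length)))) B z := by
    intro u z hN hz
    have h1 := CL_blen u
    have h2 := hz.2
    have h3 : ∀ k, u.length + 1 ≤ k → S k z = S (u.length + 1) z := by
      intro k hk
      induction k, hk using Nat.le_induction with
      | base => rfl
      | succ k hk ih =>
        rw [Sneg, ih]
        rintro ⟨v, hv, -, hvz⟩
        have := hp1 _ _ z hvz hz
        subst this
        omega
    rw [hb z.length z le_rfl, h3 _ (by omega), Spos u z hN hz]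
  have hd : ∀ z : List Bool, (∀ u, N < blen u → ¬ InB u z) → B' z = B z := by
    intro z hz
    have h1 : ∀ k, S k z = B z := by
      intro k
      induction k with
      | zero => rw [S0]
      | succ k ih =>
        rw [Sneg, ih]
        rintro ⟨u, -, hu, hz'⟩
        exact hz u hu hz'
    rw [hb z.length z le_rfl, h1]
  have hshort : ∀ z : List Bool, z.length ≤ N → B' z = B z := by
    intro z hz
    refine hd z fun u hu hzu => ?_
    have := hzu.2
    omega
  refine ⟨B', ?_, ?_⟩
  · rintro z (hz | hz)
    · exact hshort z hz
    · exact hd z fun u _ => hz u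
  · intro u
    rcases Nat.lt_or_ge N (blen u) with hN | hN
    · obtain ⟨b, hbdef⟩ : ∃ b, b = hid u (Φ (S u.length)) := ⟨_, rfl⟩
      have h1 : al u B' = al u (put u (inst u b) B) := by
        refine hp5 u _ _ fun z hz => ?_
        rw [hc u z hN hz, hbdef]
      have h2 : hid u (Φ B') = b := by
        rw [hbdef]
        refine hhid u _ _ fun z hz => ?_
        refine hΦ _ _ z fun z' hz' => ?_
        exact hb u.length z' (hz'.trans hz)
      have h3 := hinst u b
      unfold Cond
      rw [h1, h2]
      cases b
      · have h4 : al u (put u (inst u false) B) = 0 := by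
          refine (hp6 u (inst u false) B).2 ?_
          simpa [Inst] using h3
        rw [h4]
        refine ⟨Or.inl rfl, fun _ => ?_⟩
        constructor
        · intro h; norm_num at h
        · intro h; exact absurd h (by decide)
      · have h4 : al u (put u (inst u true) B) = 1 / 2 := by
          refine (hp6 u (inst u true) B).1 ?_
          simpa [Inst] using h3
        rw [h4]
        exact ⟨Or.inr rfl, fun _ => ⟨fun _ => rfl, fun _ => rfl⟩⟩
    · have h1 : al u B' = al u B := by
        refine hp5 u _ _ fun z hz => hshort z ?_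
        rw [hz.2]
        exact hN
      have h2 : hid u (Φ B') = hid u (Φ B) := by
        refine hhid u _ _ fun z hz => ?_
        refine hΦ _ _ z fun z' hz' => hshort z' ?_
        have := CL_blen u
        omega
      have h3 := hB u hN
      unfold Cond at h3 ⊢
      rw [h1, h2]
      exact h3

end Pool.Agent.H516R2.EQP3
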