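import Pool.Agent.H516R2.EQP3.Props
import Pool.Agent.H516R2.EQP.CM

/-!
# Combination with a small error
-/

set_option autoImplicit false

namespace Pool.Agent.H516R2.EQP3

open Pool.Agent.NPC Pool.Agent.H620R2.Gauge Finset H568R2 Pool.Agent.H676 Pool.Agent.H516R2.EQP
  Pool.Agent.H516R2.EQP2

/-- the final numerical estimate -/
lemma CMq_num (x ε ℓ A E : ℝ) (hx0 : 0 < x) (hx : x ≤ 1 / 64) (hε0 : 0 ≤ ε) (hε1 : ε ≤ 1)
    (hℓ : 0 ≤ ℓ) (hE : (1 - ε) * (1 - 2 * x ^ 2) * (1 - 7 * x) ≤ E)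
    (hA : E - A ≤ 4 * ℓ * x ^ 2 + 700 * x ^ 14) : 1 - ε - (10 + 5 * ℓ) * x ≤ A := by
  have h1 : 1 - ε - 7 * x - 2 * x ^ 2 ≤ (1 - ε) * (1 - 2 * x ^ 2) * (1 - 7 * x) := by
    have e : (1 - ε) * (1 - 2 * x ^ 2) * (1 - 7 * x) - (1 - ε - 7 * x - 2 * x ^ 2) =
        ε * (7 * x + 2 * x ^ 2) + (1 - ε) * (14 * x ^ 3) := by ring
    have e1 : 0 ≤ ε * (7 * x + 2 * x ^ 2) := by positivity
    have e2 : 0 ≤ (1 - ε) * (14 * x ^ 3) := mul_nonneg (sub_nonneg.mpr hε1) (by positivity)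
    linarith
  have h2 : x ^ 2 ≤ 1 / 64 * x := by
    rw [sq]
    exact mul_le_mul_of_nonneg_right hx hx0.le
  have h3 : x ^ 14 ≤ (1 / 64) ^ 13 * x := by
    have : x ^ 13 ≤ (1 / 64) ^ 13 := pow_le_pow_left₀ hx0.le hx 13
    calc x ^ 14 = x ^ 13 * x := by ring
      _ ≤ (1 / 64) ^ 13 * x := mul_le_mul_of_nonneg_right this hx0.le
  have h4 : 4 * ℓ * x ^ 2 ≤ 5 * ℓ * x := by
    have : ℓ * x ^ 2 ≤ ℓ * (1 / 64 * x) := mul_le_mul_of_nonneg_left h2 hℓ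
    have h0 : 0 ≤ ℓ * x := by positivity
    linarith
  have h5 : 700 * x ^ 14 ≤ x := by
    have : (700 : ℝ) * ((1 / 64) ^ 13 * x) ≤ x := by
      have : (700 : ℝ) * (1 / 64) ^ 13 ≤ 1 := by norm_num
      calc (700 : ℝ) * ((1 / 64) ^ 13 * x) = (700 * (1 / 64) ^ 13) * x := by ring
        _ ≤ 1 * x := mul_le_mul_of_nonneg_right this hx0.le
        _ = x := one_mul x
    linarith
  linarith

theorem CMq (h4 : St_M4) (h5 : St_P5q) (hr : St_R1q) (h3 : St_P3) : St_CMq := by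
  intro m g ℓ ε hm hg hℓ hL hε0 hε1 hgood
  have hP := h5 m hm
  have hR := fun P hPb => hr (8 * m) P (4 ^ m) hPb (by positivity)
  have hTQ : (TQ m : ℝ) = 16 ^ m * 65536 ^ (8 * m) := by
    unfold TQ
    push_cast
    rfl
  have hκ1 : 8 * m ≠ 0 := by omega
  have h2κ' : (2 : ℝ) ^ (8 * m) = 256 ^ m := by
    rw [pow_mul]
    norm_num
  have h16κ' : (16 : ℝ) ^ (8 * m) = 16 ^ (7 * m) * 16 ^ m := by
    rw [← pow_add]
    congr 1
    ring
  generalize hκdef : 8 * m = κ at *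
  have hη0 : 0 ≤ et κ := by unfold et; positivity
  have hηpos : 0 < et κ := by unfold et; positivity
  have h256 : et κ * 256 ^ κ = 1 := by
    unfold et
    field_simp
  have h32 : (4 : ℝ) * 8 ^ κ ≤ 256 ^ κ := by
    have : (256 : ℝ) ^ κ = 32 ^ κ * 8 ^ κ := by rw [← mul_pow]; norm_num
    rw [this]
    apply mul_le_mul_of_nonneg_right _ (by positivity)
    calc (4 : ℝ) ≤ 32 := by norm_num
      _ ≤ 32 ^ κ := le_self_pow₀ (by norm_num) hκ1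
  have h128 : (3 : ℝ) * 2 ^ κ ≤ 256 ^ κ := by
    have : (256 : ℝ) ^ κ = 128 ^ κ * 2 ^ κ := by rw [← mul_pow]; norm_num
    rw [this]
    apply mul_le_mul_of_nonneg_right _ (by positivity)
    calc (3 : ℝ) ≤ 128 := by norm_num
      _ ≤ 128 ^ κ := le_self_pow₀ (by norm_num) hκ1
  have hc1 : 4 * et κ * 8 ^ κ ≤ 1 := by
    calc 4 * et κ * 8 ^ κ = et κ * (4 * 8 ^ κ) := by ring
      _ ≤ et κ * 256 ^ κ := mul_le_mul_of_nonneg_left h32 hη0
      _ = 1 := h256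
  have hc2 : 3 * et κ * 2 ^ κ ≤ 1 := by
    calc 3 * et κ * 2 ^ κ = et κ * (3 * 2 ^ κ) := by ring
      _ ≤ et κ * 256 ^ κ := mul_le_mul_of_nonneg_left h128 hη0
      _ = 1 := h256
  have hc3 : 2 * et κ * 2 ^ κ ≤ 1 := by
    have : 0 ≤ et κ * 2 ^ κ := by positivity
    linarith
  have hbox0 : Box (fun _ : U κ ⊕ U κ => (0 : ℝ)) := fun i => by
    show |(0 : ℝ)| ≤ 1
    rw [abs_zero]
    exact zero_le_one
  have hM := h4 κ g ℓ (et κ) (fun _ => 0) (TQ m)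
    (fun a => abs_le.mpr ⟨by linarith [(hg a).1], (hg a).2⟩) hL hℓ hη0 hc1 hbox0
  rw [CM_ml_zero] at hM
  -- the pointwise comparison
  have hcmp : ∀ P : U κ ⊕ U κ → ℝ, Box P → (1 - ε) * (1 - 2 / (4 ^ m) ^ 2) *
      (if 2 / 5 ≤ Sf P ∧ Sf P ≤ 2 / 5 + 3 * et κ then (1 : ℝ) else 0) ≤ ml g P := by
    intro P hPb
    split_ifs with h
    · rw [mul_one]
      have h98 := mul_le_mul_of_nonneg_left (hR P hPb) (sub_nonneg.mpr hε1)
      rw [← CM_ml_smul] at h98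
      refine h98.trans (CM_ml_mono _ _ P hPb fun a => ?_)
      split_ifs with ha
      · rw [mul_one]
        apply hgood a
        have e1 : |Sf P - 2 / 5| ≤ 1 / 2 ^ κ := by
          rw [abs_le, le_div_iff₀ (by positivity)]
          have h2κ : (0 : ℝ) < 2 ^ κ := by positivity
          constructor
          · have h6 : (0 : ℝ) ≤ Sf P - 2 / 5 := by linarith [h.1]
            have h7 : -(1 / (2 : ℝ) ^ κ) ≤ 0 := by
              have : (0 : ℝ) < 1 / 2 ^ κ := by positivity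
              linarith
            linarith
          · have h6 : Sf P - 2 / 5 ≤ 3 * et κ := by linarith [h.2]
            calc (Sf P - 2 / 5) * 2 ^ κ ≤ 3 * et κ * 2 ^ κ :=
                  mul_le_mul_of_nonneg_right h6 h2κ.le
              _ ≤ 1 := hc2
        have e2 := abs_add_le ((FF a : ℝ) / 8 ^ κ - Sf P) (Sf P - 2 / 5)
        rw [sub_add_sub_cancel] at e2
        calc |(FF a : ℝ) / 8 ^ κ - 2 / 5| ≤ 4 ^ m / 2 ^ κ + 1 / 2 ^ κ := e2.trans (add_le_add ha e1)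
          _ = (4 ^ m + 1) / 2 ^ κ := by ring
      · rw [mul_zero]
        exact (hg a).1
    · rw [mul_zero]
      have h9 := CM_ml_mono (fun _ => 0) g P hPb (fun a => (hg a).1)
      have h10 : ml (fun _ : U κ ⊕ U κ → Bool => (0 : ℝ)) P = 0 := by
        unfold ml
        simp
      rw [h10] at h9
      exact h9
  have hES := CM_ES_mono h3 hη0 hc3 _ _ hcmp (TQ m) (fun _ => 0) hbox0
  rw [CM_ES_smul] at hES
  have h64 : (64 : ℝ) ≤ 4 ^ m := by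
    calc (64 : ℝ) = 4 ^ 3 := by norm_num
      _ ≤ 4 ^ m := pow_le_pow_right₀ (by norm_num) hm
  have hx0 : (0 : ℝ) < 1 / 4 ^ m := by positivity
  have hx : (1 : ℝ) / 4 ^ m ≤ 1 / 64 := one_div_le_one_div_of_le (by norm_num) h64
  have hmain : (1 - ε) * (1 - 2 * (1 / (4 : ℝ) ^ m) ^ 2) * (1 - 7 * (1 / (4 : ℝ) ^ m)) ≤
      ES (et κ) (ml g) (TQ m) (fun _ => 0) := by
    refine le_trans ?_ hES
    have e1 : (1 : ℝ) - 2 / (4 ^ m) ^ 2 = 1 - 2 * (1 / (4 : ℝ) ^ m) ^ 2 := by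
      rw [div_pow, one_pow]
      ring
    rw [e1]
    refine mul_le_mul_of_nonneg_left ?_ ?_
    · have e2 : (1 : ℝ) - 7 * (1 / (4 : ℝ) ^ m) = 1 - 7 / 4 ^ m := by ring
      rw [e2]
      convert hP using 3
    · have h8 : 0 ≤ 1 - ε := sub_nonneg.mpr hε1
      have h9 : (1 / (4 : ℝ) ^ m) ^ 2 ≤ (1 / 64) ^ 2 := pow_le_pow_left₀ hx0.le hx 2
      have h10 : 0 ≤ 1 - 2 * (1 / (4 : ℝ) ^ m) ^ 2 := by
        norm_num at h9 ⊢
        linarith
      exact mul_nonneg h8 h10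
  -- the error
  have hT : (TQ m : ℝ) * (et κ) ^ 2 = 16 ^ m := by
    rw [hTQ]
    have h1 : (65536 : ℝ) ^ κ * et κ ^ 2 = 1 := by
      have : (65536 : ℝ) ^ κ = (256 ^ κ) ^ 2 := by
        rw [← pow_mul, mul_comm κ 2, pow_mul]
        norm_num
      rw [this, ← mul_pow, mul_comm, h256, one_pow]
    rw [mul_assoc, h1, mul_one]
  have h16 : (4096 : ℝ) ^ κ * et κ ^ 2 = 1 / 16 ^ κ := by
    rw [eq_div_iff (by positivity)]
    have h1 : (4096 : ℝ) ^ κ * 16 ^ κ = (256 ^ κ) ^ 2 := by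
      rw [← mul_pow, ← pow_mul, mul_comm κ 2, pow_mul]
      norm_num
    calc (4096 : ℝ) ^ κ * et κ ^ 2 * 16 ^ κ = (4096 ^ κ * 16 ^ κ) * et κ ^ 2 := by ring
      _ = (et κ * 256 ^ κ) ^ 2 := by rw [h1]; ring
      _ = 1 := by rw [h256, one_pow]
  have hsq : (16 : ℝ) ^ m = (4 ^ m) ^ 2 := by
    rw [← pow_mul, mul_comm m 2, pow_mul]
    norm_num
  have herr : (TQ m : ℝ) * err κ (et κ) ℓ =
      4 * ℓ * (1 / (4 : ℝ) ^ m) ^ 2 + 700 * (1 / (4 : ℝ) ^ m) ^ 14 := by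
    unfold err
    have e1 : (256 : ℝ) ^ m = 16 ^ m * 16 ^ m := by
      rw [← mul_pow]
      norm_num
    have e2 : (16 : ℝ) ^ (7 * m) = (4 ^ m) ^ 14 := by
      have e4 : (16 : ℝ) = 4 ^ 2 := by norm_num
      rw [e4, ← pow_mul, ← pow_mul]
      congr 1
      ring
    calc (TQ m : ℝ) * (4 * et κ ^ 2 * ℓ / 2 ^ κ + 700 * 4096 ^ κ * et κ ^ 4) =
        4 * (TQ m * et κ ^ 2) * ℓ / 2 ^ κ +
          700 * (TQ m * et κ ^ 2) * (4096 ^ κ * et κ ^ 2) := by ring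
      _ = 4 * 16 ^ m * ℓ / (16 ^ m * 16 ^ m) + 700 * 16 ^ m * (1 / (16 ^ (7 * m) * 16 ^ m)) := by
        rw [hT, h16, h2κ', e1, h16κ']
      _ = 4 * ℓ * (1 / 16 ^ m) + 700 * (1 / 16 ^ (7 * m)) := by
        field_simp
      _ = _ := by
        rw [e2, hsq]
        simp only [one_div, inv_pow]
  rw [herr] at hM
  have hM2 := (abs_le.mp hM).2
  have hfin := CMq_num (1 / 4 ^ m) ε ℓ (av g) _ hx0 hx hε0 hε1 hℓ hmain hM2
  have e3 : (10 + 5 * ℓ) / (4 : ℝ) ^ m = (10 + 5 * ℓ) * (1 / 4 ^ m) := by ring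
  rw [e3]
  exact hfin

end Pool.Agent.H516R2.EQP3
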