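import Pool.Agent.H516R2.EQP3.Props

/-!
# Task DG (helper872): a general diagonalisation
-/

set_option autoImplicit false

namespace Pool.Agent.H516R2.EQP3

open Pool.Agent.NPC Pool.Agent.H620R2.Gauge Finset H568R2 Pool.Agent.H676 Pool.Agent.H516R2.EQP
  Pool.Agent.H516R2.EQP2

theorem DG_seq {St : ℕ → Oracle} {N : ℕ → ℕ} (hN : ∀ k, N k + 1 ≤ N (k + 1))
    (hB : ∀ k (z : List Bool), z.length ≤ N k → St (k + 1) z = St k z) (k j : ℕ) (hkj : k ≤ j)
    (z : List Bool) (hz : z.length ≤ N k) : St j z = St k z := by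
  have hmono : Monotone N := monotone_nat_of_le_succ fun k => by
    have := hN k
    omega
  induction j, hkj using Nat.le_induction with
  | base => rfl
  | succ j hj ih => rw [hB j z (hz.trans (hmono hj)), ih]

theorem DG : St_DG := by
  intro T _ _ Inv Bad h0 hcl hstep
  obtain ⟨B0, hB0⟩ := h0
  obtain ⟨f, hf⟩ := exists_surjective_nat T
  choose F G hInv hagree hbad using hstep
  obtain ⟨next, hnext⟩ : ∃ next : ℕ → {B : Oracle // Inv B} × ℕ → {B : Oracle // Inv B} × ℕ,
      next = fun k s => (⟨F (f k) s.1.1 s.2 s.1.2, hInv (f k) s.1.1 s.2 s.1.2⟩,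
        max (G (f k) s.1.1 s.2 s.1.2) (s.2 + 1)) := ⟨_, rfl⟩
  obtain ⟨seq, hseq0, hseq1⟩ : ∃ seq : ℕ → {B : Oracle // Inv B} × ℕ,
      seq 0 = (⟨B0, hB0⟩, 0) ∧ ∀ k, seq (k + 1) = next k (seq k) :=
    ⟨fun k => Nat.rec (⟨B0, hB0⟩, 0) (fun k s => next k s) k, rfl, fun k => rfl⟩
  have hN : ∀ k, (seq k).2 + 1 ≤ (seq (k + 1)).2 := by
    intro k
    rw [hseq1, hnext]
    exact le_max_right _ _
  have hB : ∀ k (z : List Bool), z.length ≤ (seq k).2 → (seq (k + 1)).1.1 z = (seq k).1.1 z := by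
    intro k z hz
    rw [hseq1, hnext]
    exact hagree (f k) (seq k).1.1 (seq k).2 (seq k).1.2 z hz
  have hNk : ∀ k, k ≤ (seq k).2 := by
    intro k
    induction k with
    | zero => exact Nat.zero_le _
    | succ k ih =>
      have := hN k
      omega
  have hstab := DG_seq (St := fun k => (seq k).1.1) (N := fun k => (seq k).2) hN hB
  have hlim : ∀ k (z : List Bool), z.length ≤ (seq k).2 →
      (seq z.length).1.1 z = (seq k).1.1 z := by
    intro k z hz
    rcases le_total k z.length with h | h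
    · exact hstab k z.length h z hz
    · exact (hstab z.length k h z (hNk _)).symm
  have hInvB : Inv (fun z => (seq z.length).1.1 z) := by
    refine hcl _ fun N => ⟨(seq N).1.1, (seq N).1.2, fun z hz => ?_⟩
    exact (hlim N z (hz.trans (hNk N))).symm
  refine ⟨fun z => (seq z.length).1.1 z, hInvB, fun t => ?_⟩
  obtain ⟨k, rfl⟩ := hf t
  refine hbad (f k) (seq k).1.1 (seq k).2 (seq k).1.2 _ hInvB fun z hz => ?_
  have h1 : z.length ≤ (seq (k + 1)).2 := by
    rw [hseq1, hnext]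
    exact hz.trans (le_max_left _ _)
  have h2 := hlim (k + 1) z h1
  have h3 : (seq (k + 1)).1.1 = F (f k) (seq k).1.1 (seq k).2 (seq k).1.2 := by
    rw [hseq1, hnext]
  rw [← h3]
  exact h2

end Pool.Agent.H516R2.EQP3
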