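import Pool.Agent.H516R2.EQP3.Props
import Pool.Agent.H516R2.EQP.AL
import Pool.Agent.H516R2.EQP.B
import Pool.Agent.H516R2.EQP.H1
import Pool.Agent.H516R2.EQP.H2

/-! # Yes- and no-instances exist -/

set_option autoImplicit false

namespace Pool.Agent.H516R2.EQP3

open Pool.Agent.NPC Pool.Agent.H620R2.Gauge Finset H568R2 Pool.Agent.H676 Pool.Agent.H516R2.EQP
  Pool.Agent.H516R2.EQP2

lemma EX_sz_xor (a b : Bool) : EQP.sz (a ^^ b) = EQP.sz a * EQP.sz b := by cases a <;> cases b <;> rfl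

lemma EX_sz_bent {κ : ℕ} (u : U κ) : EQP.sz (bent u) = ∏ k, EQP.sz ((u k).1 && (u k).2) := by
  have h := AL_sg_bx (fun k => (u k).1 && (u k).2)
  simp only [AL_sg_sz] at h
  unfold bent
  exact_mod_cast h

lemma EX_sum_prod {κ : ℕ} (f : Fin κ → Bool × Bool → ℤ) :
    ∑ u : U κ, ∏ k, f k (u k) = ∏ k, ∑ b : Bool × Bool, f k b := by
  rw [Finset.prod_univ_sum, Fintype.piFinset_univ]

lemma EX_four (b1 b2 : Bool) : ∑ a : Bool × Bool,
    EQP.sz (a.1 && a.2) * (EQP.sz (a.1 && b1) * EQP.sz (a.2 && b2)) = 2 * EQP.sz (b1 && b2) := by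
  rw [Fintype.sum_prod_type]
  cases b1 <;> cases b2 <;> simp [EQP.sz]

lemma EX_dual {κ : ℕ} (v : U κ) : ∑ u : U κ, EQP.sz (bent u) * Hz u v = 2 ^ κ * EQP.sz (bent v) := by
  have h1 : ∀ u : U κ, EQP.sz (bent u) * Hz u v =
      ∏ k, (EQP.sz ((u k).1 && (u k).2) * (EQP.sz ((u k).1 && (v k).1) * EQP.sz ((u k).2 && (v k).2))) := by
    intro u
    rw [EX_sz_bent, Hz, ← Finset.prod_mul_distrib]
  rw [Finset.sum_congr rfl fun u _ => h1 u,
    EX_sum_prod (fun k b => EQP.sz (b.1 && b.2) * (EQP.sz (b.1 && (v k).1) * EQP.sz (b.2 && (v k).2)))]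
  rw [Finset.prod_congr rfl fun k _ => EX_four (v k).1 (v k).2, Finset.prod_mul_distrib,
    EX_sz_bent]
  simp

lemma EX_zero (n : ℕ) : ∑ v : U (n + 1), EQP.sz ((v 0).1 && (v 0).2) = 2 * 4 ^ n := by
  have h1 : ∀ v : U (n + 1), EQP.sz ((v 0).1 && (v 0).2) =
      ∏ k : Fin (n + 1), (if k = 0 then EQP.sz ((v k).1 && (v k).2) else 1) := by
    intro v
    rw [Fin.prod_univ_succ]
    simp [Fin.succ_ne_zero]
  rw [Finset.sum_congr rfl fun v _ => h1 v,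
    EX_sum_prod (fun k b => if k = 0 then EQP.sz (b.1 && b.2) else 1), Fin.prod_univ_succ]
  have h2 : ∀ k : Fin n, ∑ b : Bool × Bool, (if k.succ = 0 then EQP.sz (b.1 && b.2) else 1) = (4 : ℤ) := by
    intro k
    simp [Fin.succ_ne_zero]
  rw [Finset.prod_congr rfl fun k _ => h2 k]
  have h3 : ∑ b : Bool × Bool, (if (0 : Fin (n + 1)) = 0 then EQP.sz (b.1 && b.2) else 1) = 2 := by
    rw [Fintype.sum_prod_type]
    simp [EQP.sz]
  rw [h3]
  simp

/-- the instance -/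
def EX_a (n : ℕ) : U (n + 1) ⊕ U (n + 1) → Bool
  | Sum.inl u => bent u
  | Sum.inr v => bent v ^^ ((v 0).1 && (v 0).2)

lemma EX_FF (n : ℕ) : FF (EX_a n) = 4 * 8 ^ n := by
  unfold FF
  rw [Finset.sum_comm]
  have h1 : ∀ v : U (n + 1), ∑ u : U (n + 1),
      EQP.sz (EX_a n (Sum.inl u)) * Hz u v * EQP.sz (EX_a n (Sum.inr v)) =
      2 ^ (n + 1) * EQP.sz ((v 0).1 && (v 0).2) := by
    intro v
    rw [← Finset.sum_mul]
    show (∑ u : U (n + 1), EQP.sz (bent u) * Hz u v) * EQP.sz (bent v ^^ ((v 0).1 && (v 0).2)) = _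
    rw [EX_dual, EX_sz_xor]
    have h2 : EQP.sz (bent v) * EQP.sz (bent v) = 1 := by cases bent v <;> rfl
    calc 2 ^ (n + 1) * EQP.sz (bent v) * (EQP.sz (bent v) * EQP.sz ((v 0).1 && (v 0).2)) =
          2 ^ (n + 1) * (EQP.sz (bent v) * EQP.sz (bent v)) * EQP.sz ((v 0).1 && (v 0).2) := by ring
      _ = _ := by rw [h2]; ring
  rw [Finset.sum_congr rfl fun v _ => h1 v, ← Finset.mul_sum, EX_zero]
  have : (8 : ℤ) ^ n = 2 ^ n * 4 ^ n := by rw [← mul_pow]; norm_num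
  rw [this, pow_succ]
  ring

theorem EX (hn : St_NE) : St_EX := by
  intro κ hκ b
  obtain ⟨n, rfl⟩ : ∃ n, κ = n + 1 := ⟨κ - 1, by omega⟩
  have h8 : (0 : ℤ) < 8 ^ n := by positivity
  have hcard : ((Fintype.card (W (n + 1)) : ℕ) : ℤ) = 8 * 8 ^ n := by
    rw [B_cardW, pow_succ]
    push_cast
    ring
  obtain ⟨z, hz⟩ := hn (W (n + 1)) (-(4 * 8 ^ n)) (by
    rw [hcard]
    exact ⟨2 * 8 ^ n, by ring⟩) (by
    rw [hcard, abs_neg, abs_of_pos (by positivity)]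
    linarith)
  have hyes : Yes (Sum.elim (EX_a n) z : Cube (n + 1) → Bool) := by
    apply H1_yes
    rw [hz, EX_FF, pow_succ]
    ring
  cases b
  · refine ⟨fun i => (Sum.elim (EX_a n) z : Cube (n + 1) → Bool) i ^^ H2_c i, ?_⟩
    have h := H2_yes _ hyes
    unfold Inst
    rw [if_neg Bool.false_ne_true]
    exact h
  · refine ⟨(Sum.elim (EX_a n) z : Cube (n + 1) → Bool), ?_⟩
    unfold Inst
    rw [if_pos rfl]
    exact hyes

end Pool.Agent.H516R2.EQP3
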