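import Pool.Agent.H516R2.EQP3.Props
import Pool.Agent.H516R2.EQP2.FIp
import Pool.Agent.H516R2.EQP2.CO

/-!
# The theorem `P = PH`, `PSPACE ⊆ EQP ≠ P`
-/

set_option autoImplicit false

namespace Pool.Agent.H516R2.EQP3

open Pool.Agent.NPC Pool.Agent.H620R2.Gauge Finset H568R2 Pool.Agent.H676 Pool.Agent.H516R2.EQP
  Pool.Agent.H516R2.EQP2

theorem FX_comp {C : List Bool → List Unit × List Gate} (hC : PolyTime (fun u => bits (C u)))
    {g : List Bool → List Bool} (hg : PolyTime g) : PolyTime (fun x => bits (C (g x))) :=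
  Pool.Agent.H622R2.polyTime_of_poly_list
    ((Pool.Agent.H622R2.poly_of_polyTime hC).comp (Pool.Agent.H622R2.poly_of_polyTime hg))

theorem FX_pre : PolyTime (fun x : List Bool => false :: false :: x) :=
  Pool.Agent.H622R2.polyTime_of_poly_list
    (Poly.cons (NPC.Poly.const false) (Poly.cons (NPC.Poly.const false) Poly.id))

theorem FX (hp : St_PU) (hq : St_QU) (hps : St_PS) (hc : St_CL) (hdg : St_DG) (hx : St_XS)
    (hco : St_CO) (hcp : St_CP) (hlo : St_LO) : St_FX := by
  obtain ⟨Φ, hΦ, hpre, hred⟩ := hco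
  obtain ⟨hid, C, hH, hC0, hPS⟩ := hps
  obtain ⟨Cq, hCq, hCq'⟩ := hq
  obtain ⟨-, -, -, -, hal, -, -⟩ := hp
  have hLoc : Loc Φ := hlo Φ hΦ
  -- values of `al`
  have hval : ∀ (u : List Bool) (B B' : Oracle), (∀ z : List Bool, z.length ≤ blen u →
      B z = B' z) → al u B = al u B' := by
    intro u B B' h
    exact hal u B B' (fun z hz => h z (le_of_eq hz.2))
  have htl : ∀ (u : List Bool) (B : Oracle), al u (Φ B) = al u B := by
    intro u B
    unfold al
    have : tlU u (Φ B) = tlU u B := by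
      funext w
      exact hpre B (u ++ w)
    rw [this]
  have g1 : ∃ B, Val Φ hid C B := by
    obtain ⟨B', -, hB'⟩ := hc Φ hid C hLoc hH (fun _ => false) 0 (fun u hu => by
      unfold blen at hu
      omega)
    exact ⟨B', hB'⟩
  have g2 : ∀ B : Oracle, (∀ N : ℕ, ∃ B' : Oracle, Val Φ hid C B' ∧
      ∀ z : List Bool, z.length ≤ N → B' z = B z) → Val Φ hid C B := by
    intro B h u
    obtain ⟨B', hB', he⟩ := h (blen u)
    have h1 : al u B' = al u B := hval u B' B he
    have hlen : u.length ≤ blen u := by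
      unfold blen
      omega
    have h2 : hid u (Φ B') = hid u (Φ B) := by
      apply hH
      intro z hz
      apply hLoc
      intro z' hz'
      exact he z' (by omega)
    have h3 := hB' u
    unfold Cond at h3 ⊢
    rw [h1, h2] at h3
    exact h3
  have g3 : ∀ (M : Alg) (B : Oracle) (N : ℕ), Val Φ hid C B → ∃ (B' : Oracle) (N' : ℕ),
      Val Φ hid C B' ∧ (∀ z : List Bool, z.length ≤ N → B' z = B z) ∧
      ∀ B'' : Oracle, Val Φ hid C B'' → (∀ z : List Bool, z.length ≤ N' → B'' z = B' z) →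
        ∃ x, ¬ (M.out (Φ B'') x = some [true] ↔ al (false :: false :: x) B'' = 1 / 2) := by
    intro M B N hB
    obtain ⟨B', x, hB', he, hbad⟩ := hx Φ hid C hΦ hLoc hH hC0 M B N hB
    obtain ⟨qb, hqb⟩ := M.out_local
    refine ⟨B', blen (false :: false :: x) + qb.eval x.length, hB', he, fun B'' _ h'' => ⟨x, ?_⟩⟩
    have h1 : al (false :: false :: x) B'' = al (false :: false :: x) B' :=
      hval _ _ _ (fun z hz => h'' z (by omega))
    have h2 : M.out (Φ B'') x = M.out (Φ B') x := by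
      obtain ⟨Q, -, hQ2, hQ3⟩ := hqb (Φ B') x
      apply hQ3
      intro q hq
      apply hLoc
      intro z hz
      apply h''
      have := hQ2 q hq
      omega
    rw [h1, h2]
    exact hbad
  obtain ⟨B, hB, hbad⟩ := hdg Alg (Val Φ hid C)
    (fun B M => ∃ x, ¬ (M.out (Φ B) x = some [true] ↔ al (false :: false :: x) B = 1 / 2))
    g1 g2 g3
  have hacc1 : ∀ u, al u B = 1 / 2 → accProb (Φ B) (Cq u) = 1 := by
    intro u hu
    rw [(hCq' u).2, htl, hu]
    norm_num
  have hacc0 : ∀ u, al u B = 0 → accProb (Φ B) (Cq u) = 0 := by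
    intro u hu
    rw [(hCq' u).2, htl, hu]
    norm_num
  refine ⟨Φ B, fun L => ⟨fun h => ?_, fun h => h.isPH⟩, fun L hL => ?_,
    {x | al (false :: false :: x) B = 1 / 2}, ?_, ?_⟩
  · refine hcp (Φ B) (fun M p => ?_) L h
    obtain ⟨g, hg, hg'⟩ := hred M p
    exact ⟨g, hg, fun x => hg' B x⟩
  · obtain ⟨g, hg, hgx⟩ := hPS (Φ B) L hL
    refine ⟨fun x => Cq (g x), FX_comp hCq hg, fun x => ⟨(hCq' _).1, fun hxL => ?_,
      fun hxL => ?_⟩⟩
    · apply hacc1
      exact ((hB (g x)).2 (hgx x).1).2 ((hgx x).2.1 hxL)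
    · apply hacc0
      refine (hB (g x)).1.resolve_right (fun h => hxL ?_)
      exact (hgx x).2.2 (((hB (g x)).2 (hgx x).1).1 h)
  · refine ⟨fun x => Cq (false :: false :: x), FX_comp hCq FX_pre, fun x =>
      ⟨(hCq' _).1, fun hxL => hacc1 _ hxL, fun hxL => hacc0 _ ?_⟩⟩
    exact (hB _).1.resolve_right hxL
  · rintro ⟨V, ⟨M, hM⟩, hL⟩
    obtain ⟨x, hx⟩ := hbad M
    apply hx
    rw [hM x]
    constructor
    · intro h
      exact (hL x).2 (Option.some.inj h)
    · intro h
      rw [(hL x).1 h]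

end Pool.Agent.H516R2.EQP3
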