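import Pool.Agent.H516R2.EQP3.Props
import Pool.Agent.H516R2.EQP2.GO

/-! Oracle algorithms relative to the coded oracle are good functions of the content of a block
(helper819) -/

set_option autoImplicit false

namespace Pool.Agent.H516R2.EQP3

open Pool.Agent.NPC Pool.Agent.H620R2.Gauge Finset H568R2 Pool.Agent.H676 Pool.Agent.H516R2.EQP
  Pool.Agent.H516R2.EQP2

theorem GX_exists_J (p : Polynomial ℕ) : ∃ J : ℕ, ∀ n : ℕ, 2 ≤ n → p.eval n ≤ n ^ 2 ^ J := by
  obtain ⟨C, d, h⟩ := GO_poly p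
  refine ⟨C + 2 * d, fun n hn => (h n).trans ?_⟩
  have h1 : C + 2 * d ≤ 2 ^ (C + 2 * d) := (Nat.lt_two_pow_self).le
  have h2 : C ≤ n ^ C := (Nat.lt_two_pow_self).le.trans (Nat.pow_le_pow_left hn _)
  have h3 : (n + 1) ^ d ≤ (n ^ 2) ^ d := Nat.pow_le_pow_left (by nlinarith) _
  calc C * (n + 1) ^ d ≤ n ^ C * (n ^ 2) ^ d := Nat.mul_le_mul h2 h3
    _ = n ^ (C + 2 * d) := by rw [← pow_mul, pow_add]
    _ ≤ n ^ 2 ^ (C + 2 * d) := Nat.pow_le_pow_right (by omega) h1

theorem GX_mono (p : Polynomial ℕ) {m n : ℕ} (h : m ≤ n) : p.eval m ≤ p.eval n := by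
  induction p using Polynomial.induction_on' with
  | add p q hp hq =>
    rw [Polynomial.eval_add, Polynomial.eval_add]
    exact add_le_add hp hq
  | monomial k a =>
    rw [Polynomial.eval_monomial, Polynomial.eval_monomial]
    exact Nat.mul_le_mul_left _ (Nat.pow_le_pow_left h _)

/-- every bit of the oracle is a decision tree of depth one -/
theorem GX_bit (hp : St_PU) {I : Type} [Fintype I] [DecidableEq I] (u : List Bool) (B : Oracle)
    (φ : (I → Bool) → Cube (kap u) → Bool) (hφ : ∀ i, DTr 1 (fun a => φ a i)) (w : List Bool) :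
    DTr 1 (fun a => put u (φ a) B w) := by
  rcases hp.2.2.2.2.2.2 u w B with ⟨c, hc⟩ | ⟨i, c, hc⟩
  · exact DTr.const ⟨c, fun a => hc _⟩
  · have h1 := (hφ i).comp (fun b => b ^^ c)
    refine (congrArg (DTr 1) (funext fun a => ?_)).mp h1
    exact (hc _).symm

/-- the parameters -/
noncomputable def GX_l (J : ℕ) : Polynomial ℕ := Polynomial.X ^ 2 ^ J

noncomputable def GX_t (J : ℕ) : Polynomial ℕ :=
  GX_l J + Polynomial.C 4 * Polynomial.X + Polynomial.C (J + 1)

theorem GX_l_eval (J κ : ℕ) : (GX_l J).eval κ = κ ^ 2 ^ J := by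
  simp [GX_l]

theorem GX_t_eval (J κ : ℕ) : (GX_t J).eval κ = κ ^ 2 ^ J + 4 * κ + (J + 1) := by
  simp only [GX_t, Polynomial.eval_add, Polynomial.eval_mul, Polynomial.eval_C,
    Polynomial.eval_X, GX_l_eval]

open Classical in
theorem GX_main (hp : St_PU) (hrt : St_RT) (hsw : St_SW) (Φ : Oracle → Oracle)
    (hΦ : ∀ w, Node Φ w) (M : Alg)
    (qb : Polynomial ℕ) (hqb : ∀ (A : Oracle) (x : List Bool),
    ∃ Q : Finset (List Bool), Q.card ≤ M.p.eval x.length ∧
      (∀ q ∈ Q, q.length ≤ qb.eval x.length) ∧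
      ∀ A' : Oracle, (∀ q ∈ Q, A' q = A q) → M.out A' x = M.out A x)
    (J : ℕ) (hJ : ∀ n : ℕ, 2 ≤ n → qb.eval n ≤ n ^ 2 ^ J) (u : List Bool) (B : Oracle)
    (x : List Bool) (hx : x.length ≤ kap u) (b : Bool) {I : Type} [Fintype I] [DecidableEq I]
    (φ : (I → Bool) → Cube (kap u) → Bool) (hφ : ∀ i, DTr 1 (fun a => φ a i)) :
    Ex (wq ((1 / (24 * (((GX_t J * (GX_l J + M.p)).eval (kap u) : ℕ) : ℝ))) ^ J))
      (fun ρ : Restr I => if ¬ DTr ((GX_t J * (GX_l J + M.p)).eval (kap u)) (fun a =>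
        decide (M.out (Φ (put u (φ (ov ρ a)) B)) x = some [true]) ^^ b) then (1 : ℝ) else 0) ≤
      (1 / 16) ^ (kap u) := by
  have hk16 : 16 ≤ kap u := by
    unfold kap mu
    omega
  have hkb : kap u < blen u := by
    unfold blen
    omega
  set l : ℕ := (kap u) ^ 2 ^ J with hl
  set t : ℕ := l + 4 * (kap u) + (J + 1) with ht
  have hl1 : 1 ≤ l := Nat.one_le_pow _ _ (by omega)
  have hP : (GX_t J * (GX_l J + M.p)).eval (kap u) = t * (l + M.p.eval (kap u)) := by
    rw [Polynomial.eval_mul, Polynomial.eval_add, GX_t_eval, GX_l_eval]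
  rw [hP]
  set T : ℕ := t * (l + M.p.eval (kap u)) with hT
  have hT1 : 1 ≤ T := Nat.one_le_iff_ne_zero.2 (Nat.mul_ne_zero (by omega) (by omega))
  have hT' : (1 : ℝ) ≤ T := by exact_mod_cast hT1
  set q : ℝ := 1 / (24 * (T : ℝ)) with hq
  have hq0 : 0 ≤ q := by positivity
  have hq1 : q ≤ 1 / 3 := by
    rw [hq, div_le_div_iff₀ (by positivity) (by norm_num)]
    linarith
  have hqJ0 : 0 ≤ q ^ J := pow_nonneg hq0 _
  have hqJ1 : q ^ J ≤ 1 := pow_le_one₀ hq0 (by linarith)
  have key := hsw Φ hΦ I (fun a => put u (φ a) B) (kap u) t l J q ?_ ?_ (by omega)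
    (by omega) hq0 hq1 (le_of_eq hl.symm)
  · refine (le_trans ?_ key).trans (GO_arith J (kap u) l t (M.p.eval (kap u)) hl1 ht)
    refine Ex_mono (wq_nonneg hqJ0 hqJ1) fun ρ => ?_
    by_cases h : ∀ w : List Bool, w.length ≤ (kap u) ^ 2 ^ J →
        DTr t (fun a => Φ ((fun a => put u (φ a) B) (ov ρ a)) w)
    · have h1 : DTr T (fun a => decide (M.out (Φ (put u (φ (ov ρ a)) B)) x = some [true])) := by
        have h2 := hrt I (fun a z => if z.length ≤ l then Φ (put u (φ (ov ρ a)) B) z else false)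
          M x t (fun z => by
            by_cases hz : z.length ≤ l
            · simp only [if_pos hz]
              exact h z hz
            · simp only [if_neg hz]
              exact DTr.const ⟨false, fun _ => rfl⟩)
        have h3 : (fun a => decide (M.out ((fun (a : I → Bool) (z : List Bool) =>
            if z.length ≤ l then Φ (put u (φ (ov ρ a)) B) z else false) a) x = some [true])) =
            (fun a => decide (M.out (Φ (put u (φ (ov ρ a)) B)) x = some [true])) := by
          funext a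
          obtain ⟨Q, -, hQ, hQ'⟩ := hqb (Φ (put u (φ (ov ρ a)) B)) x
          have h4 := hQ' (fun z => if z.length ≤ l then Φ (put u (φ (ov ρ a)) B) z else false)
            (fun z hz => by
              have h5 : z.length ≤ l :=
                (hQ z hz).trans ((GX_mono qb hx).trans (hJ (kap u) (by omega)))
              simp only [if_pos h5])
          simp only [h4]
        rw [h3] at h2
        refine h2.mono ?_
        rw [hT]
        have h6 : M.p.eval x.length ≤ M.p.eval (kap u) := GX_mono M.p hx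
        exact Nat.mul_le_mul_left _ (by omega)
      have h7 := h1.comp (fun c => c ^^ b)
      rw [if_neg (not_not.2 h7), if_neg (not_not.2 h)]
    · rw [if_pos h]
      split_ifs <;> norm_num
  · intro w hw a a'
    have h : ¬ InB u w := by
      rintro ⟨-, h⟩
      omega
    simp only [put, if_neg h]
  · intro w
    exact GX_bit hp u B φ hφ w

theorem GX (hp : St_PU) (hrt : St_RT) (hsw : St_SW) : St_GX := by
  intro Φ hΦ M
  obtain ⟨qb, hqb⟩ := Alg.out_local M
  obtain ⟨J, hJ⟩ := GX_exists_J qb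
  refine ⟨J, GX_t J * (GX_l J + M.p), fun u x hx => ⟨?_, fun B b c => ⟨?_, ?_⟩⟩⟩
  · rw [Polynomial.eval_mul, Polynomial.eval_add, GX_t_eval, GX_l_eval]
    have hk16 : 16 ≤ kap u := by
      unfold kap mu
      omega
    have h1 : 1 ≤ (kap u) ^ 2 ^ J := Nat.one_le_pow _ _ (by omega)
    exact Nat.one_le_iff_ne_zero.2 (Nat.mul_ne_zero (by omega) (by omega))
  · intro z ρ₀
    exact GX_main hp hrt hsw Φ hΦ M qb hqb J hJ u B x hx b
      (fun p i => Sum.elim (ov ρ₀ p) z i ^^ c i) (fun i => by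
        rcases i with j | j
        · simp only [Sum.elim_inl]
          cases hρ : ρ₀ j with
          | none =>
            refine Or.inr ⟨j, fun b => ⟨b ^^ c (Sum.inl j), fun a => ?_⟩⟩
            simp [ov, hρ]
          | some b =>
            refine DTr.const ⟨b ^^ c (Sum.inl j), fun a => ?_⟩
            simp [ov, hρ]
        · exact DTr.const ⟨z j ^^ c (Sum.inr j), fun a => rfl⟩)
  · intro p
    exact GX_main hp hrt hsw Φ hΦ M qb hqb J hJ u B x hx b
      (fun z i => Sum.elim p z i ^^ c i) (fun i => by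
        rcases i with j | j
        · exact DTr.const ⟨p j ^^ c (Sum.inl j), fun a => rfl⟩
        · refine Or.inr ⟨j, fun b => ⟨b ^^ c (Sum.inr j), fun a => ?_⟩⟩
          simp)

end Pool.Agent.H516R2.EQP3
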