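import Pool.Agent.H516R2.EQP3.Props

set_option autoImplicit false

namespace Pool.Agent.H516R2.EQP3

open Pool.Agent.NPC Pool.Agent.H620R2.Gauge Finset H568R2 Pool.Agent.H676 Pool.Agent.H516R2.EQP
  Pool.Agent.H516R2.EQP2

theorem NE_SS {J : Type} [Fintype J] [DecidableEq J] (A : Finset J) :
    SS (fun i => decide (i ∈ A)) = (Fintype.card J : ℤ) - 2 * (A.card : ℤ) := by
  unfold SS
  have h1 : ∀ w : J, EQP.sz (decide (w ∈ A)) = 1 - 2 * (if w ∈ A then 1 else 0) := by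
    intro w
    unfold EQP.sz
    by_cases h : w ∈ A
    · simp [h]
    · simp [h]
  simp only [h1]
  rw [Finset.sum_sub_distrib, ← Finset.mul_sum, Finset.sum_ite_mem, Finset.univ_inter]
  simp

theorem NE : St_NE := by
  intro J _ _ s hpar hs
  obtain ⟨c, hc⟩ := hpar
  have h1 := abs_le.1 hs
  obtain ⟨k, hk⟩ : ∃ k : ℕ, (k : ℤ) = (Fintype.card J : ℤ) - c := ⟨((Fintype.card J : ℤ) - c).toNat, by omega⟩
  have hk2 : k ≤ (univ : Finset J).card := by
    rw [Finset.card_univ]; omega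
  obtain ⟨A, _, hA⟩ := Finset.exists_subset_card_eq hk2
  refine ⟨fun i => decide (i ∈ A), ?_⟩
  rw [NE_SS, hA]
  omega

end Pool.Agent.H516R2.EQP3
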