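import Pool.Agent.H516R2.EQP3.Props
import Pool.Agent.H516R2.EQP.P5

/-!
The stopped walk ends at forrelation `2/5` with probability `1 - 7/4^m` (adapted from `EQP/P5`).
-/

set_option autoImplicit false

namespace Pool.Agent.H516R2.EQP3

open Pool.Agent.NPC Pool.Agent.H620R2.Gauge Finset H568R2 Pool.Agent.H676 Pool.Agent.H516R2.EQP
  Pool.Agent.H516R2.EQP2

open Classical in
theorem P5q_EE (h3 : St_P3) {κ : ℕ} {η : ℝ} (hη0 : 0 ≤ η) (hη1 : 2 * η * 2 ^ κ ≤ 1) (T : ℕ) :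
    EE η (fun P : U κ ⊕ U κ → ℝ => if Sf P < 2 / 5 then (1 : ℝ) else 0) T (fun _ => 0) ≤
      40000 * EE η (fun P : U κ ⊕ U κ → ℝ => max 0 (495 / 1000 - Psi P) ^ 2) T
        (fun _ => 0) + (100 / 18) * EE η a1 T (fun _ : U κ ⊕ U κ => (0 : ℝ)) := by
  have hBox : Box (fun _ : U κ ⊕ U κ => (0 : ℝ)) := fun i => by simp
  rw [← P5_EE_smul, ← P5_EE_smul, ← P5_EE_add]
  apply P5_EE_mono h3 hη0 hη1 _ _ _ hBox
  intro P hP
  obtain ⟨ha0, ha1⟩ := P5_a1_bounds hP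
  obtain ⟨hb0, hb1⟩ := P5_a2_bounds hP
  clear h3 hη0 hη1
  have h6 : Psi P = Sf P + a1 P * a2 P / 2 := rfl
  generalize Psi P = A at *
  generalize Sf P = B at *
  generalize a1 P = C at *
  generalize a2 P = D at *
  have h7 : 0 ≤ max 0 (495 / 1000 - A) ^ 2 := by positivity
  split_ifs with hS
  · rcases lt_or_ge A (49 / 100) with h | h
    · have h5 : (5 / 1000 : ℝ) ≤ max 0 (495 / 1000 - A) :=
        le_max_of_le_right (by linarith)
      have h6 : (5 / 1000 : ℝ) ^ 2 ≤ max 0 (495 / 1000 - A) ^ 2 :=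
        pow_le_pow_left₀ (by norm_num) h5 2
      norm_num at h6
      linarith
    · have h5 : C * D ≤ C := by nlinarith
      linarith
  · linarith

open Classical in
theorem P5q (h3 : St_P3) (h4 : St_P4) : St_P5q := by
  intro m hm
  set κ : ℕ := 8 * m with hκdef
  set x : ℝ := 4 ^ m with hx
  have hx64 : (64 : ℝ) ≤ x := by
    calc (64 : ℝ) = 4 ^ 3 := by norm_num
      _ ≤ 4 ^ m := pow_le_pow_right₀ (by norm_num) hm
  have hx0 : 0 < x := by linarith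
  have h16m : (16 : ℝ) ^ m = x ^ 2 := by
    rw [hx, ← pow_mul, mul_comm m 2, pow_mul]; norm_num
  have h4x : (4 : ℝ) ^ κ = x ^ 8 := by
    rw [hx, ← pow_mul, mul_comm m 8]
  have h65x : (65536 : ℝ) ^ κ = x ^ 64 := by
    rw [hx, ← pow_mul, hκdef, show m * 64 = 8 * (8 * m) by ring, pow_mul 4 8]; norm_num
  have hη0 : 0 ≤ et κ := by unfold et; positivity
  have h256 : (0 : ℝ) < 256 ^ κ := by positivity
  have hη1 : 2 * et κ * 2 ^ κ ≤ 1 := by
    unfold et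
    rw [show 2 * (1 / (256 : ℝ) ^ κ) * 2 ^ κ = 2 * 2 ^ κ / 256 ^ κ by ring, div_le_one h256]
    calc (2 : ℝ) * 2 ^ κ = 2 ^ (κ + 1) := by ring
      _ ≤ 2 ^ (8 * κ) := pow_le_pow_right₀ (by norm_num) (by omega)
      _ = 256 ^ κ := by rw [pow_mul]; norm_num
  have hη2 : et κ ^ 2 = 1 / x ^ 64 := by
    unfold et
    rw [div_pow, one_pow, ← pow_mul, mul_comm κ 2, pow_mul, ← h65x]
    norm_num
  have hT : (TQ m : ℝ) * et κ ^ 2 = x ^ 2 := by
    rw [hη2, ← h65x, ← h16m]; unfold TQ; push_cast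
    rw [← hκdef]
    field_simp
  have hBox : Box (fun _ : U κ ⊕ U κ => (0 : ℝ)) := fun i => by simp
  obtain ⟨hz1, hz2, hz3⟩ := P5_zero (κ := κ)
  -- inverse powers
  have hx6 : x ^ 2 / x ^ 8 = 1 / x ^ 6 := by field_simp
  have hx62 : x ^ 2 / x ^ 64 = 1 / x ^ 62 := by field_simp
  have b6 : 1 / x ^ 6 ≤ 1 / (64 ^ 5 * x) := by
    apply one_div_le_one_div_of_le (by positivity)
    calc 64 ^ 5 * x ≤ x ^ 5 * x := by
          gcongr
      _ = x ^ 6 := by ring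
  have b62 : 1 / x ^ 62 ≤ 1 / (64 ^ 5 * x) := by
    refine le_trans ?_ b6
    exact one_div_le_one_div_of_le (by positivity) (pow_le_pow_right₀ (by linarith) (by norm_num))
  have binv : 1 / (64 ^ 5 * x) = (1 / 64 ^ 5) * (1 / x) := by field_simp
  have hxinv : 1 / x ≤ 1 / 64 := one_div_le_one_div_of_le (by norm_num) hx64
  have hxinv0 : 0 < 1 / x := by positivity
  have b60 : 0 < 1 / x ^ 6 := by positivity
  have b620 : 0 < 1 / x ^ 62 := by positivity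
  rw [binv] at b6 b62
  -- the potentials
  obtain ⟨hpot, hpota⟩ := h4 κ (et κ) (fun _ => 0) (TQ m) hη0 hη1 hBox
  have hp1 := hpot (495 / 1000)
  have hP0 : Psi (fun _ : U κ ⊕ U κ => (0 : ℝ)) = 1 / 2 := by
    rw [Psi, hz1, hz2, hz3]; norm_num
  have e1 : (TQ m : ℝ) * (2 * et κ ^ 2 / 4 ^ κ) = 2 * (1 / x ^ 6) := by
    rw [show (TQ m : ℝ) * (2 * et κ ^ 2 / 4 ^ κ) = 2 * (((TQ m : ℝ) * et κ ^ 2) / 4 ^ κ) by ring,
      hT, h4x, hx6]
  have e2 : (TQ m : ℝ) * (40 * et κ ^ 2 / 4 ^ κ + 200 * et κ ^ 4) =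
      40 * (1 / x ^ 6) + 200 * (1 / x ^ 62) := by
    rw [show (TQ m : ℝ) * (40 * et κ ^ 2 / 4 ^ κ + 200 * et κ ^ 4) =
      40 * (((TQ m : ℝ) * et κ ^ 2) / 4 ^ κ) + 200 * (((TQ m : ℝ) * et κ ^ 2) * et κ ^ 2) by ring,
      hT, hη2, h4x, hx6, show x ^ 2 * (1 / x ^ 64) = 1 / x ^ 62 by rw [← hx62]; ring]
  rw [e1, e2, hP0] at hp1
  have hm0 : max 0 ((495 : ℝ) / 1000 + 2 * (1 / x ^ 6) - 1 / 2) = 0 := by
    apply max_eq_left
    norm_num at b6 hxinv ⊢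
    linarith
  rw [hm0] at hp1
  have hl1 : 2 * (1 / x) * et κ ^ 2 ≤ 1 := by
    rw [hη2]
    have h1 : 1 / x ^ 64 ≤ 1 := by
      rw [div_le_one (by positivity)]; exact one_le_pow₀ (by linarith)
    have h2 : (0 : ℝ) < 1 / x ^ 64 := by positivity
    nlinarith
  have hp2 := hpota (1 / x) (by positivity) hl1
  rw [hz2] at hp2
  have hr0 : 0 ≤ 1 - 2 * (1 / x) * et κ ^ 2 := by linarith
  have hrT : (1 - 2 * (1 / x) * et κ ^ 2) ^ TQ m ≤ (1 / 128) * (1 / x) := by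
    have h1 : (1 - 2 * (1 / x) * et κ ^ 2) ≤ Real.exp (-(2 * (1 / x) * et κ ^ 2)) := by
      have := Real.add_one_le_exp (-(2 * (1 / x) * et κ ^ 2))
      linarith
    have hxx : (1 / x) * x ^ 2 = x := by field_simp
    calc (1 - 2 * (1 / x) * et κ ^ 2) ^ TQ m
        ≤ Real.exp (-(2 * (1 / x) * et κ ^ 2)) ^ TQ m := pow_le_pow_left₀ hr0 h1 _
      _ = Real.exp (-(2 * x)) := by
          rw [← Real.exp_nat_mul]
          congr 1
          linear_combination (-(2 * (1 / x))) * hT - 2 * hxx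
      _ ≤ (1 / 128) * (1 / x) := by
          rw [Real.exp_neg, ← one_div]
          have h2 : 128 * x ≤ Real.exp (2 * x) := by
            have h3 := Real.quadratic_le_exp_of_nonneg (x := 2 * x) (by linarith)
            nlinarith
          calc 1 / Real.exp (2 * x) ≤ 1 / (128 * x) :=
                one_div_le_one_div_of_le (by positivity) h2
            _ = (1 / 128) * (1 / x) := by field_simp
  have hrT0 : 0 ≤ (1 - 2 * (1 / x) * et κ ^ 2) ^ TQ m := pow_nonneg hr0 _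
  -- the indicator functions
  set φ1 : (U κ ⊕ U κ → ℝ) → ℝ := fun P =>
    if 2 / 5 ≤ Sf P ∧ Sf P ≤ 2 / 5 + 3 * et κ then (1 : ℝ) else 0 with hφ1
  set φ2 : (U κ ⊕ U κ → ℝ) → ℝ := fun P => if Sf P < 2 / 5 then (1 : ℝ) else 0 with hφ2
  set φ3 : (U κ ⊕ U κ → ℝ) → ℝ := fun P => if 2 / 5 + 3 * et κ < Sf P then (1 : ℝ) else 0 with hφ3
  have hsum : (fun _ : U κ ⊕ U κ → ℝ => (1 : ℝ)) = fun P => (φ1 P + φ2 P) + φ3 P := by
    funext P
    simp only [hφ1, hφ2, hφ3]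
    rcases lt_or_ge (Sf P) (2 / 5) with h | h
    · have h' : ¬ (2 / 5 ≤ Sf P) := not_le.mpr h
      have h'' : ¬ (2 / 5 + 3 * et κ < Sf P) := by linarith
      simp [h, h', h'']
    · rcases lt_or_ge (2 / 5 + 3 * et κ) (Sf P) with h2 | h2
      · have h' : ¬ (Sf P ≤ 2 / 5 + 3 * et κ) := not_le.mpr h2
        simp [h, h', h2, not_lt.mpr h]
      · simp [h, h2, not_lt.mpr h, not_lt.mpr h2]
  have hone := P5_ES_one (et κ) (TQ m) (fun _ : U κ ⊕ U κ => (0 : ℝ))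
  rw [hsum, P5_ES_add, P5_ES_add] at hone
  have hz : ES (et κ) φ3 (TQ m) (fun _ => 0) = 0 := by
    apply P5_ES_zero h3 hη0 hη1 _ _ _ hBox
    · rw [hz1]; linarith
    · intro P hP
      simp only [hφ3]
      rw [if_neg (not_lt.mpr hP)]
  have h2le : ES (et κ) φ2 (TQ m) (fun _ => 0) ≤ EE (et κ) φ2 (TQ m) (fun _ => 0) := by
    apply P5_ES_le_EE
    · intro P; simp only [hφ2]; split_ifs <;> norm_num
    · intro P hP; simp only [hφ2]; rw [if_neg (not_lt.mpr hP)]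
  have hEE : EE (et κ) φ2 (TQ m) (fun _ => 0) ≤
      40000 * EE (et κ) (fun P : U κ ⊕ U κ → ℝ => max 0 (495 / 1000 - Psi P) ^ 2) (TQ m)
        (fun _ => 0) + (100 / 18) * EE (et κ) a1 (TQ m) (fun _ : U κ ⊕ U κ => (0 : ℝ)) :=
    P5q_EE h3 hη0 hη1 (TQ m)
  have hfin1 : 40000 * EE (et κ) (fun P : U κ ⊕ U κ → ℝ => max 0 (495 / 1000 - Psi P) ^ 2)
      (TQ m) (fun _ => 0) ≤ (1 / 10) * (1 / x) := by
    linarith
  have hlast : EE (et κ) a1 (TQ m) (fun _ : U κ ⊕ U κ => (0 : ℝ)) ≤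
      (1 / 128) * (1 / x) + (1 / 2) * (1 / x) := by
    have h5 : 1 / x / 2 * (1 - (1 - 2 * (1 / x) * et κ ^ 2) ^ TQ m) ≤ (1 / 2) * (1 / x) := by
      nlinarith
    linarith
  have h7 : 7 / x = 7 * (1 / x) := by ring
  rw [h7]
  linarith

end Pool.Agent.H516R2.EQP3
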