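import Pool.Agent.H516R2.EQP3.Props
import Pool.Agent.H620R2.Gauge.C

/-!
# The coding of polynomial space
-/

set_option autoImplicit false

namespace Pool.Agent.H516R2.EQP3

open Pool.Agent.NPC Pool.Agent.H620R2.Gauge Finset H568R2 Pool.Agent.H676 Pool.Agent.H516R2.EQP
  Pool.Agent.H516R2.EQP2

open CC Pool.Agent.H622R2

open Classical in
/-- the answer to the coded question `u` -/
noncomputable def PS_hid (g : ℕ → SAlg × Polynomial ℕ) (b R : ℕ → Polynomial ℕ) (u : List Bool)
    (A : Oracle) : Bool :=
  if h : ∃ p : ℕ × List Bool, u = code R p.1 p.2 then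
    @decide (CC.Acc (g h.choose.1).1 (cut ((b h.choose.1).eval h.choose.2.length) A) h.choose.2)
      (Classical.propDecidable _)
  else false

theorem PS_hid_code (g : ℕ → SAlg × Polynomial ℕ) (b R : ℕ → Polynomial ℕ) (e : ℕ)
    (x : List Bool) (A : Oracle) :
    PS_hid g b R (code R e x) A = true ↔ Acc (g e).1 (cut ((b e).eval x.length) A) x := by
  have h : ∃ p : ℕ × List Bool, code R e x = code R p.1 p.2 := ⟨(e, x), rfl⟩
  classical
  unfold PS_hid
  rw [dif_pos h, decide_eq_true_iff]
  obtain ⟨h1, h2⟩ := code_inj R h.choose_spec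
  rw [← h1, ← h2]

theorem PS_not_code (R : ℕ → Polynomial ℕ) (hR : ∀ e n, 1 ≤ (R e).eval n) (x : List Bool) :
    ¬ ∃ p : ℕ × List Bool, false :: false :: x = code R p.1 p.2 := by
  rintro ⟨⟨e, y⟩, h⟩
  unfold code at h
  cases e with
  | zero =>
    obtain ⟨k, hk⟩ : ∃ k, (R 0).eval y.length = k + 1 :=
      ⟨(R 0).eval y.length - 1, by have := hR 0 y.length; omega⟩
    simp only [List.replicate_zero, List.nil_append, List.cons.injEq, true_and] at h
    rw [hk, List.replicate_succ] at h
    simp at h
  | succ e => simp [List.replicate_succ] at h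

theorem PS : St_PS := by
  obtain ⟨g, hg⟩ := exists_enum
  choose b hb using fun e : ℕ => act_length (g e).1 (g e).2
  set R : ℕ → Polynomial ℕ := fun e => b e + (Polynomial.X + Polynomial.C (e + 1)) with hR
  have hRe : ∀ e n, (R e).eval n = (b e).eval n + (n + (e + 1)) := by
    intro e n
    rw [hR]
    simp only [Polynomial.eval_add, Polynomial.eval_X, Polynomial.eval_C]
  classical
  refine ⟨PS_hid g b R, fun u => decide (∃ p : ℕ × List Bool, u = code R p.1 p.2), ?_, ?_, ?_⟩
  · intro u A A' h
    by_cases hu : ∃ p : ℕ × List Bool, u = code R p.1 p.2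
    · obtain ⟨⟨e, x⟩, rfl⟩ := hu
      have hcut : cut ((b e).eval x.length) A = cut ((b e).eval x.length) A' := by
        funext z
        unfold cut
        split_ifs with hz
        · apply h
          have h1 := lt_length_code R e x
          have h2 := hRe e x.length
          simp only
          omega
        · rfl
      rw [Bool.eq_iff_iff]
      simp only [PS_hid_code, hcut]
    · unfold PS_hid
      rw [dif_neg hu, dif_neg hu]
  · intro x
    simp only [decide_eq_false_iff_not]
    exact PS_not_code R (fun e n => by rw [hRe]; omega) x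
  · rintro A L ⟨M, p, hM⟩
    obtain ⟨e, he⟩ := hg (M, p)
    refine ⟨fun x => code R e x, polyTime_of_poly_list (poly_code R e), fun x => ?_⟩
    refine ⟨decide_eq_true ⟨(e, x), rfl⟩, ?_⟩
    rw [PS_hid_code]
    have hbe := hb e
    rw [he] at hbe ⊢
    obtain ⟨hM1, s, z, hs, hz, hL⟩ := hM x
    have hcong : ∀ s, M.Reach (cut ((b e).eval x.length) A) x s ↔ M.Reach A x s := by
      refine reach_congr (fun s => s.length ≤ p.eval x.length) hM1 ?_
      intro s q h1 h2
      have h3 := hbe x s h1
      rw [h2, List.length_cons] at h3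
      unfold cut
      rw [if_pos (by omega)]
    constructor
    · intro hx
      refine ⟨s, (hcong s).2 hs, ?_⟩
      rw [hz, hL.1 hx]
    · rintro ⟨t, ht, ht2⟩
      have hst := reach_unique hs ((hcong t).1 ht) ⟨_, hz⟩ ⟨_, ht2⟩
      rw [hst, ht2] at hz
      simp only [List.cons.injEq, true_and] at hz
      exact hL.2 hz.symm

end Pool.Agent.H516R2.EQP3
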