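import Pool.Agent.H516R2.EQP3.Props
import Pool.Agent.H516R2.EQP.QC
import Pool.Agent.H516R2.EQP.QG

/-! # Task QU: the circuits for the blocks -/

set_option autoImplicit false

namespace Pool.Agent.H516R2.EQP3

open Pool.Agent.NPC Pool.Agent.H620R2.Gauge Finset H568R2 Pool.Agent.H676 Pool.Agent.H516R2.EQP
  Pool.Agent.H516R2.EQP2

/-- the qubits which contain the prefix -/
def QU_pre (u : List Bool) : List ℕ :=
  (6 + 3 * kap u) :: (6 + 3 * kap u) :: u.map (fun b => bif b then 1 else 6 + 3 * kap u)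

def QU_orc1 (u : List Bool) : Gate := Sum.inr (true, QU_pre u ++ (0 :: idxQ (kap u)), 2)

def QU_orc2 (u : List Bool) : Gate := Sum.inr (true, QU_pre u ++ (1 :: idxQ (kap u)), 2)

def QU_AG (u : List Bool) : List Gate :=
  (idxQ (kap u)).map had ++ QU_orc1 u :: (midQ (kap u)).map had ++
    QU_orc2 u :: (idxQ (kap u)).map had

def QU_AtG (u : List Bool) : List Gate :=
  (idxQ (kap u)).map had ++ QU_orc2 u :: (midQ (kap u)).map had ++
    QU_orc1 u :: (idxQ (kap u)).map had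

def QU_circ (u : List Bool) : List Unit × List Gate :=
  (List.replicate (6 + 3 * kap u) (),
    prepG (kap u) ++ QU_AG u ++ Pool.Agent.H516R2.EQP.refl (kap u) :: QU_AtG u ++
      Pool.Agent.H516R2.EQP.refl (kap u) :: QU_AG u ++ [fin (kap u)])

/-! ### the acceptance probability -/

/-- the support condition: the qubit `1` is true -/
def QU_S {m : ℕ} (ψ : (Fin m → Bool) → ℝ) : Prop := ∀ s, rd s 1 = false → ψ s = 0

theorem QU_S_had (A : Oracle) {m : ℕ} (i : ℕ) (hi : i ≠ 1) (ψ : (Fin m → Bool) → ℝ)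
    (hψ : QU_S ψ) : QU_S (gateAct A (Sum.inl i) ψ) := by
  intro s hs
  show (if h : i < m then
        (ψ (Function.update s ⟨i, h⟩ false) +
          (if s ⟨i, h⟩ then -1 else 1) * ψ (Function.update s ⟨i, h⟩ true)) / Real.sqrt 2
      else ψ s) = 0
  by_cases h : i < m
  · rw [dif_pos h, hψ _ (by rw [ql_rd_ne s i h _ 1 (Ne.symm hi)]; exact hs),
      hψ _ (by rw [ql_rd_ne s i h _ 1 (Ne.symm hi)]; exact hs)]
    simp
  · rw [dif_neg h]
    exact hψ s hs

theorem QU_rd_flip {m : ℕ} (c : (Fin m → Bool) → Bool) (k : ℕ) (hk : k ≠ 1) (s : Fin m → Bool) :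
    rd (flipIf c k s) 1 = rd s 1 := by
  unfold flipIf
  by_cases h : k < m
  · rw [dif_pos h, ql_rd_ne s k h _ 1 (Ne.symm hk)]
  · rw [dif_neg h]

theorem QU_S_flip {m : ℕ} (c : (Fin m → Bool) → Bool) (k : ℕ) (hk : k ≠ 1)
    (ψ : (Fin m → Bool) → ℝ) (hψ : QU_S ψ) : QU_S (fun s => ψ (flipIf c k s)) := by
  intro s hs
  exact hψ _ (by rw [QU_rd_flip c k hk s]; exact hs)

theorem QU_map (u : List Bool) {m : ℕ} (hm : ¬ 6 + 3 * kap u < m) (q : List ℕ) (t : Fin m → Bool)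
    (ht : rd t 1 = true) :
    (QU_pre u ++ q).map (rd t) = false :: false :: (u ++ q.map (rd t)) := by
  have h1 : rd t (6 + 3 * kap u) = false := by
    unfold rd
    rw [dif_neg hm]
  have h2 : (u.map (fun b => bif b then 1 else 6 + 3 * kap u)).map (rd t) = u := by
    rw [List.map_map]
    conv_rhs => rw [← List.map_id u]
    apply List.map_congr_left
    intro b _
    cases b
    · exact h1
    · exact ht
  unfold QU_pre
  rw [List.map_append, List.map_cons, List.map_cons, h1, h2]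
  rfl

theorem QU_orc (A : Oracle) (u : List Bool) {m : ℕ} (hm : ¬ 6 + 3 * kap u < m) (q : List ℕ)
    (ψ : (Fin m → Bool) → ℝ) (hψ : QU_S ψ) :
    gateAct A (Sum.inr (true, QU_pre u ++ q, 2)) ψ =
      gateAct (tlU u A) (Sum.inr (true, q, 2)) ψ := by
  funext s
  show ψ (flipIf (fun s => A ((QU_pre u ++ q).map (rd s))) 2 s) =
    ψ (flipIf (fun s => tlU u A (q.map (rd s))) 2 s)
  by_cases hs : rd s 1 = true
  · congr 1
    unfold flipIf
    by_cases h2 : 2 < m
    · rw [dif_pos h2, dif_pos h2]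
      simp only
      rw [QU_map u hm q _ (by rw [ql_rd_ne s 2 h2 _ 1 (by omega)]; exact hs)]
      rfl
    · rw [dif_neg h2, dif_neg h2]
  · have hs' : rd s 1 = false := by
      cases h : rd s 1
      · rfl
      · exact absurd h hs
    rw [hψ _ (by rw [QU_rd_flip _ 2 (by omega) s]; exact hs'),
      hψ _ (by rw [QU_rd_flip _ 2 (by omega) s]; exact hs')]

/-- the gate lists `l` (relative to `A`) and `l'` (relative to `tlU u A`) do the same on states
with the support condition, and they preserve it -/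
def QU_R (A : Oracle) (u : List Bool) (m : ℕ) (l l' : List Gate) : Prop :=
  ∀ ψ : (Fin m → Bool) → ℝ, QU_S ψ →
    circAct A l ψ = circAct (tlU u A) l' ψ ∧ QU_S (circAct (tlU u A) l' ψ)

theorem QU_R_append {A : Oracle} {u : List Bool} {m : ℕ} {l1 l1' l2 l2' : List Gate}
    (h1 : QU_R A u m l1 l1') (h2 : QU_R A u m l2 l2') : QU_R A u m (l1 ++ l2) (l1' ++ l2') := by
  intro ψ hψ
  rw [ql_append, ql_append, (h1 ψ hψ).1]
  exact h2 _ (h1 ψ hψ).2

theorem QU_R_nil (A : Oracle) (u : List Bool) (m : ℕ) : QU_R A u m [] [] := fun _ h => ⟨rfl, h⟩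

theorem QU_R_cons {A : Oracle} {u : List Bool} {m : ℕ} {g g' : Gate} {l l' : List Gate}
    (h1 : ∀ ψ : (Fin m → Bool) → ℝ, QU_S ψ →
      gateAct A g ψ = gateAct (tlU u A) g' ψ ∧ QU_S (gateAct (tlU u A) g' ψ))
    (h2 : QU_R A u m l l') : QU_R A u m (g :: l) (g' :: l') := by
  intro ψ hψ
  change circAct A l (gateAct A g ψ) = circAct (tlU u A) l' (gateAct (tlU u A) g' ψ) ∧
    QU_S (circAct (tlU u A) l' (gateAct (tlU u A) g' ψ))
  rw [(h1 ψ hψ).1]
  exact h2 _ (h1 ψ hψ).2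

theorem QU_g_had (A : Oracle) (u : List Bool) {m : ℕ} (i : ℕ) (hi : i ≠ 1)
    (ψ : (Fin m → Bool) → ℝ) (hψ : QU_S ψ) :
    gateAct A (had i) ψ = gateAct (tlU u A) (had i) ψ ∧ QU_S (gateAct (tlU u A) (had i) ψ) :=
  ⟨rfl, QU_S_had _ i hi ψ hψ⟩

theorem QU_g_ctl (A : Oracle) (u : List Bool) {m : ℕ} (q : List ℕ) (k : ℕ) (hk : k ≠ 1)
    (ψ : (Fin m → Bool) → ℝ) (hψ : QU_S ψ) :
    gateAct A (Sum.inr (false, q, k)) ψ = gateAct (tlU u A) (Sum.inr (false, q, k)) ψ ∧
      QU_S (gateAct (tlU u A) (Sum.inr (false, q, k)) ψ) :=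
  ⟨rfl, QU_S_flip _ k hk ψ hψ⟩

theorem QU_g_orc (A : Oracle) (u : List Bool) {m : ℕ} (hm : ¬ 6 + 3 * kap u < m) (q : List ℕ)
    (ψ : (Fin m → Bool) → ℝ) (hψ : QU_S ψ) :
    gateAct A (Sum.inr (true, QU_pre u ++ q, 2)) ψ = gateAct (tlU u A) (Sum.inr (true, q, 2)) ψ ∧
      QU_S (gateAct (tlU u A) (Sum.inr (true, q, 2)) ψ) :=
  ⟨QU_orc A u hm q ψ hψ, QU_S_flip _ 2 (by omega) ψ hψ⟩

theorem QU_R_had (A : Oracle) (u : List Bool) (m : ℕ) : ∀ l : List ℕ, (∀ i ∈ l, i ≠ 1) →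
    QU_R A u m (l.map had) (l.map had)
  | [], _ => QU_R_nil A u m
  | i :: l, h => QU_R_cons (fun ψ hψ => QU_g_had A u i (h i (by simp)) ψ hψ)
      (QU_R_had A u m l fun j hj => h j (by simp [hj]))

theorem QU_R_nt (A : Oracle) (u : List Bool) (m : ℕ) : ∀ l : List ℕ, (∀ i ∈ l, i ≠ 1) →
    QU_R A u m (l.map nt) (l.map nt)
  | [], _ => QU_R_nil A u m
  | i :: l, h => QU_R_cons (fun ψ hψ => QU_g_ctl A u [] i (h i (by simp)) ψ hψ)
      (QU_R_nt A u m l fun j hj => h j (by simp [hj]))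

theorem QU_idx_ne (κ : ℕ) : ∀ i ∈ idxQ κ, i ≠ 1 := by
  intro i hi
  unfold idxQ at hi
  obtain ⟨j, _, rfl⟩ := List.mem_map.1 hi
  omega

theorem QU_mid_ne (κ : ℕ) : ∀ i ∈ midQ κ, i ≠ 1 := by
  intro i hi
  unfold midQ at hi
  obtain ⟨j, _, rfl⟩ := List.mem_map.1 hi
  omega

theorem QU_R_A (A : Oracle) (u : List Bool) {m : ℕ} (hm : ¬ 6 + 3 * kap u < m) :
    QU_R A u m (QU_AG u) (AG (kap u)) := by
  unfold QU_AG AG
  exact QU_R_append (QU_R_append (QU_R_had A u m _ (QU_idx_ne _))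
    (QU_R_cons (fun ψ hψ => QU_g_orc A u hm _ ψ hψ) (QU_R_had A u m _ (QU_mid_ne _))))
    (QU_R_cons (fun ψ hψ => QU_g_orc A u hm _ ψ hψ) (QU_R_had A u m _ (QU_idx_ne _)))

theorem QU_R_At (A : Oracle) (u : List Bool) {m : ℕ} (hm : ¬ 6 + 3 * kap u < m) :
    QU_R A u m (QU_AtG u) (AtG (kap u)) := by
  unfold QU_AtG AtG
  exact QU_R_append (QU_R_append (QU_R_had A u m _ (QU_idx_ne _))
    (QU_R_cons (fun ψ hψ => QU_g_orc A u hm _ ψ hψ) (QU_R_had A u m _ (QU_mid_ne _))))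
    (QU_R_cons (fun ψ hψ => QU_g_orc A u hm _ ψ hψ) (QU_R_had A u m _ (QU_idx_ne _)))

/-- all gates except the first one -/
def QU_tail (κ : ℕ) (L L' : List Gate) : List Gate :=
  nt 2 :: had 2 :: (idxQ κ).map nt ++ L ++ Pool.Agent.H516R2.EQP.refl κ :: L' ++
    Pool.Agent.H516R2.EQP.refl κ :: L ++ [fin κ]

theorem QU_R_tail (A : Oracle) (u : List Bool) {m : ℕ} (hm : ¬ 6 + 3 * kap u < m) :
    QU_R A u m (QU_tail (kap u) (QU_AG u) (QU_AtG u))
      (QU_tail (kap u) (AG (kap u)) (AtG (kap u))) := by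
  unfold QU_tail
  refine QU_R_append (QU_R_append (QU_R_append (QU_R_append ?_ (QU_R_A A u hm))
    (QU_R_cons (fun ψ hψ => QU_g_ctl A u _ 2 (by omega) ψ hψ) (QU_R_At A u hm)))
    (QU_R_cons (fun ψ hψ => QU_g_ctl A u _ 2 (by omega) ψ hψ) (QU_R_A A u hm)))
    (QU_R_cons (fun ψ hψ => QU_g_ctl A u _ 0 (by omega) ψ hψ) (QU_R_nil A u m))
  exact QU_R_cons (fun ψ hψ => QU_g_ctl A u [] 2 (by omega) ψ hψ)
    (QU_R_cons (fun ψ hψ => QU_g_had A u 2 (by omega) ψ hψ) (QU_R_nt A u m _ (QU_idx_ne _)))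

theorem QU_init (A : Oracle) {m : ℕ} (hm : 1 < m) : QU_S (gateAct A (nt 1) (initSt m)) := by
  intro s hs
  show initSt m (flipIf (fun s => [].all (rd s)) 1 s) = 0
  unfold initSt
  rw [if_neg]
  intro h
  have h1 := congrFun h ⟨1, hm⟩
  unfold flipIf at h1
  rw [dif_pos hm, Function.update_self] at h1
  have h2 : s ⟨1, hm⟩ = false := by
    rw [← qg_rd s 1 hm]
    exact hs
  rw [h2] at h1
  simp at h1

theorem QU_acc (A : Oracle) (u : List Bool) :
    accProb A (QU_circ u) = accProb (tlU u A) (circ (kap u)) := by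
  have hlen : (circ (kap u)).1.length = 6 + 3 * kap u := by
    show (List.replicate (6 + 3 * kap u) ()).length = _
    rw [List.length_replicate]
  have hm : ¬ 6 + 3 * kap u < (circ (kap u)).1.length := by
    rw [hlen]
    omega
  have hm1 : 1 < (circ (kap u)).1.length := by
    rw [hlen]
    omega
  have h := (QU_R_tail A u hm _ (QU_init A hm1)).1
  have e1 : circAct A (QU_circ u).2 (initSt (circ (kap u)).1.length) =
      circAct A (QU_tail (kap u) (QU_AG u) (QU_AtG u))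
        (gateAct A (nt 1) (initSt (circ (kap u)).1.length)) := rfl
  have e2 : circAct (tlU u A) (circ (kap u)).2 (initSt (circ (kap u)).1.length) =
      circAct (tlU u A) (QU_tail (kap u) (AG (kap u)) (AtG (kap u)))
        (gateAct A (nt 1) (initSt (circ (kap u)).1.length)) := rfl
  change (∑ s : Fin (circ (kap u)).1.length → Bool,
    if rd s 0 then circAct A (QU_circ u).2 (initSt (circ (kap u)).1.length) s ^ 2 else 0) = _
  rw [e1, h, ← e2]
  rfl

/-! ### polynomial time -/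

theorem QU_kap : UPoly (fun u : List Bool => kap u) := by
  unfold kap mu
  exact UPoly.mul (UPoly.const 8) (UPoly.add (UPoly.mul (UPoly.const 2) QC_len) (UPoly.const 2))

theorem QU_rep : NPC.Poly (fun u : List Bool => List.replicate (kap u) true) :=
  (NPC.Poly.map (F := fun (_ : List Bool) (_ : Unit) => true) QU_kap
    (NPC.Poly.const true)).congr fun u => by simp

theorem QU_lift {β : Type} [TEnc β] {f : ℕ → β} (hf : NPC.Poly (fun x : List Bool => f x.length)) :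
    NPC.Poly (fun u : List Bool => f (kap u)) :=
  (NPC.Poly.comp hf QU_rep).congr fun u => by
    show f (List.replicate (kap u) true).length = f (kap u)
    rw [List.length_replicate]

theorem QU_n : NPC.Poly (fun u : List Bool => 6 + 3 * kap u) :=
  (UPoly.add (UPoly.const 6) (UPoly.mul (UPoly.const 3) QU_kap)).toPoly

theorem QU_preP : NPC.Poly QU_pre := by
  have h : NPC.Poly (fun u : List Bool => (6 + 3 * kap u) :: (6 + 3 * kap u) ::
      u.map (fun b => bif b then 1 else 6 + 3 * kap u)) :=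
    NPC.Poly.cons QU_n (NPC.Poly.cons QU_n
      (NPC.Poly.map (F := fun (u : List Bool) (b : Bool) => bif b then 1 else 6 + 3 * kap u)
        NPC.Poly.id (NPC.Poly.cond (NPC.Poly.snd NPC.Poly.id) (NPC.Poly.const 1)
          (QU_n.comp (NPC.Poly.fst NPC.Poly.id)))))
  exact h

theorem QU_idxP : NPC.Poly (fun u : List Bool => idxQ (kap u)) := QU_lift QC_idx

theorem QU_midP : NPC.Poly (fun u : List Bool => midQ (kap u)) := QU_lift QC_mid

theorem QU_orc1P : NPC.Poly QU_orc1 :=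
  QC_gate true (NPC.Poly.append QU_preP (NPC.Poly.cons (NPC.Poly.const 0) QU_idxP)) 2

theorem QU_orc2P : NPC.Poly QU_orc2 :=
  QC_gate true (NPC.Poly.append QU_preP (NPC.Poly.cons (NPC.Poly.const 1) QU_idxP)) 2

theorem QU_AP : NPC.Poly QU_AG := by
  have h : NPC.Poly (fun u : List Bool => (idxQ (kap u)).map had ++
      QU_orc1 u :: (midQ (kap u)).map had ++ QU_orc2 u :: (idxQ (kap u)).map had) :=
    NPC.Poly.append (NPC.Poly.append (QC_had QU_idxP) (NPC.Poly.cons QU_orc1P (QC_had QU_midP)))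
      (NPC.Poly.cons QU_orc2P (QC_had QU_idxP))
  exact h

theorem QU_AtP : NPC.Poly QU_AtG := by
  have h : NPC.Poly (fun u : List Bool => (idxQ (kap u)).map had ++
      QU_orc2 u :: (midQ (kap u)).map had ++ QU_orc1 u :: (idxQ (kap u)).map had) :=
    NPC.Poly.append (NPC.Poly.append (QC_had QU_idxP) (NPC.Poly.cons QU_orc2P (QC_had QU_midP)))
      (NPC.Poly.cons QU_orc1P (QC_had QU_idxP))
  exact h

theorem QU_circP : NPC.Poly QU_circ := by
  have h1 : UPoly (fun u : List Bool => 6 + 3 * kap u) :=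
    UPoly.add (UPoly.const 6) (UPoly.mul (UPoly.const 3) QU_kap)
  have hr : NPC.Poly (fun u : List Bool => Pool.Agent.H516R2.EQP.refl (kap u)) := QU_lift QC_refl
  have hf : NPC.Poly (fun u : List Bool => fin (kap u)) := QU_lift QC_fin
  have hp : NPC.Poly (fun u : List Bool => prepG (kap u)) := QU_lift QC_prep
  have h : NPC.Poly (fun u : List Bool => ((List.replicate (6 + 3 * kap u) () : List Unit),
      prepG (kap u) ++ QU_AG u ++ Pool.Agent.H516R2.EQP.refl (kap u) :: QU_AtG u ++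
        Pool.Agent.H516R2.EQP.refl (kap u) :: QU_AG u ++ [fin (kap u)])) := by
    refine NPC.Poly.pair h1 ?_
    exact NPC.Poly.append (NPC.Poly.append (NPC.Poly.append (NPC.Poly.append hp QU_AP)
      (NPC.Poly.cons hr QU_AtP)) (NPC.Poly.cons hr QU_AP))
      (NPC.Poly.cons hf (NPC.Poly.const []))
  exact h

/-! ### number of questions -/

theorem QU_cnt_A (u : List Bool) : QC_cnt (QU_AG u) = 2 := by
  unfold QU_AG QU_orc1 QU_orc2
  rw [QC_cnt_append, QC_cnt_append, QC_cnt_true, QC_cnt_true, QC_cnt_had, QC_cnt_had]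

theorem QU_cnt_At (u : List Bool) : QC_cnt (QU_AtG u) = 2 := by
  unfold QU_AtG QU_orc1 QU_orc2
  rw [QC_cnt_append, QC_cnt_append, QC_cnt_true, QC_cnt_true, QC_cnt_had, QC_cnt_had]

theorem QU_queries (u : List Bool) : queries (QU_circ u) = 6 := by
  show QC_cnt (prepG (kap u) ++ QU_AG u ++ Pool.Agent.H516R2.EQP.refl (kap u) :: QU_AtG u ++
    Pool.Agent.H516R2.EQP.refl (kap u) :: QU_AG u ++ [fin (kap u)]) = 6
  unfold Pool.Agent.H516R2.EQP.refl fin
  rw [QC_cnt_append, QC_cnt_append, QC_cnt_append, QC_cnt_append, QC_cnt_false, QC_cnt_false,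
    QC_cnt_false, QC_cnt_prep, QU_cnt_A, QU_cnt_At, QC_cnt_nil]

theorem QU (hqf : St_QF) : St_QU := by
  refine ⟨QU_circ, polyTime_bits QU_circP, fun u => ⟨(QU_queries u).le, fun A => ?_⟩⟩
  rw [QU_acc, hqf]
  rfl

end Pool.Agent.H516R2.EQP3
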