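import Pool.Agent.H516R2.EQP3.Props
import Pool.Agent.H516R2.EQP.R1

/-!
# Task R1q: rounding, with error `2 / lam ^ 2`
-/

set_option autoImplicit false

namespace Pool.Agent.H516R2.EQP3

open Pool.Agent.NPC Pool.Agent.H620R2.Gauge Finset H568R2 Pool.Agent.H676 Pool.Agent.H516R2.EQP
  Pool.Agent.H516R2.EQP2

lemma R1q_mom (hB : St_B) (κ : ℕ) (P : U κ ⊕ U κ → ℝ) (hP : Box P) :
    ml (fun a : U κ ⊕ U κ → Bool => ((FF a : ℝ) / 8 ^ κ - Sf P) ^ 2) P ≤ 2 / 4 ^ κ := by
  classical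
  obtain ⟨hsym, habs, horth, hiso, -, -, -, -, hcard, -⟩ := hB κ
  set X : U κ → ℝ := fun u => P (Sum.inl u) with hX
  set Y : U κ → ℝ := fun v => P (Sum.inr v) with hY
  have hXb : Box X := fun u => hP _
  have hYb : Box Y := fun v => hP _
  have h4 : (0 : ℝ) < 4 ^ κ := by positivity
  have h2 : (0 : ℝ) < 2 ^ κ := by positivity
  have h42 : ((2 : ℝ) ^ κ) ^ 2 = 4 ^ κ := by rw [← pow_mul, mul_comm, pow_mul]; norm_num
  have hsq : ∀ Z : U κ → ℝ, Box Z → ∑ u, Z u ^ 2 ≤ 4 ^ κ := by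
    intro Z hZ
    calc ∑ u, Z u ^ 2 ≤ ∑ u : U κ, (1 : ℝ) := by
          apply Finset.sum_le_sum
          intro u _
          have := abs_le.1 (hZ u)
          nlinarith [this.1, this.2]
      _ = 4 ^ κ := by
          rw [Finset.sum_const, Finset.card_univ, hcard]
          simp
  -- second moment
  have hmom : ml (fun a : U κ ⊕ U κ → Bool => ((FF a : ℝ) / 8 ^ κ - Sf P) ^ 2) P ≤ 2 / 4 ^ κ := by
    rw [R1_split]
    have hin : ∀ x : U κ → Bool, ml (fun y : U κ → Bool =>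
        ((FF (Sum.elim x y) : ℝ) / 8 ^ κ - Sf P) ^ 2) Y ≤
        (0 + ∑ u, ((∑ v, Hd u v * Y v) / 4 ^ κ) * (sg (x u) - X u)) ^ 2 + 1 / 4 ^ κ := by
      intro x
      have e : (fun y : U κ → Bool => ((FF (Sum.elim x y) : ℝ) / 8 ^ κ - Sf P) ^ 2) =
          fun y => ((0 + ∑ u, ((∑ v, Hd u v * Y v) / 4 ^ κ) * (sg (x u) - X u)) +
            ∑ v, ((∑ u, Hd v u * sg (x u)) / 4 ^ κ) * (sg (y v) - Y v)) ^ 2 := by
        funext y
        congr 1
        rw [R1_FF, Sf, zero_add]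
        have a1 : ∑ u, ((∑ v, Hd u v * Y v) / 4 ^ κ) * (sg (x u) - X u) =
            (∑ u, ∑ v, (sg (x u) - X u) * Hd u v * Y v) / 4 ^ κ := by
          rw [Finset.sum_div]
          apply Finset.sum_congr rfl
          intro u _
          rw [div_mul_eq_mul_div, Finset.sum_mul]
          congr 1
          apply Finset.sum_congr rfl
          intro v _
          ring
        have a2 : ∑ v, ((∑ u, Hd v u * sg (x u)) / 4 ^ κ) * (sg (y v) - Y v) =
            (∑ u, ∑ v, sg (x u) * Hd u v * (sg (y v) - Y v)) / 4 ^ κ := by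
          rw [Finset.sum_comm, Finset.sum_div]
          apply Finset.sum_congr rfl
          intro v _
          rw [div_mul_eq_mul_div, Finset.sum_mul]
          congr 1
          apply Finset.sum_congr rfl
          intro u _
          rw [hsym v u]
          ring
        rw [a1, a2, ← sub_div, ← add_div]
        congr 1
        rw [← Finset.sum_sub_distrib, ← Finset.sum_add_distrib]
        apply Finset.sum_congr rfl
        intro u _
        rw [← Finset.sum_sub_distrib, ← Finset.sum_add_distrib]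
        apply Finset.sum_congr rfl
        intro v _
        simp only [hX, hY]
        ring
      rw [e, R1_sq]
      gcongr
      calc ∑ v, ((∑ u, Hd v u * sg (x u)) / 4 ^ κ) ^ 2 * (1 - Y v ^ 2)
          ≤ ∑ v, ((∑ u, Hd v u * sg (x u)) / 4 ^ κ) ^ 2 := by
            apply Finset.sum_le_sum
            intro v _
            have : 0 ≤ ((∑ u, Hd v u * sg (x u)) / 4 ^ κ) ^ 2 * Y v ^ 2 := by positivity
            linarith
        _ = (∑ v, (∑ u, Hd v u * sg (x u)) ^ 2) / (4 ^ κ) ^ 2 := by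
            rw [Finset.sum_div]
            apply Finset.sum_congr rfl
            intro v _
            rw [div_pow]
        _ = (∑ u, sg (x u) ^ 2) / (4 ^ κ) ^ 2 := by rw [hiso]
        _ = 1 / 4 ^ κ := by
            have : ∀ u ∈ (univ : Finset (U κ)), sg (x u) ^ 2 = (1 : ℝ) := by
              intro u _
              cases x u <;> simp [sg]
            rw [Finset.sum_congr rfl this, Finset.sum_const, Finset.card_univ, hcard]
            field_simp
            simp
    calc ml (fun x : U κ → Bool => ml (fun y : U κ → Bool =>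
        ((FF (Sum.elim x y) : ℝ) / 8 ^ κ - Sf P) ^ 2) Y) X
        ≤ ml (fun x : U κ → Bool =>
          (fun x : U κ → Bool =>
            (0 + ∑ u, ((∑ v, Hd u v * Y v) / 4 ^ κ) * (sg (x u) - X u)) ^ 2) x +
            (fun _ => 1 / 4 ^ κ) x) X := R1_mono hXb hin
      _ = (∑ u, ((∑ v, Hd u v * Y v) / 4 ^ κ) ^ 2 * (1 - X u ^ 2)) + 1 / 4 ^ κ := by
          rw [R1_add, R1_sq, R1_const]
          ring
      _ ≤ 1 / 4 ^ κ + 1 / 4 ^ κ := by
          gcongr
          calc ∑ u, ((∑ v, Hd u v * Y v) / 4 ^ κ) ^ 2 * (1 - X u ^ 2)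
              ≤ ∑ u, ((∑ v, Hd u v * Y v) / 4 ^ κ) ^ 2 := by
                apply Finset.sum_le_sum
                intro v _
                have : 0 ≤ ((∑ u, Hd v u * Y u) / 4 ^ κ) ^ 2 * X v ^ 2 := by positivity
                linarith
            _ = (∑ v, (∑ u, Hd v u * Y u) ^ 2) / (4 ^ κ) ^ 2 := by
                rw [Finset.sum_div]
                apply Finset.sum_congr rfl
                intro v _
                rw [div_pow]
            _ = (∑ u, Y u ^ 2) / (4 ^ κ) ^ 2 := by rw [hiso]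
            _ ≤ 4 ^ κ / (4 ^ κ) ^ 2 := by
                gcongr
                exact hsq Y hYb
            _ = 1 / 4 ^ κ := by
                field_simp
      _ = 2 / 4 ^ κ := by ring
  exact hmom

theorem R1q (hB : St_B) : St_R1q := by
  classical
  intro κ P lam hP hlam
  have hmom := R1q_mom hB κ P hP
  have h42 : ((2 : ℝ) ^ κ) ^ 2 = 4 ^ κ := by rw [← pow_mul, mul_comm, pow_mul]; norm_num
  have hl2 : (0 : ℝ) < lam ^ 2 := by positivity
  -- Chebyshev
  have hpt : ∀ a : U κ ⊕ U κ → Bool,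
      (fun _ : U κ ⊕ U κ → Bool => (1 : ℝ)) a + (fun a => (-(4 ^ κ / lam ^ 2)) *
        (fun a : U κ ⊕ U κ → Bool => ((FF a : ℝ) / 8 ^ κ - Sf P) ^ 2) a) a ≤
      if |(FF a : ℝ) / 8 ^ κ - Sf P| ≤ lam / 2 ^ κ then (1 : ℝ) else 0 := by
    intro a
    simp only []
    split_ifs with h
    · have : 0 ≤ (4 : ℝ) ^ κ / lam ^ 2 * ((FF a : ℝ) / 8 ^ κ - Sf P) ^ 2 := by positivity
      linarith
    · push Not at h
      have h5 : (lam / 2 ^ κ : ℝ) ^ 2 ≤ |(FF a : ℝ) / 8 ^ κ - Sf P| ^ 2 := by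
        gcongr
      rw [sq_abs, div_pow, h42] at h5
      have h6 : (4 : ℝ) ^ κ / lam ^ 2 * (lam ^ 2 / 4 ^ κ) ≤
          4 ^ κ / lam ^ 2 * ((FF a : ℝ) / 8 ^ κ - Sf P) ^ 2 := by gcongr
      have h7 : (4 : ℝ) ^ κ / lam ^ 2 * (lam ^ 2 / 4 ^ κ) = 1 := by
        field_simp
      linarith
  have hfin := R1_mono hP hpt
  rw [R1_add, R1_const, R1_smul] at hfin
  have h8 : (4 : ℝ) ^ κ / lam ^ 2 * ml (fun a : U κ ⊕ U κ → Bool =>
      ((FF a : ℝ) / 8 ^ κ - Sf P) ^ 2) P ≤ 4 ^ κ / lam ^ 2 * (2 / 4 ^ κ) := by gcongr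
  have h9 : (4 : ℝ) ^ κ / lam ^ 2 * (2 / 4 ^ κ) = 2 / lam ^ 2 := by
    field_simp
  linarith

end Pool.Agent.H516R2.EQP3
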