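import Pool.Agent.H516R2.EQP3.Props
import Pool.Agent.H620R2.Gauge.T

/-!
# Task SL (helper872): average over a slice and average over the cube
-/

set_option autoImplicit false

namespace Pool.Agent.H516R2.EQP3

open Pool.Agent.NPC Pool.Agent.H620R2.Gauge Finset H568R2 Pool.Agent.H676 Pool.Agent.H516R2.EQP
  Pool.Agent.H516R2.EQP2

theorem SL_Ex_unif {I : Type*} [Fintype I] [DecidableEq I] (F : (I → Bool) → ℝ) :
    Ex unif F = av F := by
  unfold Ex av unif
  rw [Finset.sum_div]
  refine Finset.sum_congr rfl fun a _ => ?_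
  rw [Finset.prod_const, Finset.card_univ, one_div, inv_pow]
  ring

theorem SL_br {J : Type} (h : (J → Bool) → Bool) (z : J → Bool) :
    0 ≤ br h z ∧ br h z ≤ 1 := by
  unfold br
  split_ifs <;> norm_num

theorem SL (hc1 : St_C1) (hc2 : St_C2) (hz : St_Z2q) : St_SL := by
  classical
  intro J _ _ t d r s' Q ε lam s h hQ0 hQ1 hlam hM hsw hev hs hdr hr1 hr
  have hu : ∑ b : Bool, unif b = 1 := by
    rw [Fintype.sum_bool]
    unfold unif
    norm_num
  have hu0 : ∀ b : Bool, 0 ≤ unif b := by
    intro b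
    unfold unif
    norm_num
  have hw0 : ∀ a, 0 ≤ wq Q a := wq_nonneg hQ0 hQ1
  have z2 := hz J Q lam r s' hQ0 hQ1 hlam hr1 hM hr
  have c1 := hc1 J Q d r s (br h) hQ0 hQ1 hdr hev
  obtain ⟨RR, hRR⟩ : ∃ RR, RR = Ex (wq Q) (fun ρ : Restr J => Ex unif (fun w : J → Bool =>
    if Room s d r ρ w then (1 : ℝ) else 0)) := ⟨_, rfl⟩
  obtain ⟨δ, hδ⟩ : ∃ δ : ℝ, δ = 1 / lam ^ 2 + 4 / (Fintype.card J : ℝ) + 2 * r * (1 - Q) ^ s' :=
    ⟨_, rfl⟩
  rw [← hδ] at z2
  rw [← hRR] at c1
  have hδ0 : 0 ≤ δ := by
    rw [hδ]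
    have : 0 ≤ 1 - Q := by linarith
    positivity
  -- room has large probability
  have hroom : 1 ≤ RR + δ := by
    have hpt : ∀ (ρ : Restr J) (w : J → Bool), (1 : ℝ) ≤ (if Room s d r ρ w then (1 : ℝ) else 0) +
        (if (|SS (ov ρ w)| : ℝ) ≤ lam * Real.sqrt (Fintype.card J) ∧
        r ≤ (univ.filter (fun i => ρ i = none ∧ w i = true)).card ∧
        r ≤ (univ.filter (fun i => ρ i = none ∧ w i = false)).card then (0 : ℝ) else 1) := by
      intro ρ w
      by_cases hG : (|SS (ov ρ w)| : ℝ) ≤ lam * Real.sqrt (Fintype.card J) ∧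
        r ≤ (univ.filter (fun i => ρ i = none ∧ w i = true)).card ∧
        r ≤ (univ.filter (fun i => ρ i = none ∧ w i = false)).card
      · rw [if_pos hG, if_pos, add_zero]
        constructor
        · have h3 : (|((SS (ov ρ w) - s : ℤ) : ℝ)|) ≤ 2 * (d : ℝ) := by
            push_cast
            refine (abs_sub _ _).trans ?_
            linarith [hG.1]
          have h4 : (((|SS (ov ρ w) - s| : ℤ)) : ℝ) ≤ ((2 * (d : ℤ) : ℤ) : ℝ) := by
            rw [Int.cast_abs]
            push_cast at h3 ⊢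
            exact h3
          have h5 : |SS (ov ρ w) - s| ≤ 2 * (d : ℤ) := by exact_mod_cast h4
          unfold DS
          omega
        · unfold TS
          cases hfb : fb s (ov ρ w)
          · exact hG.2.2
          · exact hG.2.1
      · rw [if_neg hG]
        have : (0 : ℝ) ≤ (if Room s d r ρ w then (1 : ℝ) else 0) := by
          split_ifs <;> norm_num
        linarith
    have h5 : (1 : ℝ) = Ex (wq Q) (fun _ : Restr J => Ex unif (fun _ : J → Bool => (1 : ℝ))) := by
      rw [Ex_const hu, Ex_const (wq_sum _)]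
    have h6 := Ex_mono (w := wq Q) hw0 (I := J) (fun ρ : Restr J =>
      Ex_mono (w := unif) hu0 (I := J) (fun w => hpt ρ w))
    rw [← h5] at h6
    simp only [Ex_add] at h6
    rw [← hRR] at h6
    linarith
  -- comparison
  have hsl : sl s (br h) * RR ≤ av (br h) + ((t * d / r : ℝ) + ε) := by
    rw [← c1]
    have hpt : ∀ (ρ : Restr J) (w : J → Bool), (if Room s d r ρ w then fa s (br h) ρ w else 0) ≤
        br h (ov ρ w) + ((t * d / r : ℝ) + if ¬ DTr t (rs h ρ) then (1 : ℝ) else 0) := by
      intro ρ w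
      have hb := SL_br h (ov ρ w)
      have htd : (0 : ℝ) ≤ t * d / r := by positivity
      by_cases hR : Room s d r ρ w
      · rw [if_pos hR]
        by_cases hD : DTr t (rs h ρ)
        · rw [if_neg (not_not.2 hD), add_zero]
          exact hc2 J t d r s h ρ w hdr hr1 hD hR
        · rw [if_pos hD]
          have : fa s (br h) ρ w ≤ 1 := by
            unfold fa
            refine div_le_one_of_le₀ ?_ (Nat.cast_nonneg _)
            calc _ ≤ ∑ F ∈ (TS s ρ w).powersetCard (DS s (ov ρ w)), (1 : ℝ) :=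
                  Finset.sum_le_sum fun F _ => (SL_br h _).2
              _ = _ := by rw [Finset.sum_const, nsmul_eq_mul, mul_one]
          linarith
      · rw [if_neg hR]
        have : (0 : ℝ) ≤ (if ¬ DTr t (rs h ρ) then (1 : ℝ) else 0) := by
          split_ifs <;> norm_num
        linarith [hb.1]
    have h6 := Ex_mono (w := wq Q) hw0 (I := J) (fun ρ : Restr J =>
      Ex_mono (w := unif) hu0 (I := J) (fun w => hpt ρ w))
    refine h6.trans ?_
    simp only [Ex_add]
    have e1 : Ex (wq Q) (fun ρ : Restr J => Ex unif (fun w : J → Bool => br h (ov ρ w))) =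
        av (br h) := by
      rw [Ex_ov, SL_Ex_unif]
    have e2 : Ex (wq Q) (fun _ : Restr J => Ex unif (fun _ : J → Bool => (t * d / r : ℝ))) =
        (t * d / r : ℝ) := by
      rw [Ex_const hu, Ex_const (wq_sum _)]
    have e3 : Ex (wq Q) (fun ρ : Restr J => Ex unif (fun _ : J → Bool =>
        if ¬ DTr t (rs h ρ) then (1 : ℝ) else 0)) ≤ ε := by
      refine le_trans (le_of_eq ?_) hsw
      congr 1
      funext ρ
      rw [Ex_const hu]
    rw [e1, e2]
    linarith
  -- the average over the slice is between 0 and 1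
  have hsl0 : 0 ≤ sl s (br h) := by
    unfold sl
    refine div_nonneg (Finset.sum_nonneg fun z _ => ?_) (Nat.cast_nonneg _)
    split_ifs
    · exact (SL_br h z).1
    · exact le_rfl
  have hsl1 : sl s (br h) ≤ 1 := by
    unfold sl
    refine div_le_one_of_le₀ ?_ (Nat.cast_nonneg _)
    calc _ ≤ ∑ z : J → Bool, (if SS z = s then (1 : ℝ) else 0) :=
          Finset.sum_le_sum fun z _ => by
            split_ifs
            · exact (SL_br h z).2
            · exact le_rfl
      _ = _ := by rw [Finset.sum_boole]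
  have hfin : sl s (br h) ≤ sl s (br h) * RR + δ := by
    have h1 : sl s (br h) * (1 - RR) ≤ sl s (br h) * δ :=
      mul_le_mul_of_nonneg_left (by linarith) hsl0
    have h2 : sl s (br h) * δ ≤ 1 * δ := mul_le_mul_of_nonneg_right hsl1 hδ0
    linarith
  rw [← hδ]
  linarith

end Pool.Agent.H516R2.EQP3
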