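import Pool.Agent.H516R2.EQP3.Props
import Pool.Agent.H516R2.EQP.H2

/-! # Two-sided indistinguishability -/

set_option autoImplicit false

namespace Pool.Agent.H516R2.EQP3

open Pool.Agent.NPC Pool.Agent.H620R2.Gauge Finset H568R2 Pool.Agent.H676 Pool.Agent.H516R2.EQP
  Pool.Agent.H516R2.EQP2

theorem ST_av {I : Type*} [Fintype I] [DecidableEq I] (g : (I → Bool) → ℝ)
    (e : (I → Bool) ≃ (I → Bool)) : av (fun a => g (e a)) = av g := by
  unfold av
  rw [Equiv.sum_comp e g]

theorem ST (h : St_STY) : St_ST := by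
  intro J p
  obtain ⟨m₀, h0⟩ := h J p
  refine ⟨m₀, fun m hm hp Ω _ _ h ε b hε hG hI => ?_⟩
  cases b with
  | true =>
    refine h0 m hm hp Ω h ε hε (fun ω => ?_) (fun a ha => hI a ha)
    have h1 := hG ω (fun _ => false)
    simpa using h1
  | false =>
    have h1 := h0 m hm hp Ω (fun ω a => h ω (H2_e a)) ε hε (fun ω => hG ω H2_c)
      (fun a ha => hI (H2_e a) (H2_yes a ha))
    have h2 : ∀ ω, av (br (fun a => h ω (H2_e a))) = av (br (h ω)) := fun ω =>
      ST_av (br (h ω)) H2_e
    simp only [h2] at h1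
    exact h1

end Pool.Agent.H516R2.EQP3
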