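import Pool.Agent.H516R2.EQP2.All
import Pool.Agent.H516R2.EQP3.P5q
import Pool.Agent.H516R2.EQP3.R1q
import Pool.Agent.H516R2.EQP3.CMq
import Pool.Agent.H516R2.EQP3.Z2q
import Pool.Agent.H516R2.EQP3.C1
import Pool.Agent.H516R2.EQP3.C2
import Pool.Agent.H516R2.EQP3.SL
import Pool.Agent.H516R2.EQP3.NE
import Pool.Agent.H516R2.EQP3.ASq
import Pool.Agent.H516R2.EQP3.STY
import Pool.Agent.H516R2.EQP3.ST
import Pool.Agent.H516R2.EQP3.EX
import Pool.Agent.H516R2.EQP3.PU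
import Pool.Agent.H516R2.EQP3.QU
import Pool.Agent.H516R2.EQP3.HY
import Pool.Agent.H516R2.EQP3.PS
import Pool.Agent.H516R2.EQP3.CL
import Pool.Agent.H516R2.EQP3.BL
import Pool.Agent.H516R2.EQP3.VL
import Pool.Agent.H516R2.EQP3.DG
import Pool.Agent.H516R2.EQP3.GX
import Pool.Agent.H516R2.EQP3.XS
import Pool.Agent.H516R2.EQP3.FX

/-! The assembly of the third part. -/

namespace Pool.Agent.H516R2.EQP3

open Pool.Agent.H516R2.EQP Pool.Agent.H516R2.EQP2

theorem all_CMq : St_CMq :=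
  CMq (M4 (M3 (M1 B) M2) (P3 B)) (P5q (P3 B) (P4 (P1 B) (P2 B) (P3 B))) (R1q B) (P3 B)

theorem all_ST : St_ST := ST (STY B (L2p L1) (SL C1 C2 Z2q) NE all_CMq ASq)

theorem all_PU : St_PU := PU AL

theorem all_QU : St_QU := QU (task_QF QL QG)

theorem all_CL : St_CL := CL all_PU (EX NE)

theorem all_HY : St_HY := HY all_PU all_ST

theorem all_VL : St_VL := VL all_PU

theorem all_FX : St_FX :=
  FX all_PU all_QU PS all_CL DG
    (XS all_PU (GX all_PU RT (SW LO RT)) all_HY all_CL BL all_VL) CO CP LO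

end Pool.Agent.H516R2.EQP3
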