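import Pool.Agent.H516R2.EQP3.PropsY
import Pool.Agent.H591R3.PHG.LangTr

/-! Task LF: the leaves. -/

set_option autoImplicit false

namespace Pool.Agent.H516R2.EQP3

open Pool.Agent.NPC Pool.Agent.H620R2.Gauge Finset H568R2 Pool.Agent.H676 Pool.Agent.H516R2.EQP
  Pool.Agent.H516R2.EQP2 Pool.Agent.H591R3.PHG

theorem LF_addr {X : Type} (xs : X → List Bool) (as : List ℕ) (g : Idx X (pw as)) :
    ∃ (j : X) (r : List Bool), addr xs as g = xs j ++ r := by
  induction as with
  | nil => exact ⟨g, [], (List.append_nil _).symm⟩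
  | cons a as ih =>
    have key : ∀ (g1 : Idx X (pw as)) (i : Fin (2 ^ a)),
        ∃ (j : X) (r : List Bool), addr xs as g1 ++ bitsOf a i.val = xs j ++ r := by
      intro g1 i
      obtain ⟨j, r, h⟩ := ih g1
      exact ⟨j, r ++ bitsOf a i.val, by rw [h, List.append_assoc]⟩
    exact key g.1 g.2

theorem LF_enc (as : List ℕ) (hne : as ≠ []) (has : ∀ a ∈ as, 1 ≤ a) (w : ℕ) (z : List Bool) :
    ∃ r, enc as w z = true :: r := by
  obtain ⟨as', a, rfl⟩ : ∃ as' a, as = as' ++ [a] :=
    ⟨as.dropLast, as.getLast hne, (List.dropLast_append_getLast hne).symm⟩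
  have ha : 1 ≤ a := has a (by simp)
  obtain ⟨b, rfl⟩ : ∃ b, a = b + 1 := ⟨a - 1, by omega⟩
  unfold enc
  rw [List.foldl_append, List.foldl_cons, List.foldl_nil]
  unfold pairBits
  rw [List.replicate_succ, List.flatMap_cons]
  exact ⟨_, rfl⟩

theorem LF_shape (as : List ℕ) (n K : ℕ) (g : Idx (Fin K) (8 * n :: pw as)) :
    ∃ (j : Fin K) (r : List Bool), lf as n K g = inp as n K j ++ r := by
  obtain ⟨j, r, h⟩ := LF_addr (inp as n K) as g.1
  refine ⟨j, r ++ List.replicate g.2.val true, ?_⟩
  unfold lf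
  rw [h, List.append_assoc]

theorem LF : St_LF := by
  intro as n k K hk has hK
  have hne : as ≠ [] := by
    intro h
    rw [h] at hk
    simp at hk
  have hinj : ∀ g g', lf as n K g = lf as n K g' → g = g' := fun g g' h =>
    leaf_inj (inp as n K) (inp_inj as n K hK) _ (fun j => inp_len as n K j) as (8 * n) h
  refine ⟨hinj, ?_, ?_, ?_, ?_⟩
  · intro g u hu
    obtain ⟨j, r, h⟩ := LF_shape as n K g
    obtain ⟨r', h'⟩ := LF_enc as hne has (8 * n) (bitsOf (n + 11) j.val)
    have h1 := hu.1
    rw [h] at h1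
    unfold H591R3.PHG.inp at h1
    rw [h', show 2 + u.length = (1 + u.length) + 1 by omega, List.cons_append,
      List.take_succ_cons] at h1
    have h2 := (List.cons.inj h1).1
    exact Bool.noConfusion h2
  · intro g
    obtain ⟨j, r, h⟩ := LF_shape as n K g
    rw [h, List.length_append, inp_len]
    omega
  · intro z B g
    unfold ovw
    have hex : ∃ g', lf as n K g' = lf as n K g := ⟨g, rfl⟩
    rw [dif_pos hex]
    congr 1
    exact hinj _ _ hex.choose_spec
  · intro A z hA j
    have h1 := mem_lang_iff A k as hk (8 * n) (fun j : Fin K => bitsOf (n + 11) j.val) j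
    have h2 : leaves (fun j : Fin K => enc as (8 * n) (bitsOf (n + 11) j.val)) as (8 * n) A = z := by
      funext g
      exact hA g
    rw [h2] at h1
    exact h1

end Pool.Agent.H516R2.EQP3
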