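import Pool.Agent.H516R2.EQP3.PropsY
import Pool.Agent.H620R2.Gauge.A1

/-!
# Locality of the hard language and of quantified oracle algorithms
-/

set_option autoImplicit false

namespace Pool.Agent.H516R2.EQP3

open Pool.Agent.NPC Pool.Agent.H620R2.Gauge Finset H568R2 Pool.Agent.H676 Pool.Agent.H516R2.EQP
  Pool.Agent.H516R2.EQP2 Pool.Agent.H591R3.PHG

theorem LL_fold (w : ℕ) (as : List ℕ) : ∀ q : List Bool, ∃ N : ℕ, ∀ A A' : Oracle,
    (∀ z : List Bool, z.length ≤ N → A z = A' z) →
    (as.foldr up (bitv A w)) q = (as.foldr up (bitv A' w)) q := by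
  induction as with
  | nil =>
    intro q
    refine ⟨q.length + w, fun A A' h => ?_⟩
    simp only [List.foldr_nil]
    unfold bitv
    rw [decide_eq_decide]
    refine forall_congr' fun l => forall_congr' fun hl => ?_
    rw [h]
    rw [List.length_append, List.length_replicate]
    omega
  | cons a as ih =>
    intro q
    choose N hN using fun i : ℕ => ih (q ++ bitsOf a i)
    refine ⟨(Finset.range (2 ^ a)).sup N, fun A A' h => ?_⟩
    show decide (∀ i < 2 ^ a, (List.foldr up (bitv A w) as) (q ++ bitsOf a i) = false) =
      decide (∀ i < 2 ^ a, (List.foldr up (bitv A' w) as) (q ++ bitsOf a i) = false)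
    rw [decide_eq_decide]
    refine forall_congr' fun i => forall_congr' fun hi => ?_
    rw [hN i A A' fun z hz => h z (hz.trans (Finset.le_sup (f := N) (Finset.mem_range.2 hi)))]

theorem LL_qf (M : Alg) (m k : ℕ) : ∀ (b : Bool) (y : List Bool), ∃ N : ℕ, ∀ A A' : Oracle,
    (∀ z : List Bool, z.length ≤ N → A z = A' z) → QO M m k b y A = QO M m k b y A' := by
  classical
  induction k with
  | zero =>
    intro b y
    obtain ⟨qb, hqb⟩ := M.out_local
    refine ⟨qb.eval y.length, fun A A' h => ?_⟩
    have h1 : M.out A' y = M.out A y := by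
      obtain ⟨Q, -, hQ2, hQ3⟩ := hqb A y
      exact hQ3 A' fun q hq => (h q (hQ2 q hq)).symm
    cases b <;> · unfold QO QF; simp only [h1]
  | succ k ih =>
    intro b y
    have hfin : Set.Finite {w : List Bool | w.length ≤ m} := List.finite_length_le Bool m
    choose N hN using fun w : List Bool => ih (!b) (pairBits w y)
    refine ⟨hfin.toFinset.sup N, fun A A' h => ?_⟩
    have key : ∀ w : List Bool, w.length ≤ m →
        QO M m k (!b) (pairBits w y) A = QO M m k (!b) (pairBits w y) A' := by
      intro w hw
      refine hN w A A' fun z hz => h z (hz.trans ?_)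
      exact Finset.le_sup (f := N) (by simpa using hw)
    unfold QO at key ⊢
    cases b with
    | true =>
      simp only [QF, Bool.not_true] at key ⊢
      rw [decide_eq_decide]
      refine exists_congr fun w => and_congr_right fun hw => ?_
      rw [key w hw]
    | false =>
      simp only [QF, Bool.not_false] at key ⊢
      rw [decide_eq_decide]
      refine forall_congr' fun w => forall_congr' fun hw => ?_
      rw [key w hw]

theorem LL : St_LL := by
  refine ⟨fun k x => ?_, fun M m k b y => LL_qf M m k b y⟩
  obtain ⟨N, hN⟩ := LL_fold (unpair (parse (k + 1) x).2).1.length (parse (k + 1) x).1 x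
  refine ⟨N, fun A A' h => ?_⟩
  unfold Pool.Agent.H591R3.PHG.lang
  rw [Set.mem_setOf_eq, Set.mem_setOf_eq, hN A A' h]

end Pool.Agent.H516R2.EQP3
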