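import Pool.Agent.H516R2.EQP3.PropsY
import Pool.Agent.H516R2.EQP2.RT

/-! Oracle algorithms are decision trees in the bits at the leaves (helper228) -/

set_option autoImplicit false

namespace Pool.Agent.H516R2.EQP3

open Pool.Agent.NPC Pool.Agent.H620R2.Gauge Finset H568R2 Pool.Agent.H676 Pool.Agent.H516R2.EQP
  Pool.Agent.H516R2.EQP2 Pool.Agent.H591R3.PHG

theorem QD_fil (hp : St_PU) (w : List Bool) : ∀ (us : List (List Bool)) (ω : FT us),
    (∀ B1 B2 : Oracle, fil us ω B1 w = fil us ω B2 w) ∨ ∀ B : Oracle, fil us ω B w = B w := by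
  intro us
  induction us with
  | nil => intro ω; exact Or.inr fun B => rfl
  | cons u us ih =>
    intro ω
    rcases ih ω.2 with h | h
    · left
      intro B1 B2
      exact h _ _
    · by_cases hw : InB u w
      · left
        intro B1 B2
        change fil us ω.2 (put u ω.1 B1) w = fil us ω.2 (put u ω.1 B2) w
        rw [h, h]
        exact hp.2.2.1 u w ω.1 B1 B2 hw
      · right
        intro B
        change fil us ω.2 (put u ω.1 B) w = B w
        rw [h]
        exact hp.2.1 u w ω.1 B hw

theorem QD (hp : St_PU) (hrt : St_RT) : St_QD := by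
  classical
  intro M as n K hinj hnb us ω B y
  have h := hrt (Idx (Fin K) (8 * n :: pw as)) (fun z => fil us ω (ovw as n K z B)) M y 1
    (fun w => ?_)
  · rw [one_mul] at h
    convert h
  · rcases QD_fil hp w us ω with h | h
    · exact DTr.const ⟨fil us ω B w, fun z => h _ _⟩
    · by_cases hg : ∃ g, lf as n K g = w
      · refine Or.inr ⟨hg.choose, fun b => ⟨b, fun z => ?_⟩⟩
        change fil us ω (ovw as n K (Function.update z hg.choose b) B) w = b
        rw [h]
        simp only [ovw, dif_pos hg, Function.update_self]
      · refine DTr.const ⟨B w, fun z => ?_⟩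
        rw [h]
        simp only [ovw, dif_neg hg]

end Pool.Agent.H516R2.EQP3
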