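import Pool.Agent.H516R2.EQP3.PropsY

/-!
# Task YS: one step of the construction
-/

set_option autoImplicit false

namespace Pool.Agent.H516R2.EQP3

open Pool.Agent.NPC Pool.Agent.H620R2.Gauge Finset H568R2 Pool.Agent.H676 Pool.Agent.H516R2.EQP
  Pool.Agent.H516R2.EQP2 Pool.Agent.H591R3.PHG

theorem YS_mono (p : Polynomial ℕ) {m n : ℕ} (h : m ≤ n) : p.eval m ≤ p.eval n := by
  induction p using Polynomial.induction_on' with
  | add p q hp hq =>
    rw [Polynomial.eval_add, Polynomial.eval_add]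
    exact add_le_add hp hq
  | monomial k a =>
    rw [Polynomial.eval_monomial, Polynomial.eval_monomial]
    exact Nat.mul_le_mul_left _ (Nat.pow_le_pow_left h _)

open Classical in
/-- union bound -/
theorem YS_union {Ω : Type} [Fintype Ω] [Nonempty Ω] {K : ℕ} (G : Fin K → Ω → Bool) (δ : ℝ)
    (h : ∀ j, 1 - δ ≤ (∑ ω, if G j ω then (1 : ℝ) else 0) / (Fintype.card Ω : ℝ)) :
    1 - K * δ ≤ (∑ ω, if (∀ j, G j ω = true) then (1 : ℝ) else 0) / (Fintype.card Ω : ℝ) := by
  have hc : (0 : ℝ) < (Fintype.card Ω : ℝ) := by exact_mod_cast Fintype.card_pos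
  have h1 : ∀ j, (1 - δ) * (Fintype.card Ω : ℝ) ≤ ∑ ω, if G j ω then (1 : ℝ) else 0 := by
    intro j
    have := h j
    rwa [le_div_iff₀ hc] at this
  rw [le_div_iff₀ hc]
  have h2 : ∀ ω : Ω, 1 - ∑ j, (1 - if G j ω then (1 : ℝ) else 0) ≤
      if (∀ j, G j ω = true) then (1 : ℝ) else 0 := by
    intro ω
    have hnn : ∀ j ∈ (univ : Finset (Fin K)), (0 : ℝ) ≤ 1 - if G j ω then (1 : ℝ) else 0 := by
      intro j _
      by_cases hj : G j ω = true
      · rw [if_pos hj]; norm_num
      · rw [if_neg hj]; norm_num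
    by_cases hall : ∀ j, G j ω = true
    · rw [if_pos hall]
      have := Finset.sum_nonneg hnn
      linarith
    · rw [if_neg hall]
      obtain ⟨j, hj⟩ := not_forall.1 hall
      have := Finset.single_le_sum hnn (Finset.mem_univ j)
      rw [if_neg hj] at this
      linarith
  have h3 := Finset.sum_le_sum (fun ω (_ : ω ∈ (univ : Finset Ω)) => h2 ω)
  refine le_trans ?_ h3
  rw [Finset.sum_sub_distrib, Finset.sum_comm, Finset.sum_const, Finset.card_univ]
  simp only [Finset.sum_sub_distrib, Finset.sum_const, Finset.card_univ, Fintype.card_fin,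
    nsmul_eq_mul, mul_one]
  have h4 := Finset.sum_le_sum (fun j (_ : j ∈ (univ : Finset (Fin K))) => h1 j)
  rw [Finset.sum_const, Finset.card_univ, Fintype.card_fin, nsmul_eq_mul] at h4
  nlinarith [h4]

theorem YS (hp : St_PU) (hh : St_HY) (hc : St_CL) (hb : St_BL) (hv : St_VL) (hml : St_ML)
    (hlf : St_LF) (hqd : St_QD) (hgy : St_GY) (hny : St_NY) (hll : St_LL) : St_YS := by
  intro hid C hHL M p k B N hVal
  by_contra hno
  have hno' : ∀ (B' : Oracle) (x : List Bool), Val (fun A => A) hid C B' →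
      (∀ z : List Bool, z.length ≤ N → B' z = B z) →
      (x ∈ lang k B' ↔ QO M (p.eval x.length) k true x B' = true) := by
    intro B' x h1 h2
    by_contra h3
    exact hno ⟨B', x, h1, h2, h3⟩
  have hLoc : Loc (fun A => A) := fun B B' w h => h w le_rfl
  obtain ⟨P, hP⟩ := hgy M k (p.comp (Lx k)) (Lx k)
  obtain ⟨m₀, hm₀⟩ := hh k P
  obtain ⟨hp1, hp2, hp3, hp4, hp5, hp6, hp7⟩ := hp
  obtain ⟨T, hT⟩ : ∃ T : Polynomial ℕ, T = Lx k + Polynomial.C k * (2 * p.comp (Lx k) + 1) :=
    ⟨_, rfl⟩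
  have hTe : ∀ n : ℕ, T.eval n = (Lx k).eval n + k * (2 * (p.comp (Lx k)).eval n + 1) := by
    intro n
    rw [hT]
    simp
  obtain ⟨n₀, hn₀⟩ := hny (M.p.comp T) T k
  obtain ⟨n, hn⟩ : ∃ n : ℕ, n = n₀ + N + m₀ := ⟨_, rfl⟩
  obtain ⟨h5n, hTn, hB1, hB2⟩ := hn₀ n (by omega)
  obtain ⟨v, hv8⟩ : ∃ v : ℕ, v = n / 8 := ⟨_, rfl⟩
  rw [← hv8] at hTn hB1 hB2
  obtain ⟨as, hask, has, hmain⟩ := hml n v k h5n (by omega)
  have hK1 : 2 ^ (v + 11) ≤ 2 ^ (n + 11) := Nat.pow_le_pow_right (by norm_num) (by omega)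
  obtain ⟨hlf1, hlf2, hlf3, hlf4, hlf5⟩ :=
    hlf as n k (2 ^ (v + 11)) hask (fun a ha => (has a ha).1) hK1
  obtain ⟨l, hl⟩ : ∃ l : ℕ, l = 2 * as.sum + as.length + 2 * (8 * n) + 1 + (n + 11) := ⟨_, rfl⟩
  have hlen : ∀ j, (inp as n (2 ^ (v + 11)) j).length = l := by
    intro j
    rw [hl]
    exact inp_len _ _ _ j
  have hlL : l ≤ (Lx k).eval n := by
    rw [hl]
    exact inp_len_le hask (fun a ha => (has a ha).2)
  obtain ⟨m, hm⟩ : ∃ m : ℕ, m = p.eval l := ⟨_, rfl⟩
  have hmL : m ≤ (p.comp (Lx k)).eval n := by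
    rw [hm, Polynomial.eval_comp]
    exact YS_mono p hlL
  have hex : ∀ j : Fin (2 ^ (v + 11)), ∃ N' : ℕ, ∀ A A' : Oracle,
      (∀ z : List Bool, z.length ≤ N' → A z = A' z) →
      QO M m k true (inp as n (2 ^ (v + 11)) j) A = QO M m k true (inp as n (2 ^ (v + 11)) j) A' :=
    fun j => hll.2 M m k true _
  choose Nj hNj using hex
  obtain ⟨N₁, hN₁, hN₁'⟩ : ∃ N₁ : ℕ, N ≤ N₁ ∧ ∀ j, Nj j ≤ N₁ :=
    ⟨N + ∑ j, Nj j, Nat.le_add_right _ _, fun j => le_trans
      (Finset.single_le_sum (fun _ _ => Nat.zero_le _) (Finset.mem_univ j)) (Nat.le_add_left _ _)⟩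
  obtain ⟨us, hnd, hpw, hus, hsum⟩ := hb C n N₁
  have hblen : ∀ u : List Bool, u.length < blen u := by
    intro u
    unfold blen
    omega
  have hovw : ∀ (z : Idx (Fin (2 ^ (v + 11))) (8 * n :: pw as) → Bool) (w : List Bool),
      (∀ g, lf as n (2 ^ (v + 11)) g ≠ w) → ovw as n (2 ^ (v + 11)) z B w = B w := by
    intro z w hw
    unfold ovw
    exact dif_neg (fun ⟨g, hg⟩ => hw g hg)
  have key : ∀ (z : Idx (Fin (2 ^ (v + 11))) (8 * n :: pw as) → Bool) (j : Fin (2 ^ (v + 11))),
      1 - (1 / 2 : ℝ) ^ n ≤ (∑ ω : FT us,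
        if (QO M m k true (inp as n (2 ^ (v + 11)) j) (fil us ω (ovw as n (2 ^ (v + 11)) z B)) ^^
          Tr (8 * n :: pw as) z j) then (1 : ℝ) else 0) / (Fintype.card (FT us) : ℝ) := by
    intro z j
    refine le_trans (by linarith) (hm₀ us hnd ?_ (fun u A => hid u A)
      (fun A => QO M m k true (inp as n (2 ^ (v + 11)) j) A ^^ Tr (8 * n :: pw as) z j) ?_
      (ovw as n (2 ^ (v + 11)) z B) ?_)
    · intro u hu
      have h3 := ((hus u).1 hu).1
      have h4 : n ≤ kap u := by unfold kap mu; omega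
      refine ⟨by unfold mu; omega, (hP u (inp as n (2 ^ (v + 11)) j) m ?_ ?_).1⟩
      · rw [hlen j]
        exact hlL.trans (YS_mono _ h4)
      · exact hmL.trans (YS_mono _ h4)
    · intro u hu A
      have h3 := ((hus u).1 hu).1
      have h4 : n ≤ kap u := by unfold kap mu; omega
      refine (hP u (inp as n (2 ^ (v + 11)) j) m ?_ ?_).2 A true (Tr (8 * n :: pw as) z j)
      · rw [hlen j]
        exact hlL.trans (YS_mono _ h4)
      · exact hmL.trans (YS_mono _ h4)
    · refine hv (fun A => A) hid C hLoc hHL us n N₁ hnd hpw hus _ (ovw as n (2 ^ (v + 11)) z B) ?_ ?_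
      · intro u hu hul
        have hal : al u (ovw as n (2 ^ (v + 11)) z B) = al u B := by
          apply hp5
          intro w hw
          apply hovw
          rintro g rfl
          exact hlf2 g u hw
        refine ⟨?_, fun h => ?_⟩
        · rw [hal]
          exact (hVal u).1
        · have hle : u.length ≤ n := by
            by_contra h5
            exact hu ((hus u).2 ⟨by omega, hul, h⟩)
          have hid2 : hid u (ovw as n (2 ^ (v + 11)) z B) = hid u B := by
            apply hHL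
            intro w hw
            apply hovw
            rintro g rfl
            have := hlf3 g
            omega
          rw [hal]
          show al u B = 1 / 2 ↔ hid u (ovw as n (2 ^ (v + 11)) z B) = true
          rw [hid2]
          exact (hVal u).2 h
      · intro B' hB' hcond
        obtain ⟨A', hA'1, hA'2⟩ := hc (fun A => A) hid C hLoc hHL B' N₁ hcond
        have h1 := hno' A' (inp as n (2 ^ (v + 11)) j) hA'2 (by
          intro w hw
          rw [hA'1 w (Or.inl (by omega)), hB' w, hovw]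
          · rintro g rfl
            have := hlf3 g
            omega
          · intro u hu hin
            have h2 : w.length = blen u := hin.2
            have h3 := ((hus u).1 hu).1
            have := hblen u
            omega)
        have h2 := hlf5 A' z (by
          intro g
          rw [hA'1 _ (Or.inr (fun u => hlf2 g u)), hB' _ (fun u _ => hlf2 g u)]
          exact hlf4 z B g) j
        rw [hlen j, ← hm] at h1
        have h3 : QO M m k true (inp as n (2 ^ (v + 11)) j) A' =
            QO M m k true (inp as n (2 ^ (v + 11)) j) B' :=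
          hNj j A' B' (fun w hw => hA'1 w (Or.inl (hw.trans (hN₁' j))))
        rw [h2, h3] at h1
        show (QO M m k true (inp as n (2 ^ (v + 11)) j) B' ^^ Tr (8 * n :: pw as) z j) = true
        cases hTr : Tr (8 * n :: pw as) z j with
        | false =>
          rw [h1.1 hTr]
          rfl
        | true =>
          have h4 : ¬ QO M m k true (inp as n (2 ^ (v + 11)) j) B' = true := by
            intro h5
            rw [h1.2 h5] at hTr
            exact Bool.false_ne_true hTr
          rw [Bool.not_eq_true] at h4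
          rw [h4]
          rfl
  classical
  have h34 : ∀ z : Idx (Fin (2 ^ (v + 11))) (8 * n :: pw as) → Bool, (3 / 4 : ℝ) ≤ (∑ ω : FT us,
      if (∀ j, (QO M m k true (inp as n (2 ^ (v + 11)) j)
        (fil us ω (ovw as n (2 ^ (v + 11)) z B)) ^^ Tr (8 * n :: pw as) z j) = true)
        then (1 : ℝ) else 0) / (Fintype.card (FT us) : ℝ) := by
    intro z
    have h1 := YS_union (fun (j : Fin (2 ^ (v + 11))) (ω : FT us) =>
      (QO M m k true (inp as n (2 ^ (v + 11)) j) (fil us ω (ovw as n (2 ^ (v + 11)) z B)) ^^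
        Tr (8 * n :: pw as) z j)) ((1 / 2 : ℝ) ^ n) (key z)
    refine le_trans ?_ h1
    push_cast
    linarith
  have hE : (3 / 4 : ℝ) ≤ Ex (ber (1 / 2)) (fun z : Idx (Fin (2 ^ (v + 11))) (8 * n :: pw as) → Bool =>
      (1 / (Fintype.card (FT us) : ℝ)) * ∑ ω : FT us,
      if (∀ j, (QO M m k true (inp as n (2 ^ (v + 11)) j)
        (fil us ω (ovw as n (2 ^ (v + 11)) z B)) ^^ Tr (8 * n :: pw as) z j) = true)
        then (1 : ℝ) else 0) := by
    have h1 := Ex_const (I := Idx (Fin (2 ^ (v + 11))) (8 * n :: pw as))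
      (ber_sum_m (1 / 2)) (3 / 4)
    rw [← h1]
    apply Ex_mono (ber_nonneg_m (by norm_num) (by norm_num))
    intro z
    have := h34 z
    rw [div_eq_mul_one_div _ (Fintype.card (FT us) : ℝ), mul_comm] at this
    exact this
  rw [Ex_smul, Ex_sum] at hE
  have hω : ∀ ω ∈ (univ : Finset (FT us)), Ex (ber (1 / 2))
      (fun z : Idx (Fin (2 ^ (v + 11))) (8 * n :: pw as) → Bool =>
      if (∀ j, (QO M m k true (inp as n (2 ^ (v + 11)) j)
        (fil us ω (ovw as n (2 ^ (v + 11)) z B)) ^^ Tr (8 * n :: pw as) z j) = true)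
        then (1 : ℝ) else 0) ≤ 1 / 4 := by
    intro ω _
    obtain ⟨F, hF⟩ : ∃ F : List Bool → (Idx (Fin (2 ^ (v + 11))) (8 * n :: pw as) → Bool) → Bool,
      F = fun y z => decide (M.out (fil us ω (ovw as n (2 ^ (v + 11)) z B)) y = some [true]) :=
      ⟨_, rfl⟩
    have hTm : (Lx k).eval n + k * (2 * m + 1) ≤ T.eval n := by
      rw [hTe]
      exact Nat.add_le_add_left (Nat.mul_le_mul_left _ (by omega)) _
    have hD : ∀ y : List Bool, y.length ≤ (Lx k).eval n + k * (2 * m + 1) →
        DTr (2 ^ (2 * v)) (F y) := by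
      intro y hy
      rw [hF]
      refine DTr.mono (hqd M as n (2 ^ (v + 11)) hlf1 hlf2 us ω B y) ?_
      refine le_trans (YS_mono M.p (hy.trans hTm)) ?_
      rw [← Polynomial.eval_comp]
      exact hTn
    have h1 := hmain m ((Lx k).eval n) F hD (inp as n (2 ^ (v + 11)))
      (fun j => by rw [hlen j]; exact hlL) true
    have h2 : (k : ℝ) * (2 ^ ((Lx k).eval n + k * (2 * m + 1) + 2) *
        (1 / 2) ^ (2 ^ (2 * v) + 1)) ≤
        k * (2 ^ (T.eval n + 2) * (1 / 2) ^ (2 ^ (2 * v) + 1)) := by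
      apply mul_le_mul_of_nonneg_left _ (Nat.cast_nonneg k)
      apply mul_le_mul_of_nonneg_right _ (by positivity)
      apply pow_le_pow_right₀ (by norm_num)
      omega
    refine le_trans ?_ (h1.trans (by linarith))
    unfold Ms
    apply Ex_mono (ber_nonneg_m (by norm_num) (by norm_num))
    intro z
    have hQ : ∀ j, QO M m k true (inp as n (2 ^ (v + 11)) j)
        (fil us ω (ovw as n (2 ^ (v + 11)) z B)) = QF m F k true (inp as n (2 ^ (v + 11)) j) z := by
      intro j
      rw [hF]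
      exact QF_comp (I := List Bool) m (fun y' A' => decide (M.out A' y' = some [true]))
        (fun z => fil us ω (ovw as n (2 ^ (v + 11)) z B)) k true _ z
    by_cases hall : ∀ j, (QO M m k true (inp as n (2 ^ (v + 11)) j)
        (fil us ω (ovw as n (2 ^ (v + 11)) z B)) ^^ Tr (8 * n :: pw as) z j) = true
    · rw [if_pos hall, if_pos]
      intro j
      have h3 := hall j
      rw [hQ j] at h3
      have h4 : val (fun _ => none) z = z := rfl
      rw [h4]
      intro h5
      have h5' : QF m F k true (inp as n (2 ^ (v + 11)) j) z = Tr (8 * n :: pw as) z j := h5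
      rw [h5', Bool.xor_self] at h3
      exact Bool.false_ne_true h3
    · rw [if_neg hall]
      split_ifs <;> norm_num
  have hcard : (0 : ℝ) < (Fintype.card (FT us) : ℝ) := by
    exact_mod_cast Fintype.card_pos
  have h6 := Finset.sum_le_sum hω
  rw [Finset.sum_const, Finset.card_univ, nsmul_eq_mul] at h6
  have h7 : (1 / (Fintype.card (FT us) : ℝ)) * ((Fintype.card (FT us) : ℝ) * (1 / 4)) = 1 / 4 := by
    field_simp
  have h8 := mul_le_mul_of_nonneg_left h6 (by positivity : (0 : ℝ) ≤ 1 / (Fintype.card (FT us) : ℝ))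
  rw [h7] at h8
  linarith

end Pool.Agent.H516R2.EQP3
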