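import Pool.Agent.H516R2.EQP3.All
import Pool.Agent.H516R2.EQP3.GY
import Pool.Agent.H516R2.EQP3.ML
import Pool.Agent.H516R2.EQP3.LF
import Pool.Agent.H516R2.EQP3.QD
import Pool.Agent.H516R2.EQP3.NY
import Pool.Agent.H516R2.EQP3.LL
import Pool.Agent.H516R2.EQP3.YS
import Pool.Agent.H516R2.EQP3.YF

/-! The assembly of the third part, second theorem. -/

namespace Pool.Agent.H516R2.EQP3

open Pool.Agent.H516R2.EQP Pool.Agent.H516R2.EQP2

theorem all_YS : St_YS :=
  YS all_PU all_HY all_CL BL all_VL ML LF (QD all_PU RT) (GY all_PU) NY LL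

theorem all_YF : St_YF := YF all_PU all_QU PS all_CL DG all_YS LL DQ

end Pool.Agent.H516R2.EQP3
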