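import Pool.Agent.H516R2.EQP3.PropsZ
import Pool.Agent.H516R2.EQP3.FX
import Pool.Agent.H591R3.PHG.LangSig

/-!
# The theorem: an infinite hierarchy although `PSPACE ⊆ EQP`, and `EQP ⊄ PH`
-/

set_option autoImplicit false

namespace Pool.Agent.H516R2.EQP3

open Pool.Agent.NPC Pool.Agent.H620R2.Gauge Finset H568R2 Pool.Agent.H676 Pool.Agent.H516R2.EQP
  Pool.Agent.H516R2.EQP2 Pool.Agent.H591R3.PHG

/-- `M` fails -/
def YP_bad (B : Oracle) (t : (Alg × Polynomial ℕ × ℕ) ⊕ (Alg × Polynomial ℕ × ℕ)) : Prop :=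
  match t with
  | Sum.inl (M, p, k) => ∃ x : List Bool, ¬ (x ∈ lang k B ↔ QO M (p.eval x.length) k true x B = true)
  | Sum.inr (M, p, k) => ∃ x : List Bool, ¬ (QO M (p.eval x.length) k true x B = true ↔
      al (false :: false :: x) B = 1 / 2)

theorem YP (hp : St_PU) (hq : St_QU) (hps : St_PS) (hc : St_CL) (hdg : St_DG) (hy : St_YS)
    (hz : St_YZ) (hll : St_LL) (hdq : St_DQ) : St_YP := by
  obtain ⟨hid, C, hH, hC0, hPS⟩ := hps
  obtain ⟨Cq, hCq, hCq'⟩ := hq
  obtain ⟨-, -, -, -, hal, -, -⟩ := hp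
  obtain ⟨hl1, hl2⟩ := hll
  have hLoc : Loc (fun A => A) := fun B B' w h => h w le_rfl
  have hval : ∀ (u : List Bool) (B B' : Oracle), (∀ z : List Bool, z.length ≤ blen u →
      B z = B' z) → al u B = al u B' := by
    intro u B B' h
    exact hal u B B' (fun z hz => h z (le_of_eq hz.2))
  have g1 : ∃ B, Val (fun A => A) hid C B := by
    obtain ⟨B', -, hB'⟩ := hc (fun A => A) hid C hLoc hH (fun _ => false) 0 (fun u hu => by
      unfold blen at hu
      omega)
    exact ⟨B', hB'⟩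
  have g2 : ∀ B : Oracle, (∀ N : ℕ, ∃ B' : Oracle, Val (fun A => A) hid C B' ∧
      ∀ z : List Bool, z.length ≤ N → B' z = B z) → Val (fun A => A) hid C B := by
    intro B h u
    obtain ⟨B', hB', he⟩ := h (blen u)
    have h1 : al u B' = al u B := hval u B' B he
    have hlen : u.length ≤ blen u := by
      unfold blen
      omega
    have h2 : hid u B' = hid u B := by
      apply hH
      intro z hz
      exact he z (by omega)
    have h3 := hB' u
    unfold Cond at h3 ⊢
    rw [h1, h2] at h3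
    exact h3
  have g3 : ∀ (t : (Alg × Polynomial ℕ × ℕ) ⊕ (Alg × Polynomial ℕ × ℕ)) (B : Oracle) (N : ℕ),
      Val (fun A => A) hid C B → ∃ (B' : Oracle) (N' : ℕ), Val (fun A => A) hid C B' ∧
      (∀ z : List Bool, z.length ≤ N → B' z = B z) ∧
      ∀ B'' : Oracle, Val (fun A => A) hid C B'' →
        (∀ z : List Bool, z.length ≤ N' → B'' z = B' z) → YP_bad B'' t := by
    rintro (⟨M, p, k⟩ | ⟨M, p, k⟩) B N hB
    · obtain ⟨B', x, hB', he, hbad⟩ := hy hid C hH M p k B N hB
      obtain ⟨N1, hN1⟩ := hl1 k x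
      obtain ⟨N2, hN2⟩ := hl2 M (p.eval x.length) k true x
      refine ⟨B', max N1 N2, hB', he, fun B'' _ h'' => ⟨x, ?_⟩⟩
      have e1 := hN1 B'' B' fun z hz => h'' z (hz.trans (le_max_left _ _))
      have e2 := hN2 B'' B' fun z hz => h'' z (hz.trans (le_max_right _ _))
      rw [e1, e2]
      exact hbad
    · obtain ⟨B', x, hB', he, hbad⟩ := hz hid C hH hC0 M p k B N hB
      obtain ⟨N2, hN2⟩ := hl2 M (p.eval x.length) k true x
      refine ⟨B', max (blen (false :: false :: x)) N2, hB', he, fun B'' _ h'' => ⟨x, ?_⟩⟩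
      have e1 : al (false :: false :: x) B'' = al (false :: false :: x) B' :=
        hval _ _ _ fun z hz => h'' z (hz.trans (le_max_left _ _))
      have e2 := hN2 B'' B' fun z hz => h'' z (hz.trans (le_max_right _ _))
      rw [e1, e2]
      exact hbad
  have hcnt : Countable ((Alg × Polynomial ℕ × ℕ) ⊕ (Alg × Polynomial ℕ × ℕ)) := by
    have h2 : Countable (Polynomial ℕ) := by
      have : Function.Injective (fun p : Polynomial ℕ => (p.toFinsupp.coeff : ℕ →₀ ℕ)) := by
        intro p q h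
        ext n
        exact DFunLike.congr_fun h n
      exact this.countable
    infer_instance
  obtain ⟨B, hB, hbad⟩ := hdg ((Alg × Polynomial ℕ × ℕ) ⊕ (Alg × Polynomial ℕ × ℕ))
    (Val (fun A => A) hid C) YP_bad g1 g2 g3
  have hacc1 : ∀ u, al u B = 1 / 2 → accProb B (Cq u) = 1 := by
    intro u hu
    rw [(hCq' u).2, hu]
    norm_num
  have hacc0 : ∀ u, al u B = 0 → accProb B (Cq u) = 0 := by
    intro u hu
    rw [(hCq' u).2, hu]
    norm_num
  refine ⟨B, fun L hL => ?_, fun k => ⟨lang k B, lang_sig B k, ?_⟩,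
    {x | al (false :: false :: x) B = 1 / 2}, ?_, ?_⟩
  · obtain ⟨g, hg, hgx⟩ := hPS B L hL
    refine ⟨fun x => Cq (g x), FX_comp hCq hg, fun x => ⟨(hCq' _).1, fun hxL => ?_,
      fun hxL => ?_⟩⟩
    · exact hacc1 _ (((hB (g x)).2 (hgx x).1).2 ((hgx x).2.1 hxL))
    · exact hacc0 _ ((hB (g x)).1.resolve_right (fun h => hxL
        ((hgx x).2.2 (((hB (g x)).2 (hgx x).1).1 h))))
  · rintro ⟨V, p, ⟨M, hM⟩, hL⟩
    obtain ⟨x, hx⟩ := hbad (Sum.inl (M, p, k))
    apply hx
    rw [hL x]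
    exact hdq M B V (List Bool) (fun y' A' => decide (M.out A' y' = some [true])) B
      (p.eval x.length) k true x hM (fun _ _ => rfl)
  · refine ⟨fun x => Cq (false :: false :: x), FX_comp hCq FX_pre, fun x =>
      ⟨(hCq' _).1, fun hxL => hacc1 _ hxL, fun hxL => hacc0 _ ?_⟩⟩
    exact (hB _).1.resolve_right hxL
  · rintro ⟨V, p, k, ⟨M, hM⟩, hL⟩
    obtain ⟨x, hx⟩ := hbad (Sum.inr (M, p, k))
    apply hx
    have h1 : Quant (p.eval x.length) V k true x ↔ QO M (p.eval x.length) k true x B = true :=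
      hdq M B V (List Bool) (fun y' A' => decide (M.out A' y' = some [true])) B
        (p.eval x.length) k true x hM (fun _ _ => rfl)
    exact h1.symm.trans (hL x).symm

end Pool.Agent.H516R2.EQP3
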