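import Pool.Agent.H516R2.EQP3.AllY
import Pool.Agent.H516R2.EQP3.YZ
import Pool.Agent.H516R2.EQP3.YP

/-! The assembly of the third part, second theorem, with `EQP ⊄ PH`. -/

namespace Pool.Agent.H516R2.EQP3

open Pool.Agent.H516R2.EQP Pool.Agent.H516R2.EQP2

theorem all_YP : St_YP :=
  YP all_PU all_QU PS all_CL DG all_YS (YZ all_PU all_HY all_CL BL all_VL (GY all_PU) LL) LL DQ

end Pool.Agent.H516R2.EQP3
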