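import Pool.Agent.H516R2.EQP3.Props
import Pool.Agent.H516R2.EQP.DE

/-! Facts about the blocks -/

set_option autoImplicit false

namespace Pool.Agent.H516R2.EQP3

open Pool.Agent.NPC Pool.Agent.H620R2.Gauge Finset H568R2 Pool.Agent.H676 Pool.Agent.H516R2.EQP
  Pool.Agent.H516R2.EQP2

theorem PU_inj (u v z : List Bool) (hu : InB u z) (hv : InB v z) : u = v := by
  obtain ⟨h1, h2⟩ := hu
  obtain ⟨h3, h4⟩ := hv
  have h5 : u.length = v.length := by
    rw [h2] at h4
    unfold blen kap mu at h4
    omega
  rw [h5, h3] at h1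
  simpa using h1.symm

theorem PU_off (u z : List Bool) (a : Cube (kap u) → Bool) (B : Oracle) (h : ¬ InB u z) :
    put u a B z = B z := by
  unfold put
  rw [if_neg h]

theorem PU_len (u z : List Bool) (h : InB u z) : (z.drop (2 + u.length)).length = 4 + 3 * kap u := by
  rw [List.length_drop, h.2]
  unfold blen
  omega

theorem PU_on (u z : List Bool) (a : Cube (kap u) → Bool) (B B' : Oracle) (h : InB u z) :
    put u a B z = put u a B' z := by
  unfold put
  rw [if_pos h, if_pos h]
  unfold emb
  rw [if_pos (PU_len u z h), if_pos (PU_len u z h)]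

theorem PU_comm (u v : List Bool) (a : Cube (kap u) → Bool) (b : Cube (kap v) → Bool)
    (B : Oracle) (h : u ≠ v) : put u a (put v b B) = put v b (put u a B) := by
  funext z
  by_cases hu : InB u z
  · have hv : ¬ InB v z := fun hv => h (PU_inj u v z hu hv)
    rw [PU_off v z b (put u a B) hv]
    exact PU_on u z a _ _ hu
  · rw [PU_off u z a (put v b B) hu]
    by_cases hv : InB v z
    · exact PU_on v z b _ _ hv
    · rw [PU_off v z b _ hv, PU_off v z b _ hv, PU_off u z a _ hu]

theorem PU_mem (u w : List Bool) (hw : w.length = 4 + 3 * kap u) :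
    InB u (false :: false :: (u ++ w)) := by
  constructor
  · have e : 2 + u.length = u.length + 1 + 1 := by omega
    rw [e, List.take_succ_cons, List.take_succ_cons, List.take_left]
  · simp only [List.length_cons, List.length_append, hw]
    unfold blen
    omega

theorem PU_drop (u w : List Bool) : (false :: false :: (u ++ w)).drop (2 + u.length) = w := by
  have e : 2 + u.length = u.length + 1 + 1 := by omega
  rw [e, List.drop_succ_cons, List.drop_succ_cons, List.drop_left]

theorem PU_al (hal : St_AL) (u : List Bool) (A A' : Oracle) (h : ∀ z, InB u z → A z = A' z) :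
    al u A = al u A' := by
  unfold al
  refine hal.1 _ _ _ fun w hw => ?_
  unfold tlU
  exact h _ (PU_mem u w hw)

theorem PU_val (hal : St_AL) (u : List Bool) (a : Cube (kap u) → Bool) (B : Oracle) :
    al u (put u a B) = ((2 * 8 ^ (kap u) + 5 * FF (fun i => a (Sum.inl i)) +
      SS (fun w => a (Sum.inr w)) : ℤ) : ℝ) / 8 ^ (kap u + 1) := by
  rw [← hal.2.2 (kap u) B a]
  unfold al
  refine hal.1 _ _ _ fun w hw => ?_
  unfold tlU
  show put u a B (false :: false :: (u ++ w)) = emb (kap u) B a w
  unfold put
  rw [if_pos (PU_mem u w hw), PU_drop]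

theorem PU (hal : St_AL) : St_PU := by
  refine ⟨PU_inj, PU_off, PU_on, PU_comm, PU_al hal, fun u a B => ⟨fun h => ?_, fun h => ?_⟩, ?_⟩
  · have h1 : (2 * 8 ^ (kap u) + 5 * FF (fun i => a (Sum.inl i)) +
        SS (fun w => a (Sum.inr w)) : ℤ) = 4 * 8 ^ (kap u) := by
      unfold Yes at h
      linarith
    rw [PU_val hal, h1]
    push_cast
    rw [pow_succ]
    have h8 : (8 : ℝ) ^ kap u ≠ 0 := by positivity
    field_simp
    norm_num
  · have h1 : (2 * 8 ^ (kap u) + 5 * FF (fun i => a (Sum.inl i)) +
        SS (fun w => a (Sum.inr w)) : ℤ) = 0 := by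
      unfold No at h
      linarith
    rw [PU_val hal, h1]
    simp
  · intro u z B
    by_cases h : InB u z
    · have e : ∀ a : Cube (kap u) → Bool, put u a B z = emb (kap u) B a (z.drop (2 + u.length)) := by
        intro a
        unfold put
        rw [if_pos h]
      rcases DE_form (kap u) B (z.drop (2 + u.length)) with ⟨c, hc⟩ | ⟨i, c, hc⟩
      · exact Or.inl ⟨c, fun a => by rw [e, hc]⟩
      · exact Or.inr ⟨i, c, fun a => by rw [e, hc, Bool.xor_comm]⟩
    · exact Or.inl ⟨B z, fun a => PU_off u z a B h⟩

end Pool.Agent.H516R2.EQP3
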